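import Pool.Agent.Work.MP_5955e5_nt.Defs

/-!
# Cell RV: `q`-series definitions used by the final assembly (captain helper23)
-/

set_option autoImplicit false

open Complex MeasureTheory

namespace Pool.RV

/-- `q`-series of `e` on the line: coefficients `σ₃(n) - σ₃(n/2) - 9 σ₃(n/3) + 9 σ₃(n/6)`,
written as a double series; `q = -exp(-2 π w)` -/
noncomputable def eqs (w : ℝ) : ℝ :=
  ∑' x : ℕ × ℕ, (if (x.1 + 1) % 2 = 1 then (if (x.1 + 1) % 3 = 0 then (-8 : ℝ) else 1) else 0) *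
    (x.2 + 1 : ℝ) ^ 3 * (-Real.exp (-2 * Real.pi * w)) ^ ((x.1 + 1) * (x.2 + 1))

/-- `q`-series of `log x`: `log 8 - π w + 3 ∑_n log(1 + q^n) + 3 ∑_n log (1 + q^{3n})` -/
noncomputable def lxq (w : ℝ) : ℝ :=
  Real.log 8 - Real.pi * w
    + 3 * ∑' n : ℕ, Real.log (1 + (-Real.exp (-2 * Real.pi * w)) ^ (n + 1))
    + 3 * ∑' n : ℕ, Real.log (1 + (-Real.exp (-2 * Real.pi * w)) ^ (3 * (n + 1)))

noncomputable def zeta3 : ℝ := ∑' n : ℕ, 1 / ((n : ℝ) + 1) ^ 3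

/-- the two double series of the right-hand side -/
noncomputable def SabS (a b : ℝ) : ℝ :=
  ∑' x : ℕ × ℕ, (-1 : ℝ) ^ (x.1 + x.2) * (2 * x.1 + 1) * (2 * x.2 + 1) /
    (a * (2 * x.1 + 1) ^ 2 + b * (2 * x.2 + 1) ^ 2) ^ 4

end Pool.RV
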