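import Pool.Agent.Work.MP_5955e5_nt.Ram6

/-!
# Interface of (a3) for block (a) (helper85)
-/

set_option autoImplicit false

namespace RV85

open Pool.Agent.RV.A (PC XC GC)

theorem eps_eqs {u : ℝ} (hu : 0 < u) :
    ((-Real.exp (-(2 * Real.pi * u)) : ℝ) : ℂ) *
      deriv XC ((-Real.exp (-(2 * Real.pi * u)) : ℝ) : ℂ) *
      GC ((-Real.exp (-(2 * Real.pi * u)) : ℝ) : ℂ) = (Pool.RV.eqs u : ℂ) := by
  have e : ((-Real.exp (-(2 * Real.pi * u)) : ℝ) : ℂ) =
      -(Real.exp (-2 * Real.pi * u) : ℂ) := by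
    rw [show -(2 * Real.pi * u) = -2 * Real.pi * u by ring]
    push_cast
    rfl
  rw [e, ← eL_eqs hu]
  have hn : ‖(-(Real.exp (-2 * Real.pi * u) : ℂ))‖ < 1 := by
    rw [norm_neg, Complex.norm_real, Real.norm_of_nonneg (Real.exp_pos _).le, Real.exp_lt_one_iff]
    have := Real.pi_pos
    nlinarith [mul_pos this hu]
  have h0 : (-(Real.exp (-2 * Real.pi * u) : ℂ)) ≠ 0 := by
    rw [neg_ne_zero]
    exact_mod_cast (Real.exp_pos _).ne'
  rw [← GC_mul_theta_XC hn h0]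
  ring

end RV85
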