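import Pool.Agent.Work.MP_5955e5_nt.Final
import Pool.Agent.Work.MP_5955e5_nt.A.BlockA
import Pool.Agent.Work.MP_5955e5_nt.A.SingVal
import Pool.Agent.Work.MP_5955e5_nt.B.BlockB
import Pool.Agent.Work.MP_5955e5_nt.B.LimPsi
import Pool.Agent.Work.MP_5955e5_nt.E.E1
import Pool.Agent.Work.MP_5955e5_nt.E.E2

/-!
# Cell RV: the whole theorem from the CM identity (captain helper23)
-/

set_option autoImplicit false

open Complex MeasureTheory Filter Topology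

namespace Pool.RV

theorem final_of_c (hc : Tplus w0 = 477 / 16 * KO - 205 / 48 * KL) :
    ∀ η : ℝ → ℝ,
      (∀ q : ℝ, η q = q ^ ((1 : ℝ) / 24) * ∏' n : ℕ, (1 - q ^ (n + 1))) →
      (∫ θ in Set.Icc (0 : Fin 4 → ℝ) 1,
          Real.log ‖1 + ∑ i : Fin 4, Complex.exp (2 * (Real.pi : ℂ) * Complex.I * (θ i : ℂ))‖)
        = (15 / (4 * Real.pi ^ 2)) ^ ((5 : ℝ) / 2) *
          ∫ t in Set.Ioi (0 : ℝ),
            (η (Real.exp (-3 * t)) ^ 3 * η (Real.exp (-5 * t)) ^ 3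
              + η (Real.exp (-t)) ^ 3 * η (Real.exp (-15 * t)) ^ 3) * t ^ 3 :=
  final_of block_a (fun _ hw => block_e1 hw) (fun _ hw => lx_eq_lxq hw)
    Pool.Agent.RV.A.lxq_w0 (tendsto_Psi_of tendsto_Tplus) hc

end Pool.RV
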