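import Mathlib

/-! Jacobi's identity `∏ (1 - q^n)^3 = ∑ (-1)^n (2n+1) q^{n(n+1)/2}` for real `0 < q < 1`. -/

set_option autoImplicit false

open Finset Polynomial Filter Topology

namespace Pool.RV

/-- `(q;q)_n`. -/
noncomputable def qp (q : ℝ) (n : ℕ) : ℝ := ∏ i ∈ range n, (1 - q ^ (i + 1))

lemma qp_zero (q : ℝ) : qp q 0 = 1 := by simp [qp]

lemma qp_succ (q : ℝ) (n : ℕ) : qp q (n + 1) = qp q n * (1 - q ^ (n + 1)) := prod_range_succ _ _

lemma one_sub_pos {q : ℝ} (h0 : 0 ≤ q) (h1 : q < 1) (n : ℕ) : 0 < 1 - q ^ (n + 1) :=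
  sub_pos.2 (pow_lt_one₀ h0 h1 (Nat.succ_ne_zero n))

lemma qp_pos {q : ℝ} (h0 : 0 ≤ q) (h1 : q < 1) (n : ℕ) : 0 < qp q n :=
  prod_pos fun i _ => one_sub_pos h0 h1 i

/-- Gaussian binomial coefficient. -/
noncomputable def gb (q : ℝ) (M j : ℕ) : ℝ := if j ≤ M then qp q M / (qp q j * qp q (M - j)) else 0

lemma gb_zero {q : ℝ} (h0 : 0 ≤ q) (h1 : q < 1) (M : ℕ) : gb q M 0 = 1 := by
  have := (qp_pos h0 h1 M).ne'
  simp [gb, qp_zero, this]

lemma gb_rec {q : ℝ} (h0 : 0 ≤ q) (h1 : q < 1) (M j : ℕ) :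
    q ^ j * gb q (M + 1) (j + 1) = q ^ j * gb q M (j + 1) + q ^ M * gb q M j := by
  rcases lt_trichotomy j M with h | h | h
  · obtain ⟨d, rfl⟩ := Nat.exists_eq_add_of_lt h
    have e1 : j + d + 1 + 1 - (j + 1) = d + 1 := by omega
    have e2 : j + d + 1 - (j + 1) = d := by omega
    have e3 : j + d + 1 - j = d + 1 := by omega
    have p1 := (qp_pos h0 h1 j).ne'
    have p2 := (qp_pos h0 h1 d).ne'
    have p3 := (one_sub_pos h0 h1 j).ne'
    have p4 := (one_sub_pos h0 h1 d).ne'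
    rw [gb, gb, gb, if_pos (by omega), if_pos (by omega), if_pos (by omega), e1, e2, e3,
      qp_succ q (j + d + 1), qp_succ q j, qp_succ q d]
    field_simp
    ring
  · subst h
    have p1 := (qp_pos h0 h1 j).ne'
    have p2 := (qp_pos h0 h1 (j + 1)).ne'
    rw [gb, gb, gb, if_pos le_rfl, if_neg (by omega), if_pos le_rfl]
    simp [qp_zero, p1, p2]
  · rw [gb, gb, gb, if_neg (by omega), if_neg (by omega), if_neg (by omega)]
    ring

/-- Signed coefficient in the `q`-binomial theorem. -/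
noncomputable def gc (q : ℝ) (M j : ℕ) : ℝ := (-1) ^ j * q ^ (j.choose 2) * gb q M j

lemma gc_rec {q : ℝ} (h0 : 0 ≤ q) (h1 : q < 1) (M j : ℕ) :
    gc q (M + 1) (j + 1) = gc q M (j + 1) - q ^ M * gc q M j := by
  have h := gb_rec h0 h1 M j
  have e : (j + 1).choose 2 = j + j.choose 2 := by
    rw [Nat.choose_succ_succ' j 1, Nat.choose_one_right]
  rw [gc, gc, gc, e, pow_add, pow_succ]
  linear_combination (-(-1) ^ j * q ^ (j.choose 2)) * h

lemma gc_zero {q : ℝ} (h0 : 0 ≤ q) (h1 : q < 1) (M : ℕ) : gc q M 0 = 1 := by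
  simp [gc, gb_zero h0 h1]

lemma gc_big (q : ℝ) (M : ℕ) : gc q M (M + 1) = 0 := by
  rw [gc, gb, if_neg (by omega), mul_zero]

/-- The `q`-binomial theorem. -/
lemma qbinom {q : ℝ} (h0 : 0 ≤ q) (h1 : q < 1) (a : ℝ) (M : ℕ) :
    ∏ i ∈ range M, ((1 : ℝ[X]) - C (a * q ^ i) * X) =
      ∑ j ∈ range (M + 1), C (gc q M j * a ^ j) * X ^ j := by
  induction M with
  | zero => simp [gc_zero h0 h1]
  | succ M ih =>
    rw [prod_range_succ, ih]
    have hR : ∑ j ∈ range (M + 1 + 1), C (gc q (M + 1) j * a ^ j) * (X : ℝ[X]) ^ j =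
        (∑ j ∈ range (M + 1), C (gc q M (j + 1) * a ^ (j + 1)) * X ^ (j + 1) +
          C (gc q M 0 * a ^ 0) * X ^ 0) -
        ∑ j ∈ range (M + 1), C (gc q M j * a ^ j) * X ^ j * (C (a * q ^ M) * X) := by
      rw [sum_range_succ', gc_zero h0 h1, gc_zero h0 h1, add_sub_right_comm, ← sum_sub_distrib]
      congr 1
      refine sum_congr rfl fun j _ => ?_
      rw [gc_rec h0 h1]
      simp only [C_mul, C_sub, C_pow]
      ring
    rw [hR, ← sum_range_succ' (fun j => C (gc q M j * a ^ j) * (X : ℝ[X]) ^ j) (M + 1),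
      sum_range_succ _ (M + 1), gc_big, mul_sub, mul_one, sum_mul]
    simp

lemma choose_two_int (n : ℕ) : (2 : ℤ) * (n.choose 2 : ℕ) = n * (n - 1) := by
  induction n with
  | zero => simp
  | succ n ih =>
    rw [Nat.choose_succ_succ' n 1, Nat.choose_one_right]
    push_cast
    linarith

lemma exp_one (k d : ℕ) : d.choose 2 + (k + d + 1).choose 2 = (k + d) * d + (k + 1).choose 2 := by
  have h1 := choose_two_int d
  have h2 := choose_two_int (k + d + 1)
  have h3 := choose_two_int (k + 1)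
  push_cast at h1 h2 h3
  zify
  linarith

lemma exp_two (k d : ℕ) : (2 * k + d + 1).choose 2 + (k + d + 1).choose 2 =
    (k + d) * (2 * k + d + 1) + (k + 1).choose 2 := by
  have h1 := choose_two_int (2 * k + d + 1)
  have h2 := choose_two_int (k + d + 1)
  have h3 := choose_two_int (k + 1)
  push_cast at h1 h2 h3
  zify
  linarith

lemma prod_neg {q : ℝ} (hq : q ≠ 0) (N : ℕ) :
    ∏ i ∈ range N, (1 - (q ^ N)⁻¹ * q ^ i) = (-1) ^ N * (q ^ ((N + 1).choose 2))⁻¹ * qp q N := by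
  rw [← prod_range_reflect]
  have : ∀ i ∈ range N, (1 - (q ^ N)⁻¹ * q ^ (N - 1 - i)) = -(q ^ (i + 1))⁻¹ * (1 - q ^ (i + 1)) := by
    intro i hi
    have hi' := mem_range.1 hi
    have e : q ^ N = q ^ (N - 1 - i) * q ^ (i + 1) := by
      rw [← pow_add]; congr 1; omega
    have h1 : q ^ (N - 1 - i) ≠ 0 := pow_ne_zero _ hq
    have h2 : q ^ (i + 1) ≠ 0 := pow_ne_zero _ hq
    rw [e]
    field_simp
    ring
  rw [prod_congr rfl this, prod_mul_distrib, prod_neg_eq]
  rfl
where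
  prod_neg_eq : ∏ i ∈ range N, -(q ^ (i + 1))⁻¹ = (-1) ^ N * (q ^ ((N + 1).choose 2))⁻¹ := by
    induction N with
    | zero => simp
    | succ N ih =>
      have e : (N + 1 + 1).choose 2 = (N + 1) + (N + 1).choose 2 := by
        rw [Nat.choose_succ_succ' (N + 1) 1, Nat.choose_one_right]
      rw [prod_range_succ, ih, e, pow_add q, mul_inv, pow_succ (-1 : ℝ) N]
      ring

/-- Finite form of Jacobi's identity. -/
lemma jacobi_finite {q : ℝ} (h0 : 0 < q) (h1 : q < 1) (N : ℕ) :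
    qp q N ^ 2 = ∑ k ∈ range (N + 1),
      (-1) ^ k * (2 * k + 1) * q ^ ((k + 1).choose 2) * gb q (2 * N + 1) (N - k) := by
  have hq : q ≠ 0 := h0.ne'
  set a : ℝ := (q ^ N)⁻¹ with ha
  have haq : a * q ^ N = 1 := by
    rw [ha]; exact inv_mul_cancel₀ (pow_ne_zero _ hq)
  have hmain := qbinom h0.le h1 a (N + 1 + N)
  have hsplit : ∏ i ∈ range (N + 1 + N), ((1 : ℝ[X]) - C (a * q ^ i) * X) =
      (1 - X) * ((∏ i ∈ range N, ((1 : ℝ[X]) - C (a * q ^ i) * X)) *
        ∏ i ∈ range N, ((1 : ℝ[X]) - C (q ^ (i + 1)) * X)) := by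
    rw [prod_range_add, prod_range_succ, haq]
    have : ∀ i ∈ range N, ((1 : ℝ[X]) - C (a * q ^ (N + 1 + i)) * X) =
        ((1 : ℝ[X]) - C (q ^ (i + 1)) * X) := by
      intro i _
      have : a * q ^ (N + 1 + i) = q ^ (i + 1) := by
        have : q ^ (N + 1 + i) = q ^ N * q ^ (i + 1) := by rw [← pow_add]; congr 1; omega
        rw [this, ← mul_assoc, haq, one_mul]
      rw [this]
    rw [prod_congr rfl this]
    simp only [map_one, one_mul]
    ring
  rw [hsplit] at hmain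
  have hd := congrArg (fun p : ℝ[X] => (derivative p).eval 1) hmain
  simp only [derivative_mul, derivative_sub, derivative_one, derivative_X, eval_add, eval_mul,
    eval_sub, eval_one, eval_X, sub_self, zero_mul, add_zero, zero_sub, eval_prod, eval_C,
    derivative_sum, eval_finsetSum, derivative_C, derivative_X_pow, eval_pow, one_pow, mul_one,
    zero_add, neg_mul, one_mul, eval_neg] at hd
  rw [prod_neg hq] at hd
  have hB : ∏ i ∈ range N, (1 - q ^ (i + 1)) = qp q N := rfl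
  rw [hB] at hd
  have hT : q ^ ((N + 1).choose 2) ≠ 0 := pow_ne_zero _ hq
  -- rewrite the right-hand side
  have hRHS : ∑ j ∈ range (N + 1 + N + 1), gc q (N + 1 + N) j * a ^ j * (j : ℝ) =
      ∑ k ∈ range (N + 1), -((-1) ^ N * (q ^ ((N + 1).choose 2))⁻¹ *
        ((-1) ^ k * (2 * k + 1) * q ^ ((k + 1).choose 2) * gb q (2 * N + 1) (N - k))) := by
    have e : N + 1 + N + 1 = (N + 1) + (N + 1) := by ring
    rw [e, sum_range_add, ← sum_range_reflect, ← sum_add_distrib]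
    refine sum_congr rfl fun k hk => ?_
    obtain ⟨d, rfl⟩ := Nat.exists_eq_add_of_le (Nat.lt_succ_iff.1 (mem_range.1 hk))
    have e1 : k + d + 1 - 1 - k = d := by omega
    have e2 : k + d - k = d := by omega
    have e3 : k + d + 1 + k = 2 * k + d + 1 := by ring
    have e4 : k + d + 1 + (k + d) = 2 * (k + d) + 1 := by ring
    rw [e1, e2, e3, e4, gc, gc, gb, gb, if_pos (by omega), if_pos (by omega)]
    have e5 : 2 * (k + d) + 1 - d = 2 * k + d + 1 := by omega
    have e6 : 2 * (k + d) + 1 - (2 * k + d + 1) = d := by omega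
    rw [e5, e6]
    have p1 := (qp_pos h0.le h1 d).ne'
    have p2 := (qp_pos h0.le h1 (2 * k + d + 1)).ne'
    have x1 : q ^ (d.choose 2) * a ^ d = q ^ ((k + 1).choose 2) * (q ^ ((k + d + 1).choose 2))⁻¹ := by
      have h := exp_one k d
      have this : q ^ (d.choose 2) * q ^ ((k + d + 1).choose 2) =
          (q ^ (k + d)) ^ d * q ^ ((k + 1).choose 2) := by
        rw [← pow_add, ← pow_mul, ← pow_add, h]
      have h3 : (q ^ (k + d)) ^ d ≠ 0 := pow_ne_zero _ (pow_ne_zero _ hq)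
      have h4 : q ^ ((k + d + 1).choose 2) ≠ 0 := pow_ne_zero _ hq
      rw [ha, inv_pow, ← div_eq_mul_inv, ← div_eq_mul_inv, div_eq_div_iff h3 h4, this]
      ring
    have x2 : q ^ ((2 * k + d + 1).choose 2) * a ^ (2 * k + d + 1) =
        q ^ ((k + 1).choose 2) * (q ^ ((k + d + 1).choose 2))⁻¹ := by
      have h := exp_two k d
      have this : q ^ ((2 * k + d + 1).choose 2) * q ^ ((k + d + 1).choose 2) =
          (q ^ (k + d)) ^ (2 * k + d + 1) * q ^ ((k + 1).choose 2) := by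
        rw [← pow_add, ← pow_mul, ← pow_add, h]
      have h3 : (q ^ (k + d)) ^ (2 * k + d + 1) ≠ 0 := pow_ne_zero _ (pow_ne_zero _ hq)
      have h4 : q ^ ((k + d + 1).choose 2) ≠ 0 := pow_ne_zero _ hq
      rw [ha, inv_pow, ← div_eq_mul_inv, ← div_eq_mul_inv, div_eq_div_iff h3 h4, this]
      ring
    have s2 : (-1 : ℝ) ^ (2 * k + d + 1) = -(-1) ^ d := by
      rw [pow_succ, pow_add, pow_mul]; simp
    have s1 : (-1 : ℝ) ^ (k + d) * (-1) ^ k = (-1) ^ d := by
      rw [pow_add, mul_assoc, mul_comm ((-1 : ℝ) ^ d), ← mul_assoc, ← mul_pow]; simp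
    set G := qp q (2 * (k + d) + 1) with hG
    have t1 : (-1 : ℝ) ^ d * q ^ (d.choose 2) * (G / (qp q d * qp q (2 * k + d + 1))) * a ^ d * (d : ℝ)
        = (-1) ^ d * (d : ℝ) * (G / (qp q d * qp q (2 * k + d + 1))) *
          (q ^ ((k + 1).choose 2) * (q ^ ((k + d + 1).choose 2))⁻¹) := by
      rw [← x1]; ring
    have t2 : (-1 : ℝ) ^ (2 * k + d + 1) * q ^ ((2 * k + d + 1).choose 2) *
        (G / (qp q (2 * k + d + 1) * qp q d)) * a ^ (2 * k + d + 1) * ((2 * k + d + 1 : ℕ) : ℝ)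
        = -((-1) ^ d) * ((2 * k + d + 1 : ℕ) : ℝ) * (G / (qp q d * qp q (2 * k + d + 1))) *
          (q ^ ((k + 1).choose 2) * (q ^ ((k + d + 1).choose 2))⁻¹) := by
      rw [← x2, s2, mul_comm (qp q (2 * k + d + 1)) (qp q d)]; ring
    rw [t1, t2, ← s1]
    push_cast
    ring
  have hd2 : ∑ j ∈ range (N + 1 + N + 1), gc q (N + 1 + N) j * a ^ j * (j : ℝ) =
      -((-1) ^ N * (q ^ ((N + 1).choose 2))⁻¹ * qp q N * qp q N) := by
    rw [hd]
  rw [hRHS, sum_neg_distrib, ← mul_sum, neg_inj] at hd2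
  have hne : (-1 : ℝ) ^ N * (q ^ ((N + 1).choose 2))⁻¹ ≠ 0 :=
    mul_ne_zero (pow_ne_zero _ (by norm_num)) (inv_ne_zero hT)
  have := mul_left_cancel₀ hne (by rw [hd2]; ring :
    (-1 : ℝ) ^ N * (q ^ ((N + 1).choose 2))⁻¹ * (∑ k ∈ range (N + 1),
      (-1) ^ k * (2 * k + 1) * q ^ ((k + 1).choose 2) * gb q (2 * N + 1) (N - k)) =
    (-1 : ℝ) ^ N * (q ^ ((N + 1).choose 2))⁻¹ * (qp q N ^ 2))
  exact this.symm

/-! ### The limit -/

lemma summable_q {q : ℝ} (h0 : 0 ≤ q) (h1 : q < 1) : Summable fun n : ℕ => q ^ (n + 1) :=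
  (summable_nat_add_iff 1).2 (summable_geometric_of_lt_one h0 h1)

lemma hasSum_log {q : ℝ} (h0 : 0 ≤ q) (h1 : q < 1) :
    Summable fun n : ℕ => Real.log (1 - q ^ (n + 1)) := by
  have h := Real.summable_log_one_add_of_summable (summable_q h0 h1).neg
  simpa [sub_eq_add_neg] using h

/-- `∏_{n ≥ 1} (1 - q^n)`. -/
noncomputable def pinf (q : ℝ) : ℝ := ∏' n : ℕ, (1 - q ^ (n + 1))

lemma pinf_eq_exp {q : ℝ} (h0 : 0 ≤ q) (h1 : q < 1) :
    pinf q = Real.exp (∑' n : ℕ, Real.log (1 - q ^ (n + 1))) :=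
  (Real.rexp_tsum_eq_tprod (fun n => one_sub_pos h0 h1 n) (hasSum_log h0 h1)).symm

lemma pinf_pos {q : ℝ} (h0 : 0 ≤ q) (h1 : q < 1) : 0 < pinf q := by
  rw [pinf_eq_exp h0 h1]; exact Real.exp_pos _

lemma tendsto_qp {q : ℝ} (h0 : 0 ≤ q) (h1 : q < 1) : Tendsto (qp q) atTop (𝓝 (pinf q)) :=
  ((Real.multipliable_of_summable_log (fun n => one_sub_pos h0 h1 n)
    (hasSum_log h0 h1)).hasProd).tendsto_prod_nat

lemma qp_antitone {q : ℝ} (h0 : 0 ≤ q) (h1 : q < 1) : Antitone (qp q) := by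
  refine antitone_nat_of_succ_le fun n => ?_
  rw [qp_succ]
  refine mul_le_of_le_one_right (qp_pos h0 h1 n).le ?_
  have := pow_nonneg h0 (n + 1)
  linarith

lemma pinf_le_qp {q : ℝ} (h0 : 0 ≤ q) (h1 : q < 1) (n : ℕ) : pinf q ≤ qp q n :=
  (qp_antitone h0 h1).le_of_tendsto (tendsto_qp h0 h1) n

lemma qp_le_one {q : ℝ} (h0 : 0 ≤ q) (h1 : q < 1) (n : ℕ) : qp q n ≤ 1 := by
  simpa [qp_zero] using qp_antitone h0 h1 (Nat.zero_le n)

lemma le_choose (k : ℕ) : k ≤ (k + 1).choose 2 := by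
  rw [Nat.choose_succ_succ' k 1, Nat.choose_one_right]; omega

lemma summable_jacobi {q : ℝ} (h0 : 0 ≤ q) (h1 : q < 1) :
    Summable fun k : ℕ => (2 * (k : ℝ) + 1) * q ^ ((k + 1).choose 2) := by
  have h2 : Summable fun k : ℕ => (2 * (k : ℝ) + 1) * q ^ k := by
    have a1 := summable_pow_mul_geometric_of_norm_lt_one (R := ℝ) 1
      (r := q) (by rwa [Real.norm_eq_abs, abs_of_nonneg h0])
    have a2 := summable_geometric_of_lt_one h0 h1
    refine ((a1.mul_left 2).add a2).congr fun k => ?_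
    simp only [pow_one]; ring
  refine Summable.of_nonneg_of_le (fun k => ?_) (fun k => ?_) h2
  · positivity
  · exact mul_le_mul_of_nonneg_left (pow_le_pow_of_le_one h0 h1.le (le_choose k)) (by positivity)

/-- **Jacobi's identity**. -/
theorem jacobi {q : ℝ} (h0 : 0 < q) (h1 : q < 1) :
    HasSum (fun k : ℕ => (-1 : ℝ) ^ k * (2 * k + 1) * q ^ ((k + 1).choose 2)) (pinf q ^ 3) := by
  set P := pinf q with hP
  have hPpos : 0 < P := pinf_pos h0.le h1
  set f : ℕ → ℕ → ℝ := fun N k => if k ≤ N then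
    (-1) ^ k * (2 * k + 1) * q ^ ((k + 1).choose 2) * gb q (2 * N + 1) (N - k) else 0 with hf
  have hsum : Summable fun k : ℕ => (-1 : ℝ) ^ k * (2 * k + 1) * q ^ ((k + 1).choose 2) := by
    refine Summable.of_norm_bounded (summable_jacobi h0.le h1) fun k => ?_
    rw [norm_mul, norm_mul, norm_pow, norm_neg, norm_one, one_pow, one_mul, norm_pow,
      Real.norm_of_nonneg h0.le, Real.norm_of_nonneg (by positivity)]
  have hgb : ∀ N k, k ≤ N → gb q (2 * N + 1) (N - k) =
      qp q (2 * N + 1) / (qp q (N - k) * qp q (N + 1 + k)) := by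
    intro N k hk
    rw [gb, if_pos (by omega)]
    congr 3
    omega
  have hlim : Tendsto (fun N => ∑' k, f N k) atTop
      (𝓝 (∑' k : ℕ, (-1 : ℝ) ^ k * (2 * k + 1) * q ^ ((k + 1).choose 2) * (1 / P))) := by
    refine tendsto_tsum_of_dominated_convergence
      (bound := fun k : ℕ => (2 * (k : ℝ) + 1) * q ^ ((k + 1).choose 2) * (1 / (P * P)))
      ((summable_jacobi h0.le h1).mul_right _) (fun k => ?_) ?_
    · have hev : (fun N => (-1 : ℝ) ^ k * (2 * k + 1) * q ^ ((k + 1).choose 2) *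
          (qp q (2 * N + 1) / (qp q (N - k) * qp q (N + 1 + k)))) =ᶠ[atTop] fun N => f N k := by
        filter_upwards [eventually_ge_atTop k] with N hN
        rw [hf]
        simp only [if_pos hN, hgb N k hN]
      refine Tendsto.congr' hev (Tendsto.const_mul _ ?_)
      have t := tendsto_qp h0.le h1
      have t1 : Tendsto (fun N : ℕ => qp q (2 * N + 1)) atTop (𝓝 P) :=
        t.comp (tendsto_atTop_mono (fun N => by simp only [id]; omega) tendsto_id)
      have t2 : Tendsto (fun N : ℕ => qp q (N - k)) atTop (𝓝 P) :=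
        t.comp (tendsto_sub_atTop_nat k)
      have t3 : Tendsto (fun N : ℕ => qp q (N + 1 + k)) atTop (𝓝 P) :=
        t.comp (tendsto_atTop_mono (fun N => by simp only [id]; omega) tendsto_id)
      have := t1.div (t2.mul t3) (by positivity)
      have e : P / (P * P) = 1 / P := by field_simp
      rwa [e] at this
    · refine Eventually.of_forall fun N k => ?_
      rw [hf]
      by_cases hk : k ≤ N
      · simp only [if_pos hk, hgb N k hk]
        have p1 := qp_pos h0.le h1 (2 * N + 1)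
        have p2 := qp_pos h0.le h1 (N - k)
        have p3 := qp_pos h0.le h1 (N + 1 + k)
        rw [norm_mul, norm_mul, norm_mul, norm_pow, norm_neg, norm_one, one_pow, one_mul, norm_pow,
          Real.norm_of_nonneg h0.le, Real.norm_of_nonneg (by positivity : (0 : ℝ) ≤ 2 * k + 1),
          Real.norm_of_nonneg (by positivity)]
        refine mul_le_mul_of_nonneg_left ?_ (by positivity)
        exact div_le_div₀ zero_le_one (qp_le_one h0.le h1 _) (by positivity)
          (mul_le_mul (pinf_le_qp h0.le h1 _) (pinf_le_qp h0.le h1 _) hPpos.le p2.le)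
      · simp only [if_neg hk, norm_zero]
        positivity
  have hfin : ∀ N, ∑' k, f N k = qp q N ^ 2 := by
    intro N
    rw [jacobi_finite h0 h1 N, tsum_eq_sum (s := range (N + 1))]
    · refine sum_congr rfl fun k hk => ?_
      rw [hf]
      simp only [if_pos (Nat.lt_succ_iff.1 (mem_range.1 hk))]
    · intro k hk
      rw [hf]
      have : ¬ k ≤ N := fun h => hk (mem_range.2 (Nat.lt_succ_iff.2 h))
      simp only [if_neg this]
  have hlim2 : Tendsto (fun N => ∑' k, f N k) atTop (𝓝 (P ^ 2)) := by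
    simp only [hfin]
    exact (tendsto_qp h0.le h1).pow 2
  have huniq := tendsto_nhds_unique hlim2 hlim
  rw [tsum_mul_right] at huniq
  have : ∑' k : ℕ, (-1 : ℝ) ^ k * (2 * k + 1) * q ^ ((k + 1).choose 2) = P ^ 3 := by
    have hne := hPpos.ne'
    field_simp at huniq
    linarith
  rw [← this]
  exact hsum.hasSum

end Pool.RV
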