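import Mathlib
import Pool.Agent.Work.MP_5955e5_nt.EtaCube

/-! Gauss' products for `θ₄` and `ψ`. -/

set_option autoImplicit false

open Finset Polynomial Filter Topology

namespace Pool.RV

/-- `∏_{i<n} (1 + q^(i+1))`. -/
noncomputable def qpp (q : ℝ) (n : ℕ) : ℝ := ∏ i ∈ range n, (1 + q ^ (i + 1))

/-- `∏_{i<n} (1 - q^(2i+1))`. -/
noncomputable def qpo (q : ℝ) (n : ℕ) : ℝ := ∏ i ∈ range n, (1 - q ^ (2 * i + 1))

lemma qp_sq (q : ℝ) (n : ℕ) : qp (q ^ 2) n = qp q n * qpp q n := by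
  unfold qp qpp
  rw [← prod_mul_distrib]
  refine prod_congr rfl fun i _ => ?_
  ring

lemma qp_two_mul (q : ℝ) (n : ℕ) : qp q (2 * n) = qpo q n * qp (q ^ 2) n := by
  induction n with
  | zero => simp [qp, qpo]
  | succ n ih =>
    rw [show 2 * (n + 1) = 2 * n + 1 + 1 by ring, qp_succ, qp_succ, ih, qp_succ, qpo, qpo,
      prod_range_succ]
    ring

lemma sq_lt_one' {q : ℝ} (h0 : 0 ≤ q) (h1 : q < 1) : q ^ 2 < 1 := pow_lt_one₀ h0 h1 (by norm_num)

lemma tendsto_qpp {q : ℝ} (h0 : 0 ≤ q) (h1 : q < 1) :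
    Tendsto (qpp q) atTop (𝓝 (pinf (q ^ 2) / pinf q)) := by
  have h := (tendsto_qp (sq_nonneg q) (sq_lt_one' h0 h1)).div (tendsto_qp h0 h1)
    (pinf_pos h0 h1).ne'
  refine h.congr fun n => ?_
  have := (qp_pos h0 h1 n).ne'
  simp only [Pi.div_apply]
  rw [qp_sq]; field_simp

lemma tendsto_qpo {q : ℝ} (h0 : 0 ≤ q) (h1 : q < 1) :
    Tendsto (qpo q) atTop (𝓝 (pinf q / pinf (q ^ 2))) := by
  have t1 : Tendsto (fun N : ℕ => qp q (2 * N)) atTop (𝓝 (pinf q)) :=
    (tendsto_qp h0 h1).comp (tendsto_atTop_mono (fun N => by simp only [id]; omega) tendsto_id)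
  have h := t1.div (tendsto_qp (sq_nonneg q) (sq_lt_one' h0 h1))
    (pinf_pos (sq_nonneg q) (sq_lt_one' h0 h1)).ne'
  refine h.congr fun n => ?_
  have := (qp_pos (sq_nonneg q) (sq_lt_one' h0 h1) n).ne'
  simp only [Pi.div_apply]
  rw [qp_two_mul]; field_simp

/-- Tannery's theorem for sums against central Gaussian binomials. -/
lemma tannery {p : ℝ} (h0 : 0 ≤ p) (h1 : p < 1) (c : ℕ → ℝ) (hc : Summable fun k => ‖c k‖)
    (M : ℕ → ℕ) (hM : ∀ N, 2 * N ≤ M N) :
    Tendsto (fun N => ∑ k ∈ range (N + 1), c k * gb p (M N) (N - k)) atTop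
      (𝓝 ((∑' k, c k) / pinf p)) := by
  set P := pinf p with hP
  have hPpos : 0 < P := pinf_pos h0 h1
  have hgb : ∀ N k, k ≤ N → gb p (M N) (N - k) =
      qp p (M N) / (qp p (N - k) * qp p (M N - (N - k))) := by
    intro N k hk
    have := hM N
    rw [gb, if_pos (by omega)]
  have hfin : ∀ N, ∑ k ∈ range (N + 1), c k * gb p (M N) (N - k) =
      ∑' k, (if k ≤ N then c k * gb p (M N) (N - k) else 0) := by
    intro N
    rw [tsum_eq_sum (s := range (N + 1))]
    · exact sum_congr rfl fun k hk => (if_pos (Nat.lt_succ_iff.1 (mem_range.1 hk))).symm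
    · intro k hk
      exact if_neg fun h => hk (mem_range.2 (Nat.lt_succ_iff.2 h))
  simp only [hfin]
  rw [div_eq_mul_one_div, ← tsum_mul_right]
  refine tendsto_tsum_of_dominated_convergence (bound := fun k : ℕ => ‖c k‖ * (1 / (P * P)))
      (hc.mul_right _) (fun k => ?_) ?_
  · have hev : (fun N => c k * (qp p (M N) / (qp p (N - k) * qp p (M N - (N - k))))) =ᶠ[atTop]
        fun N => (if k ≤ N then c k * gb p (M N) (N - k) else 0) := by
      filter_upwards [eventually_ge_atTop k] with N hN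
      rw [if_pos hN, hgb N k hN]
    refine Tendsto.congr' hev (Tendsto.const_mul _ ?_)
    have t := tendsto_qp h0 h1
    have t1 : Tendsto (fun N : ℕ => qp p (M N)) atTop (𝓝 P) :=
      t.comp (tendsto_atTop_mono (fun N => by have := hM N; simp only [id]; omega) tendsto_id)
    have t2 : Tendsto (fun N : ℕ => qp p (N - k)) atTop (𝓝 P) :=
      t.comp (tendsto_sub_atTop_nat k)
    have t3 : Tendsto (fun N : ℕ => qp p (M N - (N - k))) atTop (𝓝 P) :=
      t.comp (tendsto_atTop_mono (fun N => by have := hM N; simp only [id]; omega) tendsto_id)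
    have := t1.div (t2.mul t3) (by positivity)
    have e : P / (P * P) = 1 / P := by field_simp
    rwa [e] at this
  · refine Eventually.of_forall fun N k => ?_
    by_cases hk : k ≤ N
    · rw [if_pos hk, hgb N k hk]
      have p1 := qp_pos h0 h1 (M N)
      have p2 := qp_pos h0 h1 (N - k)
      have p3 := qp_pos h0 h1 (M N - (N - k))
      rw [norm_mul, Real.norm_of_nonneg (r := qp p (M N) / _) (by positivity)]
      refine mul_le_mul_of_nonneg_left ?_ (norm_nonneg _)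
      exact div_le_div₀ zero_le_one (qp_le_one h0 h1 _) (by positivity)
        (mul_le_mul (pinf_le_qp h0 h1 _) (pinf_le_qp h0 h1 _) hPpos.le p2.le)
    · rw [if_neg hk, norm_zero]
      positivity

/-- The `q`-binomial theorem evaluated at `1`. -/
lemma qbinom_one {q : ℝ} (h0 : 0 ≤ q) (h1 : q < 1) (a : ℝ) (M : ℕ) :
    ∏ i ∈ range M, (1 - a * q ^ i) = ∑ j ∈ range (M + 1), gc q M j * a ^ j := by
  have := congrArg (fun p : ℝ[X] => p.eval 1) (qbinom h0 h1 a M)
  simpa [eval_prod, eval_finsetSum] using this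

lemma psi_finite {q : ℝ} (h0 : 0 < q) (h1 : q < 1) (N : ℕ) :
    qpp q N ^ 2 = ∑ k ∈ range (N + 1), q ^ ((k + 1).choose 2) * gb q (2 * N + 1) (N - k) := by
  have hq : q ≠ 0 := h0.ne'
  set a : ℝ := (q ^ N)⁻¹ with ha
  have haq : a * q ^ N = 1 := by
    rw [ha]; exact inv_mul_cancel₀ (pow_ne_zero _ hq)
  have hmain := qbinom_one h0.le h1 (-a) (N + 1 + N)
  have hT : q ^ ((N + 1).choose 2) ≠ 0 := pow_ne_zero _ hq
  have hA : ∏ i ∈ range N, (1 - -a * q ^ i) = (q ^ ((N + 1).choose 2))⁻¹ * qpp q N := by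
    rw [← prod_range_reflect]
    have : ∀ i ∈ range N, (1 - -a * q ^ (N - 1 - i)) = (q ^ (i + 1))⁻¹ * (1 + q ^ (i + 1)) := by
      intro i hi
      have hi' := mem_range.1 hi
      have e : q ^ N = q ^ (N - 1 - i) * q ^ (i + 1) := by
        rw [← pow_add]; congr 1; omega
      have h1 : q ^ (N - 1 - i) ≠ 0 := pow_ne_zero _ hq
      have h2 : q ^ (i + 1) ≠ 0 := pow_ne_zero _ hq
      rw [ha, e]
      field_simp
      ring
    rw [prod_congr rfl this, prod_mul_distrib]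
    congr 1
    clear hmain hT haq this ha
    clear_value a
    induction N with
    | zero => simp
    | succ N ih =>
      have e : (N + 1 + 1).choose 2 = (N + 1) + (N + 1).choose 2 := by
        rw [Nat.choose_succ_succ' (N + 1) 1, Nat.choose_one_right]
      rw [prod_range_succ, ih, e, pow_add q, mul_inv]
      ring
  have hL : ∏ i ∈ range (N + 1 + N), (1 - -a * q ^ i) =
      2 * (q ^ ((N + 1).choose 2))⁻¹ * qpp q N ^ 2 := by
    rw [prod_range_add, prod_range_succ, hA]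
    have : ∀ i ∈ range N, (1 - -a * q ^ (N + 1 + i)) = 1 + q ^ (i + 1) := by
      intro i _
      have e : q ^ (N + 1 + i) = q ^ N * q ^ (i + 1) := by rw [← pow_add]; congr 1; omega
      rw [e, neg_mul, ← mul_assoc, haq, one_mul]; ring
    rw [prod_congr rfl this, neg_mul, haq]
    have hB : ∏ i ∈ range N, (1 + q ^ (i + 1)) = qpp q N := rfl
    rw [hB]; ring
  rw [hL] at hmain
  have hRHS : ∑ j ∈ range (N + 1 + N + 1), gc q (N + 1 + N) j * (-a) ^ j =
      2 * (q ^ ((N + 1).choose 2))⁻¹ *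
        ∑ k ∈ range (N + 1), q ^ ((k + 1).choose 2) * gb q (2 * N + 1) (N - k) := by
    have e : N + 1 + N + 1 = (N + 1) + (N + 1) := by ring
    rw [e, sum_range_add, ← sum_range_reflect, ← sum_add_distrib, mul_sum]
    refine sum_congr rfl fun k hk => ?_
    obtain ⟨d, rfl⟩ := Nat.exists_eq_add_of_le (Nat.lt_succ_iff.1 (mem_range.1 hk))
    have e1 : k + d + 1 - 1 - k = d := by omega
    have e2 : k + d - k = d := by omega
    have e3 : k + d + 1 + k = 2 * k + d + 1 := by ring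
    have e4 : k + d + 1 + (k + d) = 2 * (k + d) + 1 := by ring
    rw [e1, e2, e3, e4, gc, gc, gb, gb, if_pos (by omega), if_pos (by omega)]
    have e5 : 2 * (k + d) + 1 - d = 2 * k + d + 1 := by omega
    have e6 : 2 * (k + d) + 1 - (2 * k + d + 1) = d := by omega
    rw [e5, e6]
    have x1 : q ^ (d.choose 2) * a ^ d = q ^ ((k + 1).choose 2) * (q ^ ((k + d + 1).choose 2))⁻¹ := by
      have h := exp_one k d
      have this : q ^ (d.choose 2) * q ^ ((k + d + 1).choose 2) =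
          (q ^ (k + d)) ^ d * q ^ ((k + 1).choose 2) := by
        rw [← pow_add, ← pow_mul, ← pow_add, h]
      have h3 : (q ^ (k + d)) ^ d ≠ 0 := pow_ne_zero _ (pow_ne_zero _ hq)
      have h4 : q ^ ((k + d + 1).choose 2) ≠ 0 := pow_ne_zero _ hq
      rw [ha, inv_pow, ← div_eq_mul_inv, ← div_eq_mul_inv, div_eq_div_iff h3 h4, this]
      ring
    have x2 : q ^ ((2 * k + d + 1).choose 2) * a ^ (2 * k + d + 1) =
        q ^ ((k + 1).choose 2) * (q ^ ((k + d + 1).choose 2))⁻¹ := by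
      have h := exp_two k d
      have this : q ^ ((2 * k + d + 1).choose 2) * q ^ ((k + d + 1).choose 2) =
          (q ^ (k + d)) ^ (2 * k + d + 1) * q ^ ((k + 1).choose 2) := by
        rw [← pow_add, ← pow_mul, ← pow_add, h]
      have h3 : (q ^ (k + d)) ^ (2 * k + d + 1) ≠ 0 := pow_ne_zero _ (pow_ne_zero _ hq)
      have h4 : q ^ ((k + d + 1).choose 2) ≠ 0 := pow_ne_zero _ hq
      rw [ha, inv_pow, ← div_eq_mul_inv, ← div_eq_mul_inv, div_eq_div_iff h3 h4, this]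
      ring
    have s1 : ∀ n : ℕ, (-1 : ℝ) ^ n * (-1) ^ n = 1 := by
      intro n; rw [← mul_pow]; simp
    set G := qp q (2 * (k + d) + 1) with hG
    have t1 : (-1 : ℝ) ^ d * q ^ (d.choose 2) * (G / (qp q d * qp q (2 * k + d + 1))) * (-a) ^ d
        = (G / (qp q d * qp q (2 * k + d + 1))) *
          (q ^ ((k + 1).choose 2) * (q ^ ((k + d + 1).choose 2))⁻¹) := by
      rw [← x1, neg_pow a]
      linear_combination (q ^ (d.choose 2) * (G / (qp q d * qp q (2 * k + d + 1))) * a ^ d) * s1 d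
    have t2 : (-1 : ℝ) ^ (2 * k + d + 1) * q ^ ((2 * k + d + 1).choose 2) *
        (G / (qp q (2 * k + d + 1) * qp q d)) * (-a) ^ (2 * k + d + 1)
        = (G / (qp q d * qp q (2 * k + d + 1))) *
          (q ^ ((k + 1).choose 2) * (q ^ ((k + d + 1).choose 2))⁻¹) := by
      rw [← x2, neg_pow a, mul_comm (qp q (2 * k + d + 1)) (qp q d)]
      linear_combination (q ^ ((2 * k + d + 1).choose 2) *
        (G / (qp q d * qp q (2 * k + d + 1))) * a ^ (2 * k + d + 1)) * s1 (2 * k + d + 1)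
    rw [t1, t2]
    ring
  rw [hRHS] at hmain
  exact mul_left_cancel₀ (mul_ne_zero two_ne_zero (inv_ne_zero hT)) hmain

/-- **Gauss**: `∑_{k ≥ 0} q^(k(k+1)/2) = ∏ (1-q^(2n))^2 / ∏ (1-q^n)`. -/
theorem gauss_psi {q : ℝ} (h0 : 0 < q) (h1 : q < 1) :
    HasSum (fun k : ℕ => q ^ ((k + 1).choose 2)) (pinf (q ^ 2) ^ 2 / pinf q) := by
  have hs : Summable fun k : ℕ => q ^ ((k + 1).choose 2) := by
    refine Summable.of_nonneg_of_le (fun k => by positivity) (fun k => ?_)
      (summable_geometric_of_lt_one h0.le h1)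
    exact pow_le_pow_of_le_one h0.le h1.le (le_choose k)
  have t1 := tannery h0.le h1 (fun k => q ^ ((k + 1).choose 2)) hs.norm (fun N => 2 * N + 1)
    (fun N => by omega)
  have t2 := (tendsto_qpp h0.le h1).pow 2
  have := tendsto_nhds_unique (t2.congr fun N => psi_finite h0 h1 N) t1
  have hP := (pinf_pos h0.le h1).ne'
  have h : ∑' k : ℕ, q ^ ((k + 1).choose 2) = pinf (q ^ 2) ^ 2 / pinf q := by
    rw [div_pow, eq_comm, div_eq_iff hP] at this
    rw [this]; field_simp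
  rw [← h]
  exact hs.hasSum

lemma theta4_finite {q : ℝ} (h0 : 0 < q) (h1 : q < 1) (N : ℕ) :
    qpo q N ^ 2 = ∑ k ∈ range (N + 1), (if k = 0 then 1 else 2 * ((-1) ^ k * q ^ (k ^ 2))) *
      gb (q ^ 2) (2 * N) (N - k) := by
  have hq : q ≠ 0 := h0.ne'
  have hp0 : 0 ≤ q ^ 2 := sq_nonneg q
  have hp1 : q ^ 2 < 1 := sq_lt_one' h0.le h1
  set a : ℝ := q * (q ^ (2 * N))⁻¹ with ha
  have hT : q ^ (N ^ 2) ≠ 0 := pow_ne_zero _ hq
  have hmain := qbinom_one hp0 hp1 a (N + N)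
  have hA : ∏ i ∈ range N, (1 - a * (q ^ 2) ^ i) = (-1) ^ N * (q ^ (N ^ 2))⁻¹ * qpo q N := by
    rw [← prod_range_reflect]
    have : ∀ i ∈ range N, (1 - a * (q ^ 2) ^ (N - 1 - i)) =
        -(q ^ (2 * i + 1))⁻¹ * (1 - q ^ (2 * i + 1)) := by
      intro i hi
      have hi' := mem_range.1 hi
      have e : q * q ^ (2 * i + 1) * (q ^ 2) ^ (N - 1 - i) = q ^ (2 * N) := by
        rw [← pow_mul, ← pow_succ', ← pow_add]; congr 1; omega
      have h2 : q ^ (2 * i + 1) ≠ 0 := pow_ne_zero _ hq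
      have h3 : q ^ (2 * N) ≠ 0 := pow_ne_zero _ hq
      have e2 : a * (q ^ 2) ^ (N - 1 - i) = (q ^ (2 * i + 1))⁻¹ := by
        rw [ha, eq_comm, inv_eq_iff_eq_inv, eq_comm, ← one_div]
        rw [div_eq_iff (by positivity)]
        field_simp
        rw [← e]; ring
      rw [e2]
      field_simp
      ring
    rw [prod_congr rfl this, prod_mul_distrib]
    congr 1
    clear hmain hT this ha
    clear_value a
    induction N with
    | zero => simp
    | succ N ih =>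
      have e : (N + 1) ^ 2 = N ^ 2 + (2 * N + 1) := by ring
      rw [prod_range_succ, ih, e, pow_add q, mul_inv, pow_succ (-1 : ℝ) N]
      ring
  have hL : ∏ i ∈ range (N + N), (1 - a * (q ^ 2) ^ i) =
      (-1) ^ N * (q ^ (N ^ 2))⁻¹ * qpo q N ^ 2 := by
    rw [prod_range_add, hA]
    have : ∀ i ∈ range N, (1 - a * (q ^ 2) ^ (N + i)) = 1 - q ^ (2 * i + 1) := by
      intro i _
      have h3 : q ^ (2 * N) ≠ 0 := pow_ne_zero _ hq
      have e : (q ^ 2) ^ (N + i) = q ^ (2 * N) * q ^ (2 * i) := by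
        rw [← pow_mul, ← pow_add]; congr 1; ring
      rw [e, ha]
      field_simp
      ring
    rw [prod_congr rfl this]
    have hB : ∏ i ∈ range N, (1 - q ^ (2 * i + 1)) = qpo q N := rfl
    rw [hB]; ring
  rw [hL] at hmain
  set t : ℕ → ℝ := fun k => (-1) ^ N * (q ^ (N ^ 2))⁻¹ * ((-1) ^ k * q ^ (k ^ 2) *
    gb (q ^ 2) (2 * N) (N - k)) with ht
  have hlow : ∀ k, k ≤ N → gc (q ^ 2) (N + N) (N - k) * a ^ (N - k) = t k := by
    intro k hk
    obtain ⟨d, rfl⟩ := Nat.exists_eq_add_of_le hk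
    have e2 : k + d - k = d := by omega
    have x1 : (q ^ 2) ^ (d.choose 2) * a ^ d = q ^ (k ^ 2) * (q ^ ((k + d) ^ 2))⁻¹ := by
      have h := choose_two_int d
      have hn : 2 * d.choose 2 + d + (k + d) ^ 2 = 2 * (k + d) * d + k ^ 2 := by
        zify
        have : (2 : ℤ) * (d.choose 2 : ℕ) = d * (d - 1) := h
        linear_combination this
      have this : (q ^ 2) ^ (d.choose 2) * q ^ d * q ^ ((k + d) ^ 2) =
          (q ^ (2 * (k + d))) ^ d * q ^ (k ^ 2) := by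
        rw [← pow_mul, ← pow_add, ← pow_add, ← pow_mul, ← pow_add, hn]
      have h3 : (q ^ (2 * (k + d))) ^ d ≠ 0 := pow_ne_zero _ (pow_ne_zero _ hq)
      have h4 : q ^ ((k + d) ^ 2) ≠ 0 := pow_ne_zero _ hq
      rw [ha, mul_pow, inv_pow, ← mul_assoc, ← div_eq_mul_inv, ← div_eq_mul_inv,
        div_eq_div_iff h3 h4, this]
      ring
    have s1 : (-1 : ℝ) ^ (k + d) * (-1) ^ k = (-1) ^ d := by
      rw [pow_add, mul_assoc, mul_comm ((-1 : ℝ) ^ d), ← mul_assoc, ← mul_pow]; simp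
    simp only [ht]
    rw [gc, e2, show k + d + (k + d) = 2 * (k + d) by ring]
    calc (-1 : ℝ) ^ d * (q ^ 2) ^ d.choose 2 * gb (q ^ 2) (2 * (k + d)) d * a ^ d
        = (-1) ^ d * gb (q ^ 2) (2 * (k + d)) d * ((q ^ 2) ^ d.choose 2 * a ^ d) := by ring
      _ = _ := by rw [x1, ← s1]; ring
  have hhigh : ∀ k, k ≤ N → gc (q ^ 2) (N + N) (N + k) * a ^ (N + k) = t k := by
    intro k hk
    obtain ⟨d, rfl⟩ := Nat.exists_eq_add_of_le hk
    have e2 : k + d - k = d := by omega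
    have e5 : 2 * (k + d) - d = 2 * k + d := by omega
    have e6 : 2 * (k + d) - (2 * k + d) = d := by omega
    have x1 : (q ^ 2) ^ ((2 * k + d).choose 2) * a ^ (2 * k + d) =
        q ^ (k ^ 2) * (q ^ ((k + d) ^ 2))⁻¹ := by
      have h := choose_two_int (2 * k + d)
      have hn : 2 * (2 * k + d).choose 2 + (2 * k + d) + (k + d) ^ 2 =
          2 * (k + d) * (2 * k + d) + k ^ 2 := by
        zify
        push_cast at h
        linear_combination h
      have this : (q ^ 2) ^ ((2 * k + d).choose 2) * q ^ (2 * k + d) * q ^ ((k + d) ^ 2) =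
          (q ^ (2 * (k + d))) ^ (2 * k + d) * q ^ (k ^ 2) := by
        rw [← pow_mul, ← pow_add, ← pow_add, ← pow_mul, ← pow_add, hn]
      have h3 : (q ^ (2 * (k + d))) ^ (2 * k + d) ≠ 0 := pow_ne_zero _ (pow_ne_zero _ hq)
      have h4 : q ^ ((k + d) ^ 2) ≠ 0 := pow_ne_zero _ hq
      rw [ha, mul_pow, inv_pow, ← mul_assoc, ← div_eq_mul_inv, ← div_eq_mul_inv,
        div_eq_div_iff h3 h4, this]
      ring
    have s1 : (-1 : ℝ) ^ (k + d) * (-1) ^ k = (-1) ^ (2 * k + d) := by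
      rw [← pow_add]; congr 1; ring
    have hsym : gb (q ^ 2) (2 * (k + d)) (2 * k + d) = gb (q ^ 2) (2 * (k + d)) d := by
      rw [gb, gb, if_pos (by omega), if_pos (by omega), e5, e6, mul_comm (qp (q ^ 2) d)]
    simp only [ht]
    rw [gc, e2, show k + d + (k + d) = 2 * (k + d) by ring, show k + d + k = 2 * k + d by ring,
      hsym]
    calc (-1 : ℝ) ^ (2 * k + d) * (q ^ 2) ^ (2 * k + d).choose 2 * gb (q ^ 2) (2 * (k + d)) d *
          a ^ (2 * k + d)
        = (-1) ^ (2 * k + d) * gb (q ^ 2) (2 * (k + d)) d *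
          ((q ^ 2) ^ (2 * k + d).choose 2 * a ^ (2 * k + d)) := by ring
      _ = _ := by rw [x1, ← s1]; ring
  have hRHS : ∑ j ∈ range (N + N + 1), gc (q ^ 2) (N + N) j * a ^ j =
      (-1) ^ N * (q ^ (N ^ 2))⁻¹ *
      ∑ k ∈ range (N + 1), (if k = 0 then 1 else 2 * ((-1) ^ k * q ^ (k ^ 2))) *
        gb (q ^ 2) (2 * N) (N - k) := by
    rw [show N + N + 1 = (N + 1) + N by ring, sum_range_add, ← sum_range_reflect]
    have h1' : ∑ k ∈ range (N + 1), gc (q ^ 2) (N + N) (N + 1 - 1 - k) * a ^ (N + 1 - 1 - k) =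
        ∑ k ∈ range (N + 1), t k :=
      sum_congr rfl fun k hk => by
        rw [show N + 1 - 1 - k = N - k by omega]
        exact hlow k (Nat.lt_succ_iff.1 (mem_range.1 hk))
    have h2' : ∑ k ∈ range N, gc (q ^ 2) (N + N) (N + 1 + k) * a ^ (N + 1 + k) =
        ∑ k ∈ range N, t (k + 1) :=
      sum_congr rfl fun k hk => by
        rw [show N + 1 + k = N + (k + 1) by ring]
        exact hhigh (k + 1) (mem_range.1 hk)
    rw [h1', h2', sum_range_succ' t N, sum_range_succ' _ N, mul_add, mul_sum]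
    rw [add_right_comm, ← sum_add_distrib]
    congr 1
    · refine sum_congr rfl fun k _ => ?_
      simp only [ht, Nat.succ_ne_zero, if_false]
      ring
    · simp [ht]
  rw [hRHS] at hmain
  exact mul_left_cancel₀ (mul_ne_zero (pow_ne_zero _ (by norm_num)) (inv_ne_zero hT)) hmain

lemma summable_theta {q : ℝ} (h0 : 0 < q) (h1 : q < 1) :
    Summable fun k : ℕ => (-1 : ℝ) ^ k * q ^ (k ^ 2) := by
  refine Summable.of_norm_bounded (summable_geometric_of_lt_one h0.le h1) fun k => ?_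
  rw [norm_mul, norm_pow, norm_neg, norm_one, one_pow, one_mul, norm_pow,
    Real.norm_of_nonneg h0.le]
  exact pow_le_pow_of_le_one h0.le h1.le (by nlinarith [Nat.zero_le k])

/-- **Gauss**: `1 + 2 ∑_{k ≥ 1} (-1)^k q^(k^2) = ∏ (1-q^n)^2 / ∏ (1-q^(2n))`. -/
theorem gauss_theta4_nat {q : ℝ} (h0 : 0 < q) (h1 : q < 1) :
    HasSum (fun k : ℕ => (if k = 0 then 1 else 2 * ((-1 : ℝ) ^ k * q ^ (k ^ 2))))
      (pinf q ^ 2 / pinf (q ^ 2)) := by
  have hs : Summable fun k : ℕ => (if k = 0 then 1 else 2 * ((-1 : ℝ) ^ k * q ^ (k ^ 2))) := by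
    rw [← summable_nat_add_iff 1]
    simp only [Nat.succ_ne_zero, if_false]
    exact ((summable_nat_add_iff 1).2 (summable_theta h0 h1)).mul_left 2
  have hp0 : 0 ≤ q ^ 2 := sq_nonneg q
  have hp1 : q ^ 2 < 1 := sq_lt_one' h0.le h1
  have t1 := tannery hp0 hp1 _ hs.norm (fun N => 2 * N) (fun N => le_rfl)
  have t2 := (tendsto_qpo h0.le h1).pow 2
  have := tendsto_nhds_unique (t2.congr fun N => theta4_finite h0 h1 N) t1
  have hP := (pinf_pos hp0 hp1).ne'
  have h : ∑' k : ℕ, (if k = 0 then 1 else 2 * ((-1 : ℝ) ^ k * q ^ (k ^ 2))) =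
      pinf q ^ 2 / pinf (q ^ 2) := by
    rw [div_pow, eq_comm, div_eq_iff hP] at this
    rw [this]; field_simp
  rw [← h]
  exact hs.hasSum

/-- The general term of `θ₄`. -/
noncomputable def th4 (q : ℝ) (n : ℤ) : ℝ := (-1 : ℝ) ^ n.natAbs * q ^ (n.natAbs ^ 2)

lemma th4_nat (q : ℝ) (n : ℕ) : th4 q n = (-1 : ℝ) ^ n * q ^ (n ^ 2) := by
  rw [th4, Int.natAbs_natCast]

lemma th4_neg (q : ℝ) (n : ℕ) : th4 q (-((n : ℤ) + 1)) = (-1 : ℝ) ^ (n + 1) * q ^ ((n + 1) ^ 2) := by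
  have e : (-((n : ℤ) + 1)).natAbs = n + 1 := by omega
  rw [th4, e]

/-- **Gauss**: `∑_{n ∈ ℤ} (-1)^n q^(n^2) = ∏ (1-q^n)^2 / ∏ (1-q^(2n))`. -/
theorem gauss_theta4 {q : ℝ} (h0 : 0 < q) (h1 : q < 1) :
    HasSum (th4 q) (pinf q ^ 2 / pinf (q ^ 2)) := by
  have hs := summable_theta h0 h1
  have h2 := (gauss_theta4_nat h0 h1).tsum_eq
  have hs2 := (gauss_theta4_nat h0 h1).summable
  have hA : HasSum (fun n : ℕ => th4 q n) (∑' k : ℕ, (-1 : ℝ) ^ k * q ^ (k ^ 2)) := by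
    simp only [th4_nat]; exact hs.hasSum
  have hB : HasSum (fun n : ℕ => th4 q (-((n : ℤ) + 1)))
      (∑' k : ℕ, (-1 : ℝ) ^ (k + 1) * q ^ ((k + 1) ^ 2)) := by
    simp only [th4_neg]
    exact ((summable_nat_add_iff 1).2 hs).hasSum
  have h := hA.of_nat_of_neg_add_one hB
  have e : ∑' k : ℕ, (-1 : ℝ) ^ k * q ^ (k ^ 2) + ∑' k : ℕ, (-1 : ℝ) ^ (k + 1) * q ^ ((k + 1) ^ 2) =
      pinf q ^ 2 / pinf (q ^ 2) := by
    rw [← h2, hs2.tsum_eq_zero_add, hs.tsum_eq_zero_add, if_pos rfl]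
    have e1 : ∀ k : ℕ, (if k + 1 = 0 then (1 : ℝ) else 2 * ((-1 : ℝ) ^ (k + 1) * q ^ ((k + 1) ^ 2))) =
        2 * ((-1 : ℝ) ^ (k + 1) * q ^ ((k + 1) ^ 2)) := fun k => if_neg (Nat.succ_ne_zero k)
    simp only [e1]
    rw [tsum_mul_left]
    norm_num
    ring
  rwa [e] at h

end Pool.RV
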