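import Pool.Agent.Work.MP_5955e5_nt.CMBlocks
import Pool.Agent.Work.MP_5955e5_nt.QDefs

/-! Block (d): the right-hand side of S17045 as one-loop CM sums. -/

set_option autoImplicit false

open Complex ComplexConjugate

namespace Pool.RV

lemma SabS_eq (a b : ℝ) : SabS a b = Sab a b := by
  unfold SabS Sab cf qf
  refine tsum_congr fun x => ?_
  congr 1
  rw [pow_add]
  ring

/-- BLOCK (d1) -/
theorem block_d1 (η : ℝ → ℝ)
    (hη : ∀ q : ℝ, η q = q ^ ((1 : ℝ) / 24) * ∏' n : ℕ, (1 - q ^ (n + 1))) :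
    (15 / (4 * Real.pi ^ 2)) ^ ((5 : ℝ) / 2) *
          ∫ t in Set.Ioi (0 : ℝ),
            (η (Real.exp (-3 * t)) ^ 3 * η (Real.exp (-5 * t)) ^ 3
              + η (Real.exp (-t)) ^ 3 * η (Real.exp (-15 * t)) ^ 3) * t ^ 3
      = 768 * 15 ^ ((5 : ℝ) / 2) / Real.pi ^ 5 * (SabS 3 5 + SabS 1 15) := by
  rw [SabS_eq, SabS_eq]
  exact rhs_eq hη

/-- the term over `ℤ²` -/
noncomputable def dz (a b : ℝ) (v : ℤ × ℤ) : ℂ :=
  (-1 : ℂ) ^ (v.1 + v.2) * ((2 * v.1 + 1) * (2 * v.2 + 1)) /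
    ((a : ℂ) * (2 * v.1 + 1) ^ 2 + (b : ℂ) * (2 * v.2 + 1) ^ 2) ^ 4

lemma fold_four {F : ℤ × ℤ → ℂ} (hF : Summable F)
    (h1 : ∀ (k l : ℤ), F (-(k + 1), l) = F (k, l)) (h2 : ∀ (k l : ℤ), F (k, -(l + 1)) = F (k, l)) :
    ∑' v, F v = 4 * ∑' p : ℕ × ℕ, F ((p.1 : ℤ), (p.2 : ℤ)) := by
  have hN : Summable fun p : ℕ × ℕ => F ((p.1 : ℤ), (p.2 : ℤ)) :=
    hF.comp_injective (i := fun p : ℕ × ℕ => ((p.1 : ℤ), (p.2 : ℤ))) (by
      intro p q h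
      simp only [Prod.mk.injEq, Nat.cast_inj] at h
      exact Prod.ext h.1 h.2)
  have hin : ∀ k : ℤ, Summable fun l : ℕ => F (k, (l : ℤ)) := fun k =>
    (hF.prod_factor k).comp_injective (i := fun l : ℕ => (l : ℤ)) Nat.cast_injective
  have hrow : ∀ k : ℤ, ∑' l : ℤ, F (k, l) = 2 * ∑' l : ℕ, F (k, (l : ℤ)) := by
    intro k
    have hneg : Summable fun l : ℕ => F (k, -((l : ℤ) + 1)) := (hin k).congr fun l => (h2 k l).symm
    rw [tsum_of_nat_of_neg_add_one (f := fun l : ℤ => F (k, l)) (hin k) hneg,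
      tsum_congr fun l : ℕ => h2 k l]
    ring
  have hout : Summable fun k : ℕ => ∑' l : ℤ, F ((k : ℤ), l) :=
    (hF.prod).comp_injective (i := fun l : ℕ => (l : ℤ)) Nat.cast_injective
  have hneg2 : Summable fun k : ℕ => ∑' l : ℤ, F (-((k : ℤ) + 1), l) :=
    hout.congr fun k => tsum_congr fun l => (h1 k l).symm
  rw [hF.tsum_prod, tsum_of_nat_of_neg_add_one (f := fun k : ℤ => ∑' l : ℤ, F (k, l)) hout hneg2,
    tsum_congr fun k : ℕ => tsum_congr fun l : ℤ => h1 k l, hN.tsum_prod]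
  simp only [hrow, tsum_mul_left]
  ring

lemma dz_sym1 (a b : ℝ) (k l : ℤ) : dz a b (-(k + 1), l) = dz a b (k, l) := by
  unfold dz
  have h : (-1 : ℂ) ^ (-(k + 1) + l) = -(-1 : ℂ) ^ (k + l) := by
    rw [show -(k + 1) + l = (k + l) + (2 * (-k - 1) + 1) by ring, zpow_add₀ (by norm_num),
      zpow_add₀ (by norm_num) (2 * (-k - 1)), zpow_mul]
    norm_num
  simp only [h]
  push_cast
  congr 1 <;> ring

lemma dz_sym2 (a b : ℝ) (k l : ℤ) : dz a b (k, -(l + 1)) = dz a b (k, l) := by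
  unfold dz
  have h : (-1 : ℂ) ^ (k + -(l + 1)) = -(-1 : ℂ) ^ (k + l) := by
    rw [show k + -(l + 1) = (k + l) + (2 * (-l - 1) + 1) by ring, zpow_add₀ (by norm_num),
      zpow_add₀ (by norm_num) (2 * (-l - 1)), zpow_mul]
    norm_num
  simp only [h]
  push_cast
  congr 1 <;> ring

lemma dz_nat (a b : ℝ) (p : ℕ × ℕ) : dz a b ((p.1 : ℤ), (p.2 : ℤ)) =
    (((-1 : ℝ) ^ (p.1 + p.2) * (2 * p.1 + 1) * (2 * p.2 + 1) /
    (a * (2 * p.1 + 1) ^ 2 + b * (2 * p.2 + 1) ^ 2) ^ 4 : ℝ) : ℂ) := by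
  unfold dz
  simp only
  rw [← Nat.cast_add, zpow_natCast]
  push_cast
  congr 1
  ring

lemma dz_tsum {a b : ℝ} (h : Summable (dz a b)) :
    ∑' v, dz a b v = 4 * (SabS a b : ℂ) := by
  rw [fold_four h (dz_sym1 a b) (dz_sym2 a b)]
  unfold SabS
  rw [Complex.ofReal_tsum]
  congr 1
  exact tsum_congr fun p => dz_nat a b p

/-- `(k, l) ↦ (k, -1 - l)` -/
def eqRefl : ℤ × ℤ ≃ ℤ × ℤ where
  toFun v := (v.1, -(v.2 + 1))
  invFun v := (v.1, -(v.2 + 1))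
  left_inv v := by simp
  right_inv v := by simp

/-- `(k, l) ↦ (l, k - l)` -/
def eqT1 : ℤ × ℤ ≃ ℤ × ℤ where
  toFun v := (v.2, v.1 - v.2)
  invFun v := (v.1 + v.2, v.1)
  left_inv v := by simp
  right_inv v := by simp

/-- `(k, l) ↦ (l, k + l + 1)` -/
def eqT2 : ℤ × ℤ ≃ ℤ × ℤ where
  toFun v := (v.2, v.1 + v.2 + 1)
  invFun v := (v.2 - v.1 - 1, v.1)
  left_inv v := by
    ext
    · show v.1 + v.2 + 1 - v.2 - 1 = v.1
      ring
    · rfl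
  right_inv v := by
    ext
    · rfl
    · show v.2 - v.1 - 1 + v.1 + 1 = v.2
      ring

lemma summable_half {t : ℂ} (ht : 0 < t.im) :
    Summable fun v : ℤ × ℤ => (-1 : ℂ) ^ v.2 * ff (((v.1 * 2 + 1 : ℤ) : ℂ) * t + v.2) := by
  refine Summable.of_norm_bounded (summable_split 2 (summable_ff ht) 1).norm fun v => ?_
  rw [norm_mul, zpow_neg_one_norm, one_mul]
  rfl

lemma alt_half {t : ℂ} (ht : 0 < t.im) :
    ∑' v : ℤ × ℤ, (-1 : ℂ) ^ v.2 * ff (((v.1 * 2 + 1 : ℤ) : ℂ) * t + v.2) =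
      cls t 1 0 - cls t 1 1 := by
  rw [tsum_split2 2 (summable_half ht), Fin.sum_univ_two]
  have h : ∀ n : ℤ, (-1 : ℂ) ^ (n * (2 : ℕ) + ((0 : ℕ) : ℤ)) = 1 := fun n => by
    have := zpow_par n 0
    simpa using this
  have h' : ∀ n : ℤ, (-1 : ℂ) ^ (n * (2 : ℕ) + ((1 : ℕ) : ℤ)) = -1 := fun n => by
    have := zpow_par n 1
    simpa using this
  have e1 : ((1 : Fin 2) : ℕ) = 1 := rfl
  have e0 : ((0 : Fin 2) : ℕ) = 0 := rfl
  rw [e0, e1]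
  simp only [h, h', one_mul, neg_mul, tsum_neg]
  unfold cls
  rw [sub_eq_add_neg]
  rfl

lemma ff_diff {g : ℂ} (hg : g ≠ 0) :
    ff g - ff (conj g) = ((conj g) ^ 2 - g ^ 2) / (g * conj g) ^ 4 := by
  have hc : conj g ≠ 0 := (map_ne_zero _).2 hg
  unfold ff
  rw [Complex.conj_conj]
  field_simp

/-- the summand of `T1`, `T2` -/
noncomputable def tf (c : ℂ) (v : ℤ × ℤ) : ℂ :=
  (-1 : ℂ) ^ (v.1 + v.2) * ff ((2 * v.1 + 1) / 2 + (2 * v.2 + 1) * c)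

lemma tf1 (v : ℤ × ℤ) : tf (sq / 2) v =
    (fun v : ℤ × ℤ => (-1 : ℂ) ^ v.2 * ff (((v.1 * 2 + 1 : ℤ) : ℂ) * om + v.2)) (eqT1 v) := by
  unfold tf
  simp only [eqT1, Equiv.coe_fn_mk]
  congr 1
  · rw [show v.1 + v.2 = (v.1 - v.2) + 2 * v.2 by ring, zpow_add₀ (by norm_num), zpow_mul]
    norm_num
  · congr 1
    rw [om_eq]
    push_cast
    ring

lemma tf2 (v : ℤ × ℤ) : tf (sq / 6) v =
    -(fun v : ℤ × ℤ => (-1 : ℂ) ^ v.2 * ff (((v.1 * 2 + 1 : ℤ) : ℂ) * tau w0 + v.2)) (eqT2 v) := by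
  unfold tf
  simp only [eqT2, Equiv.coe_fn_mk]
  have h : (-1 : ℂ) ^ (v.1 + v.2 + 1) = -(-1 : ℂ) ^ (v.1 + v.2) := by
    rw [zpow_add₀ (by norm_num)]
    norm_num
  have e : ((2 * v.1 + 1) / 2 + (2 * v.2 + 1) * (sq / 6) : ℂ) =
      ((v.2 * 2 + 1 : ℤ) : ℂ) * tau w0 + ((v.1 + v.2 + 1 : ℤ) : ℂ) := by
    rw [t0_eq]
    push_cast
    ring
  rw [h, e]
  ring

lemma tf1_sum : Summable (tf (sq / 2)) :=
  ((eqT1.summable_iff).2 (summable_half om_im)).congr fun v => (tf1 v).symm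

lemma tf2_sum : Summable (tf (sq / 6)) :=
  ((eqT2.summable_iff).2 (summable_half t0_im)).neg.congr fun v => (tf2 v).symm

lemma tf1_tsum : ∑' v, tf (sq / 2) v = sq * KL / 432 := by
  rw [tsum_congr tf1, eqT1.tsum_eq (fun v : ℤ × ℤ => (-1 : ℂ) ^ v.2 *
    ff (((v.1 * 2 + 1 : ℤ) : ℂ) * om + v.2)), alt_half om_im, B10, B11]
  ring

lemma tf2_tsum : ∑' v, tf (sq / 6) v = -(27 / 16) * sq * KO := by
  rw [tsum_congr tf2, tsum_neg, eqT2.tsum_eq (fun v : ℤ × ℤ => (-1 : ℂ) ^ v.2 *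
    ff (((v.1 * 2 + 1 : ℤ) : ℂ) * tau w0 + v.2)), alt_half t0_im, A10, A11]
  ring

lemma odd_ne (n : ℤ) : (2 * (n : ℂ) + 1) ≠ 0 := by
  have : (2 * n + 1 : ℤ) ≠ 0 := by omega
  exact_mod_cast this

lemma sq_ne : sq ≠ 0 := by
  intro h
  have := sq_sq
  rw [h] at this
  norm_num at this

/-- The antisymmetrised summand. -/
lemma tf_anti (r : ℝ) (v : ℤ × ℤ) :
    tf (sq * r) v + tf (sq * r) (eqRefl v) =
      -(2 * r * sq) * ((-1 : ℂ) ^ (v.1 + v.2) * ((2 * v.1 + 1) * (2 * v.2 + 1)) /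
      ((2 * v.1 + 1) ^ 2 / 4 + 15 * r ^ 2 * (2 * v.2 + 1) ^ 2) ^ 4) := by
  set g : ℂ := (2 * v.1 + 1) / 2 + (2 * v.2 + 1) * (sq * r) with hg
  have hcg : conj g = (2 * v.1 + 1) / 2 - (2 * v.2 + 1) * (sq * r) := by
    have := conj_lin ((2 * v.1 + 1) / 2) ((2 * v.2 + 1) * r)
    push_cast at this
    rw [hg, show ((2 * v.1 + 1) / 2 + (2 * v.2 + 1) * (sq * r) : ℂ) =
      (2 * v.1 + 1) / 2 + (2 * v.2 + 1) * r * sq by ring, this]
    ring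
  have hg0 : g ≠ 0 := by
    intro h0
    have h1 : conj g = 0 := by rw [h0, map_zero]
    have h2 : g + conj g = 2 * v.1 + 1 := by rw [hcg, hg]; ring
    rw [h1, h0, add_zero] at h2
    exact odd_ne v.1 h2.symm
  have h1 : tf (sq * r) v = (-1 : ℂ) ^ (v.1 + v.2) * ff g := rfl
  have h2 : tf (sq * r) (eqRefl v) = -((-1 : ℂ) ^ (v.1 + v.2) * ff (conj g)) := by
    unfold tf
    have h : (-1 : ℂ) ^ (v.1 + -(v.2 + 1)) = -(-1 : ℂ) ^ (v.1 + v.2) := by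
      rw [show v.1 + -(v.2 + 1) = (v.1 + v.2) + (2 * (-v.2 - 1) + 1) by ring,
        zpow_add₀ (by norm_num), zpow_add₀ (by norm_num) (2 * (-v.2 - 1)), zpow_mul]
      norm_num
    simp only [eqRefl, Equiv.coe_fn_mk]
    rw [h, hcg, neg_mul]
    congr 3
    push_cast
    ring
  rw [h1, h2, ← sub_eq_add_neg, ← mul_sub, ff_diff hg0]
  have hN : g * conj g = (2 * v.1 + 1) ^ 2 / 4 + 15 * r ^ 2 * (2 * v.2 + 1) ^ 2 := by
    rw [hcg, hg]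
    linear_combination (-((2 * v.2 + 1 : ℂ) ^ 2 * r ^ 2)) * sq_sq
  have hD : (conj g) ^ 2 - g ^ 2 = -(2 * r * sq) * ((2 * v.1 + 1) * (2 * v.2 + 1)) := by
    rw [hcg, hg]
    ring
  rw [hN, hD]
  ring

lemma anti1 (v : ℤ × ℤ) : tf (sq / 2) v + tf (sq / 2) (eqRefl v) =
    -(256 * sq) * dz 1 15 v := by
  have h := tf_anti (1 / 2) v
  rw [show (sq * ((1 / 2 : ℝ) : ℂ)) = sq / 2 by push_cast; ring] at h
  rw [h]
  unfold dz
  push_cast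
  rw [show ((2 * v.1 + 1 : ℂ) ^ 2 / 4 + 15 * (1 / 2) ^ 2 * (2 * v.2 + 1) ^ 2) =
    (1 * (2 * v.1 + 1) ^ 2 + 15 * (2 * v.2 + 1) ^ 2) / 4 by ring, div_pow, div_div_eq_mul_div]
  ring

lemma anti2 (v : ℤ × ℤ) : tf (sq / 6) v + tf (sq / 6) (eqRefl v) =
    -(6912 * sq) * dz 3 5 v := by
  have h := tf_anti (1 / 6) v
  rw [show (sq * ((1 / 6 : ℝ) : ℂ)) = sq / 6 by push_cast; ring] at h
  rw [h]
  unfold dz
  push_cast
  rw [show ((2 * v.1 + 1 : ℂ) ^ 2 / 4 + 15 * (1 / 6) ^ 2 * (2 * v.2 + 1) ^ 2) =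
    (3 * (2 * v.1 + 1) ^ 2 + 5 * (2 * v.2 + 1) ^ 2) / 12 by ring, div_pow, div_div_eq_mul_div]
  ring

lemma anti_tsum {c k : ℂ} {a b : ℝ} (hs : Summable (tf c)) (hk : k ≠ 0)
    (h : ∀ v, tf c v + tf c (eqRefl v) = k * dz a b v) :
    2 * ∑' v, tf c v = k * (4 * (SabS a b : ℂ)) := by
  have hs2 : Summable fun v => tf c (eqRefl v) := eqRefl.summable_iff.2 hs
  have hd : Summable (dz a b) := by
    refine ((hs.add hs2).mul_left k⁻¹).congr fun v => ?_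
    rw [h]
    field_simp
  have e : ∑' v, k * dz a b v = ∑' v, (tf c v + tf c (eqRefl v)) := tsum_congr fun v => (h v).symm
  rw [← dz_tsum hd, ← tsum_mul_left (a := k), e, hs.tsum_add hs2, eqRefl.tsum_eq (tf c)]
  ring

lemma S115 : (SabS 1 15 : ℂ) = -KL / 221184 := by
  have h := anti_tsum tf1_sum (by simpa using sq_ne) anti1
  rw [tf1_tsum] at h
  have h2 : sq * ((SabS 1 15 : ℂ) + KL / 221184) = 0 := by linear_combination (1 / 1024) * h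
  rcases mul_eq_zero.1 h2 with h3 | h3
  · exact absurd h3 sq_ne
  · linear_combination h3

lemma S35 : (SabS 3 5 : ℂ) = KO / 8192 := by
  have h := anti_tsum tf2_sum (by simpa using sq_ne) anti2
  rw [tf2_tsum] at h
  have h2 : sq * ((SabS 3 5 : ℂ) - KO / 8192) = 0 := by linear_combination (1 / 27648) * h
  rcases mul_eq_zero.1 h2 with h3 | h3
  · exact absurd h3 sq_ne
  · linear_combination h3

/-- BLOCK (d2) -/
theorem block_d2 : 135 / 8 * KO - 5 / 8 * KL = ((138240 * (SabS 3 5 + SabS 1 15) : ℝ) : ℂ) := by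
  push_cast
  rw [S115, S35]
  ring

end Pool.RV
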