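import Mathlib

/-!
# Cell RV: shared definitions (captain helper23)

`L_w = ℤ τ + ℤ`, `τ = -1/2 + i w`; `gm w (m, n) = m τ + n`.
All sums are over all vectors; a term with a vanishing lattice point in a denominator is `0`
because `x / 0 = 0` in Lean.
-/

set_option autoImplicit false

open Complex

namespace Pool.RV

/-- `τ = -1/2 + i w` -/
noncomputable def tau (w : ℝ) : ℂ := -1 / 2 + (w : ℂ) * I

/-- the lattice point `m τ + n` -/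
noncomputable def gm (w : ℝ) (v : ℤ × ℤ) : ℂ := (v.1 : ℂ) * tau w + (v.2 : ℂ)

/-- the character `χ_(i,j) (m τ + n) = exp (2 π i (i m + j n) / 6)` -/
noncomputable def ch (a v : ℤ × ℤ) : ℂ :=
  exp (2 * (Real.pi : ℂ) * I * ((a.1 * v.1 + a.2 * v.2 : ℤ) : ℂ) / 6)

/-- one-loop sum `K_{p,q}(χ)`; used for `p + q ≥ 3` -/
noncomputable def K (p q : ℕ) (a : ℤ × ℤ) (w : ℝ) : ℂ :=
  ∑' v : ℤ × ℤ, ch a v / (gm w v ^ p * (starRingEnd ℂ) (gm w v) ^ q)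

/-- the term of the two-loop sum: `χ_a(g1) χ_b(g2) / (|g1|² |g2|² g3²)`, `g3 = -(g1 + g2)` -/
noncomputable def Tterm (a b : ℤ × ℤ) (w : ℝ) (x : (ℤ × ℤ) × (ℤ × ℤ)) : ℂ :=
  ch a x.1 * ch b x.2 /
    ((normSq (gm w x.1) : ℂ) * (normSq (gm w x.2) : ℂ) * gm w (x.1 + x.2) ^ 2)

/-- two-loop sum `T(a,b)` -/
noncomputable def T (a b : ℤ × ℤ) (w : ℝ) : ℂ := ∑' x : (ℤ × ℤ) × (ℤ × ℤ), Tterm a b w x

/-- the combination `T₊` -/
noncomputable def Tplus (w : ℝ) : ℂ :=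
  4 * T (0, 0) (1, 0) w + 2 * T (0, 0) (3, 0) w + T (1, 0) (1, 0) w + 6 * T (1, 0) (4, 0) w
    - 4 * T (1, 3) (2, 3) w + 4 * T (1, 3) (4, 3) w + 6 * T (2, 0) (3, 0) w

/-- regularised one-loop sum for `p + q = 2` and `χ_a(τ) ≠ 1` (`a.1` not divisible by 6):
`(1 - χ_a(τ)) K = ∑ χ_a(γ) (F(γ) - F(γ - τ))`, `F(γ) = γ^{-p} conj(γ)^{-q}`, absolutely convergent -/
noncomputable def Kreg (p q : ℕ) (a : ℤ × ℤ) (w : ℝ) : ℂ :=
  (1 - ch a (1, 0))⁻¹ * ∑' v : ℤ × ℤ, ch a v *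
    (1 / (gm w v ^ p * (starRingEnd ℂ) (gm w v) ^ q)
      - 1 / (gm w (v - (1, 0)) ^ p * (starRingEnd ℂ) (gm w (v - (1, 0))) ^ q))

/-- the `x`-combination `2 K(χ₁) + 2 K(χ₃)` for `p + q = 2` -/
noncomputable def Kx (p q : ℕ) (w : ℝ) : ℂ := 2 * Kreg p q (1, 0) w + 2 * Kreg p q (3, 0) w

/-- the `e`-combination -/
noncomputable def Ke (p q : ℕ) (w : ℝ) : ℂ :=
  -K p q (0, 0) w + 3 * K p q (1, 0) w - 3 * K p q (2, 0) w + K p q (3, 0) w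

/-- `log x(w)` as a lattice sum -/
noncomputable def lx (w : ℝ) : ℝ := -(3 * w / (4 * Real.pi)) * (Kx 1 1 w).re

/-- `e(w)` as a lattice sum -/
noncomputable def ee (w : ℝ) : ℝ := 3 / (16 * Real.pi ^ 4) * (Ke 4 0 w).re

/-- `w₀ = √15 / 6`, the CM point -/
noncomputable def w0 : ℝ := Real.sqrt 15 / 6

/-- `ω = (1 + √-15)/2`; the lattice `O = ℤ + ℤ ω` is inside `L_{w₀}` (`ω = 3 τ₀ + 2`) -/
noncomputable def om : ℂ := (1 + (Real.sqrt 15 : ℂ) * I) / 2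

/-- `K42(O)` -/
noncomputable def KO : ℂ :=
  ∑' v : ℤ × ℤ, 1 / (((v.1 : ℂ) * om + v.2) ^ 4 * (starRingEnd ℂ) ((v.1 : ℂ) * om + v.2) ^ 2)

/-- `K42(L)`, `L = L_{w₀}` -/
noncomputable def KL : ℂ := K 4 2 (0, 0) w0

end Pool.RV
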