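import Pool.Agent.Work.MP_5955e5_nt.CMRel

/-! Block (c1): the one-loop CM relations. -/

set_option autoImplicit false

open Complex ComplexConjugate

namespace Pool.RV

lemma A00 : cls (tau w0) 0 0 = KL / 64 := by rw [cls_zero, KL_eq]

lemma B00 : cls om 0 0 = KO / 64 := by rw [cls_zero, KO_eq]

lemma A11 : cls (tau w0) 1 1 = -(27 / 32) * (1 + sq) * KO - KL / 64 := by
  rw [← relA1, A00]; ring

lemma A10 : cls (tau w0) 1 0 = -(27 / 32) * (1 - sq) * KO - KL / 64 := by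
  rw [← relA2, A00]; ring

lemma B10 : cls om 1 0 = (sq - 1) / 864 * KL - KO / 64 := by
  rw [← relB1, B00]; ring

lemma B11 : cls om 1 1 = -(1 + sq) / 864 * KL - KO / 64 := by
  rw [← relB2, B00]; ring

lemma A01 : cls (tau w0) 0 1 = KL - cls (tau w0) 0 0 - cls (tau w0) 1 0 - cls (tau w0) 1 1 := by
  rw [KL_eq, K42_classes t0_im]; ring

lemma B01 : cls om 0 1 = KO - cls om 0 0 - cls om 1 0 - cls om 1 1 := by
  rw [KO_eq, K42_classes om_im]; ring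

lemma zpow_neg_one_norm (n : ℤ) : ‖((-1 : ℂ) ^ n)‖ = 1 := by
  rw [norm_zpow, norm_neg, norm_one, one_zpow]

lemma zpow_par (n : ℤ) (i : ℕ) : (-1 : ℂ) ^ (n * 2 + (i : ℤ)) = (-1) ^ i := by
  rw [zpow_add₀ (by norm_num), mul_comm n, zpow_mul, zpow_natCast]
  norm_num

/-- `∑ (-1)^m ff (m t + n)` -/
lemma alt_row {t : ℂ} (ht : 0 < t.im) :
    ∑' v : ℤ × ℤ, (-1 : ℂ) ^ v.1 * ff ((v.1 : ℂ) * t + v.2) =
      cls t 0 0 + cls t 0 1 - (cls t 1 0 + cls t 1 1) := by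
  rw [row_split ht (fun v => (-1 : ℂ) ^ v.1) (fun v => (zpow_neg_one_norm _).le)]
  simp only [Fin.sum_univ_two, zpow_par, Fin.val_zero, Fin.val_one, pow_zero, pow_one, one_mul,
    neg_mul, tsum_neg, Nat.cast_zero, Nat.cast_one]
  unfold cls
  ring

lemma altL : ∑' v : ℤ × ℤ, (-1 : ℂ) ^ v.1 * ff ((v.1 : ℂ) * tau w0 + v.2) =
    17 / 16 * KL + 27 / 8 * KO := by
  rw [alt_row t0_im, A01, A00, A10, A11]; ring

lemma altO : ∑' v : ℤ × ℤ, (-1 : ℂ) ^ v.1 * ff ((v.1 : ℂ) * om + v.2) =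
    17 / 16 * KO + KL / 216 := by
  rw [alt_row om_im, B01, B00, B10, B11]; ring

/-- The cube-root argument. -/
lemma cube_row {z : ℂ} (hz : z ^ 2 + z + 1 = 0) {G : ℤ × ℤ → ℂ} (hG : Summable G)
    (he : ∀ v, G (-v) = G v) :
    ∑' v : ℤ × ℤ, z ^ v.1 * G v = (3 * ∑' v : ℤ × ℤ, G (v.1 * 3, v.2) - ∑' v, G v) / 2 := by
  have hz0 : z ≠ 0 := by
    rintro rfl
    norm_num at hz
  have hz3 : z ^ 3 = 1 := by linear_combination (z - 1) * hz
  have hn : ‖z‖ = 1 := by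
    have : ‖z‖ ^ 3 = 1 := by rw [← norm_pow, hz3, norm_one]
    exact (pow_eq_one_iff_of_nonneg (norm_nonneg _) (by norm_num)).1 this
  have hs : Summable fun v : ℤ × ℤ => z ^ v.1 * G v := by
    refine Summable.of_norm_bounded hG.norm fun v => ?_
    rw [norm_mul, norm_zpow, hn, one_zpow, one_mul]
  have hp : ∀ (n : ℤ) (i : ℕ), z ^ (n * (3 : ℕ) + (i : ℤ)) = z ^ i := by
    intro n i
    rw [zpow_add₀ hz0, mul_comm n, zpow_mul, zpow_natCast, zpow_natCast, hz3, one_zpow, one_mul]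
  rw [tsum_split 3 hs, tsum_split 3 hG, Fin.sum_univ_three, Fin.sum_univ_three]
  simp only [hp, tsum_mul_left]
  have h12 : ∑' v : ℤ × ℤ, G (v.1 * (3 : ℕ) + (((2 : Fin 3) : ℕ) : ℤ), v.2) =
      ∑' v : ℤ × ℤ, G (v.1 * (3 : ℕ) + (((1 : Fin 3) : ℕ) : ℤ), v.2) := by
    let e : ℤ × ℤ ≃ ℤ × ℤ :=
      { toFun := fun v => (-1 - v.1, -v.2)
        invFun := fun v => (-1 - v.1, -v.2)
        left_inv := fun v => by ext <;> simp
        right_inv := fun v => by ext <;> simp }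
    rw [← e.tsum_eq]
    refine tsum_congr fun v => ?_
    rw [← he]
    congr 1
    ext
    · simp only [e, Equiv.coe_fn_mk, Prod.fst_neg]
      have h2 : (((2 : Fin 3) : ℕ) : ℤ) = 2 := rfl
      have h1 : (((1 : Fin 3) : ℕ) : ℤ) = 1 := rfl
      rw [h1, h2]
      push_cast
      ring
    · simp only [e, Equiv.coe_fn_mk, Prod.snd_neg, neg_neg]
  rw [h12]
  have h0 : ∑' v : ℤ × ℤ, G (v.1 * (3 : ℕ) + (((0 : Fin 3) : ℕ) : ℤ), v.2) =
      ∑' v : ℤ × ℤ, G (v.1 * 3, v.2) := by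
    refine tsum_congr fun v => ?_
    congr 1
    ext
    · have h1 : (((0 : Fin 3) : ℕ) : ℤ) = 0 := rfl
      rw [h1]
      push_cast
      ring
    · rfl
  rw [h0]
  have e2 : ((2 : Fin 3) : ℕ) = 2 := rfl
  have e1 : ((1 : Fin 3) : ℕ) = 1 := rfl
  have e0 : ((0 : Fin 3) : ℕ) = 0 := rfl
  rw [e2, e1, e0]
  set S0 := ∑' v : ℤ × ℤ, G (v.1 * 3, v.2)
  set S1 := ∑' v : ℤ × ℤ, G (v.1 * (3 : ℕ) + ((1 : ℕ) : ℤ), v.2)
  linear_combination S1 * hz

lemma ff_even (t : ℂ) (v : ℤ × ℤ) :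
    ff (((-v).1 : ℂ) * t + ((-v).2 : ℤ)) = ff ((v.1 : ℂ) * t + v.2) := by
  rw [← ff_neg]
  congr 1
  simp only [Prod.fst_neg, Prod.snd_neg]
  push_cast
  ring

/-- `(m, n) ↦ (m, n - 2 m)` -/
def eqShear : ℤ × ℤ ≃ ℤ × ℤ where
  toFun v := (v.1, v.2 - 2 * v.1)
  invFun v := (v.1, v.2 + 2 * v.1)
  left_inv v := by simp
  right_inv v := by simp

lemma three_t0 (v : ℤ × ℤ) : (((v.1 * 3 : ℤ)) : ℂ) * tau w0 + v.2 =
    ((eqShear v).1 : ℂ) * om + (eqShear v).2 := by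
  simp only [eqShear, Equiv.coe_fn_mk]
  rw [t0_eq, om_eq]
  push_cast
  ring

lemma zeta3_rel : (exp (2 * (Real.pi : ℂ) * I / 3)) ^ 2 + exp (2 * (Real.pi : ℂ) * I / 3) + 1 = 0 := by
  have h := (Complex.isPrimitiveRoot_exp 3 (by norm_num)).geom_sum_eq_zero (by norm_num)
  simp only [Finset.sum_range_succ, Finset.sum_range_zero, pow_zero, pow_one, zero_add] at h
  push_cast at h
  linear_combination h

lemma exp_six : exp (2 * (Real.pi : ℂ) * I / 6) = -(exp (2 * (Real.pi : ℂ) * I / 3)) ^ 2 := by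
  rw [← Complex.exp_nat_mul]
  have : (2 * (Real.pi : ℂ) * I / 6) = ((2 : ℕ) : ℂ) * (2 * (Real.pi : ℂ) * I / 3) - (Real.pi : ℂ) * I := by
    push_cast
    ring
  rw [this, Complex.exp_sub, Complex.exp_pi_mul_I]
  ring

/-- BLOCK (c1b) -/
theorem block_c1b : K 4 2 (2, 0) w0 = (3 * KO - KL) / 2 := by
  have h := cube_row zeta3_rel (summable_ff t0_im) (ff_even (tau w0))
  have h0 : ∑' v : ℤ × ℤ, ff (((v.1 * 3 : ℤ) : ℂ) * tau w0 + v.2) = KO := by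
    rw [KO_eq]
    unfold K42
    rw [← eqShear.tsum_eq (fun v : ℤ × ℤ => ff ((v.1 : ℂ) * om + v.2))]
    exact tsum_congr fun v => by rw [three_t0]
  have h1 : K 4 2 (2, 0) w0 = ∑' v : ℤ × ℤ, (exp (2 * (Real.pi : ℂ) * I / 3)) ^ v.1 *
      ff ((v.1 : ℂ) * tau w0 + v.2) := by
    unfold K
    refine tsum_congr fun v => ?_
    have hc : ch (2, 0) v = (exp (2 * (Real.pi : ℂ) * I / 3)) ^ v.1 := by
      unfold ch
      rw [← Complex.exp_int_mul]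
      congr 1
      push_cast
      ring
    rw [hc]
    unfold ff gm
    rw [div_eq_mul_inv, mul_inv]
  rw [h1, h, KL_eq]
  unfold K42
  simp only at h0 ⊢
  rw [h0]

/-- BLOCK (c1a) -/
theorem block_c1a : K 4 2 (1, 0) w0 = -(3 / 32) * KO - 151 / 288 * KL := by
  set z := (exp (2 * (Real.pi : ℂ) * I / 3)) ^ 2 with hz
  have hzz : z ^ 2 + z + 1 = 0 := by
    have := zeta3_rel
    rw [hz]
    linear_combination ((exp (2 * (Real.pi : ℂ) * I / 3)) ^ 2 - exp (2 * (Real.pi : ℂ) * I / 3) + 1) * this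
  have hs : Summable fun v : ℤ × ℤ => (-1 : ℂ) ^ v.1 * ff ((v.1 : ℂ) * tau w0 + v.2) := by
    refine Summable.of_norm_bounded (summable_ff t0_im).norm fun v => ?_
    rw [norm_mul, zpow_neg_one_norm, one_mul]
  have he : ∀ v : ℤ × ℤ, (-1 : ℂ) ^ (-v).1 * ff (((-v).1 : ℂ) * tau w0 + ((-v).2 : ℤ)) =
      (-1 : ℂ) ^ v.1 * ff ((v.1 : ℂ) * tau w0 + v.2) := by
    intro v
    rw [ff_even, Prod.fst_neg, zpow_neg, ← inv_zpow]
    norm_num
  have h := cube_row hzz hs he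
  have h0 : ∑' v : ℤ × ℤ, (-1 : ℂ) ^ (v.1 * 3) * ff (((v.1 * 3 : ℤ) : ℂ) * tau w0 + v.2) =
      17 / 16 * KO + KL / 216 := by
    rw [← altO, ← eqShear.tsum_eq (fun v : ℤ × ℤ => (-1 : ℂ) ^ v.1 * ff ((v.1 : ℂ) * om + v.2))]
    refine tsum_congr fun v => ?_
    rw [three_t0]
    congr 1
    rw [mul_comm v.1, zpow_mul]
    norm_num [eqShear]
  have h1 : K 4 2 (1, 0) w0 = ∑' v : ℤ × ℤ, z ^ v.1 *
      ((-1 : ℂ) ^ v.1 * ff ((v.1 : ℂ) * tau w0 + v.2)) := by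
    unfold K
    refine tsum_congr fun v => ?_
    have hc : ch (1, 0) v = z ^ v.1 * (-1 : ℂ) ^ v.1 := by
      unfold ch
      rw [← mul_zpow, hz, mul_neg, mul_one, ← exp_six, ← Complex.exp_int_mul]
      congr 1
      push_cast
      ring
    rw [hc]
    unfold ff gm
    rw [div_eq_mul_inv, mul_inv]
    ring
  rw [h1, h]
  simp only at h0 ⊢
  rw [h0, altL]
  ring

end Pool.RV
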