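import Mathlib
import Pool.Agent.Work.MP_5955e5_nt.EtaCube

/-! The right-hand side of S17045 as an absolutely convergent double series. -/

set_option autoImplicit false

open Finset Filter Topology MeasureTheory Set

namespace Pool.RV

lemma eta_cube {η : ℝ → ℝ} (hη : ∀ q : ℝ, η q = q ^ ((1 : ℝ) / 24) * ∏' n : ℕ, (1 - q ^ (n + 1)))
    {x : ℝ} (hx : 0 < x) :
    HasSum (fun k : ℕ => (-1 : ℝ) ^ k * (2 * k + 1) * Real.exp (-((2 * k + 1) ^ 2 * x / 8)))
      (η (Real.exp (-x)) ^ 3) := by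
  have h0 : 0 < Real.exp (-x) := Real.exp_pos _
  have h1 : Real.exp (-x) < 1 := by rw [Real.exp_lt_one_iff]; linarith
  have hJ := (jacobi h0 h1).mul_left (Real.exp (-(x / 8)))
  have e1 : η (Real.exp (-x)) ^ 3 = Real.exp (-(x / 8)) * pinf (Real.exp (-x)) ^ 3 := by
    rw [hη, mul_pow, ← Real.exp_mul, ← Real.exp_nat_mul]
    congr 2
    push_cast
    ring
  rw [e1]
  have e2 : (fun k : ℕ => (-1 : ℝ) ^ k * (2 * k + 1) * Real.exp (-((2 * k + 1) ^ 2 * x / 8))) =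
      fun k : ℕ => Real.exp (-(x / 8)) *
        ((-1 : ℝ) ^ k * (2 * k + 1) * Real.exp (-x) ^ ((k + 1).choose 2)) := by
    funext k
    have h2 := choose_two_int (k + 1)
    have h3 : (2 : ℝ) * ((k + 1).choose 2 : ℕ) = (k + 1) * k := by
      have := congrArg (fun z : ℤ => (z : ℝ)) h2
      push_cast at this
      linarith
    have h4 : Real.exp (-((2 * k + 1) ^ 2 * x / 8)) =
        Real.exp (-(x / 8)) * Real.exp (-x) ^ ((k + 1).choose 2) := by
      rw [← Real.exp_nat_mul, ← Real.exp_add]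
      congr 1
      have : (((k + 1).choose 2 : ℕ) : ℝ) = (k + 1) * k / 2 := by linarith
      rw [this]; ring
    rw [h4]; ring
  rw [e2]
  exact hJ

lemma summable_abs_cube {x : ℝ} (hx : 0 < x) :
    Summable fun k : ℕ => ‖(-1 : ℝ) ^ k * (2 * k + 1) * Real.exp (-((2 * k + 1) ^ 2 * x / 8))‖ := by
  have h : Summable fun k : ℕ => (-1 : ℝ) ^ k * (2 * k + 1) *
      Real.exp (-((2 * k + 1) ^ 2 * x / 8)) :=
    (eta_cube (η := fun q => q ^ ((1 : ℝ) / 24) * ∏' n : ℕ, (1 - q ^ (n + 1)))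
      (fun _ => rfl) hx).summable
  exact h.norm

/-- The weight of the pair `(k, l)`. -/
noncomputable def cf (p : ℕ × ℕ) : ℝ := (-1) ^ p.1 * (2 * p.1 + 1) * ((-1) ^ p.2 * (2 * p.2 + 1))

/-- The quadratic form `a (2k+1)^2 + b (2l+1)^2`. -/
noncomputable def qf (a b : ℝ) (p : ℕ × ℕ) : ℝ := a * (2 * p.1 + 1) ^ 2 + b * (2 * p.2 + 1) ^ 2

lemma eta_prod {η : ℝ → ℝ} (hη : ∀ q : ℝ, η q = q ^ ((1 : ℝ) / 24) * ∏' n : ℕ, (1 - q ^ (n + 1)))
    {a b t : ℝ} (ha : 0 < a) (hb : 0 < b) (ht : 0 < t) :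
    HasSum (fun p : ℕ × ℕ => cf p * Real.exp (-(qf a b p / 8 * t)))
      (η (Real.exp (-(a * t))) ^ 3 * η (Real.exp (-(b * t))) ^ 3) := by
  have h1 := eta_cube hη (mul_pos ha ht)
  have h2 := eta_cube hη (mul_pos hb ht)
  have h3 := summable_mul_of_summable_norm (summable_abs_cube (mul_pos ha ht))
    (summable_abs_cube (mul_pos hb ht))
  have h4 := h1.mul h2 h3
  have e : (fun p : ℕ × ℕ => cf p * Real.exp (-(qf a b p / 8 * t))) = fun p : ℕ × ℕ =>
      (-1 : ℝ) ^ p.1 * (2 * p.1 + 1) * Real.exp (-((2 * p.1 + 1) ^ 2 * (a * t) / 8)) *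
      ((-1 : ℝ) ^ p.2 * (2 * p.2 + 1) * Real.exp (-((2 * p.2 + 1) ^ 2 * (b * t) / 8))) := by
    funext p
    have : Real.exp (-(qf a b p / 8 * t)) = Real.exp (-((2 * p.1 + 1) ^ 2 * (a * t) / 8)) *
        Real.exp (-((2 * p.2 + 1) ^ 2 * (b * t) / 8)) := by
      rw [← Real.exp_add, qf]; congr 1; ring
    rw [this, cf]; ring
  rw [e]
  exact h4

lemma qf_pos {a b : ℝ} (ha : 0 < a) (hb : 0 < b) (p : ℕ × ℕ) : 0 < qf a b p := by
  unfold qf; positivity

lemma norm_cf (p : ℕ × ℕ) : ‖cf p‖ = (2 * p.1 + 1) * (2 * p.2 + 1) := by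
  unfold cf
  rw [norm_mul, norm_mul, norm_mul, norm_pow, norm_pow, norm_neg, norm_one, one_pow, one_pow,
    one_mul, one_mul, Real.norm_of_nonneg (by positivity), Real.norm_of_nonneg (by positivity)]

lemma integrable_cube {c : ℝ} (hc : 0 < c) :
    IntegrableOn (fun t : ℝ => Real.exp (-(c * t)) * t ^ 3) (Ioi 0) ∧
      ∫ t in Ioi (0 : ℝ), Real.exp (-(c * t)) * t ^ 3 = 6 / c ^ 4 := by
  have key := Real.integral_rpow_mul_exp_neg_mul_Ioi (a := 4) (r := c) (by norm_num) hc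
  have hG : Real.Gamma 4 = 6 := by
    rw [show (4 : ℝ) = ((3 : ℕ) : ℝ) + 1 by norm_num, Real.Gamma_nat_eq_factorial 3]
    norm_num [Nat.factorial]
  have hval : (1 / c) ^ (4 : ℝ) * Real.Gamma 4 = 6 / c ^ 4 := by
    rw [hG, show (4 : ℝ) = ((4 : ℕ) : ℝ) by norm_num, Real.rpow_natCast]
    field_simp
  rw [hval] at key
  have hfun : ∀ t ∈ Ioi (0 : ℝ), t ^ ((4 : ℝ) - 1) * Real.exp (-(c * t)) =
      Real.exp (-(c * t)) * t ^ 3 := by
    intro t _
    rw [show (4 : ℝ) - 1 = ((3 : ℕ) : ℝ) by norm_num, Real.rpow_natCast, mul_comm]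
  have hint : IntegrableOn (fun t : ℝ => t ^ ((4 : ℝ) - 1) * Real.exp (-(c * t))) (Ioi 0) :=
    .of_integral_ne_zero (by rw [key]; positivity)
  refine ⟨hint.congr_fun hfun measurableSet_Ioi, ?_⟩
  rw [← key]
  exact (setIntegral_congr_fun measurableSet_Ioi hfun).symm

lemma summable_inv_cube : Summable fun k : ℕ => 1 / (2 * (k : ℝ) + 1) ^ 3 := by
  have h : Summable fun k : ℕ => 1 / ((k : ℝ) + 1) ^ 3 := by
    have := (summable_nat_add_iff 1).2 (Real.summable_one_div_nat_pow.2 (by norm_num : 1 < 3))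
    simpa using this
  refine Summable.of_nonneg_of_le (fun k => by positivity) (fun k => ?_) h
  have hk : (0 : ℝ) ≤ k := Nat.cast_nonneg k
  refine one_div_le_one_div_of_le (by positivity) ?_
  exact pow_le_pow_left₀ (by positivity) (by linarith) 3

lemma summable_dbl {a b : ℝ} (ha : 1 ≤ a) (hb : 1 ≤ b) :
    Summable fun p : ℕ × ℕ => ‖cf p‖ / qf a b p ^ 4 := by
  have h := (summable_inv_cube.mul_of_nonneg summable_inv_cube
    (fun _ => by positivity) (fun _ => by positivity))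
  refine Summable.of_nonneg_of_le (fun p => ?_) (fun p => ?_) h
  · have := qf_pos (lt_of_lt_of_le one_pos ha) (lt_of_lt_of_le one_pos hb) p
    positivity
  · rw [norm_cf]
    set u : ℝ := 2 * (p.1 : ℝ) + 1 with hu
    set v : ℝ := 2 * (p.2 : ℝ) + 1 with hv
    have hu1 : 0 < u := by positivity
    have hv1 : 0 < v := by positivity
    have hq : u * v ≤ qf a b p := by
      unfold qf
      rw [← hu, ← hv]
      nlinarith [sq_nonneg (u - v), sq_nonneg u, sq_nonneg v, mul_pos hu1 hv1]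
    have h4 : (u * v) ^ 4 ≤ qf a b p ^ 4 := pow_le_pow_left₀ (by positivity) hq 4
    calc u * v / qf a b p ^ 4 ≤ u * v / (u * v) ^ 4 :=
          div_le_div_of_nonneg_left (by positivity) (by positivity) h4
      _ = 1 / u ^ 3 * (1 / v ^ 3) := by field_simp

lemma integrable_term {a b : ℝ} (ha : 0 < a) (hb : 0 < b) (p : ℕ × ℕ) (c : ℝ) :
    IntegrableOn (fun t : ℝ => c * (Real.exp (-(qf a b p / 8 * t)) * t ^ 3)) (Ioi 0) ∧
    ∫ t in Ioi (0 : ℝ), c * (Real.exp (-(qf a b p / 8 * t)) * t ^ 3) =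
      24576 * (c / qf a b p ^ 4) := by
  have hq : 0 < qf a b p / 8 := by have := qf_pos ha hb p; positivity
  refine ⟨(integrable_cube hq).1.const_mul _, ?_⟩
  rw [integral_const_mul, (integrable_cube hq).2]
  have := (qf_pos ha hb p).ne'
  field_simp
  ring

/-- Integral of a sum of two products of eta cubes against `t^3`. -/
theorem integral_prod {η : ℝ → ℝ}
    (hη : ∀ q : ℝ, η q = q ^ ((1 : ℝ) / 24) * ∏' n : ℕ, (1 - q ^ (n + 1)))
    {a b c d : ℝ} (ha : 1 ≤ a) (hb : 1 ≤ b) (hc : 1 ≤ c) (hd : 1 ≤ d) :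
    HasSum (fun p : ℕ × ℕ => 24576 * (cf p / qf a b p ^ 4 + cf p / qf c d p ^ 4))
      (∫ t in Ioi (0 : ℝ),
        (η (Real.exp (-(a * t))) ^ 3 * η (Real.exp (-(b * t))) ^ 3 +
         η (Real.exp (-(c * t))) ^ 3 * η (Real.exp (-(d * t))) ^ 3) * t ^ 3) := by
  have ha0 : 0 < a := lt_of_lt_of_le one_pos ha
  have hb0 : 0 < b := lt_of_lt_of_le one_pos hb
  have hc0 : 0 < c := lt_of_lt_of_le one_pos hc
  have hd0 : 0 < d := lt_of_lt_of_le one_pos hd
  set F : ℕ × ℕ → ℝ → ℝ := fun p t => cf p * (Real.exp (-(qf a b p / 8 * t)) * t ^ 3) +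
    cf p * (Real.exp (-(qf c d p / 8 * t)) * t ^ 3) with hF
  have hint : ∀ p, Integrable (F p) (volume.restrict (Ioi 0)) := fun p =>
    Integrable.add (integrable_term ha0 hb0 p _).1 (integrable_term hc0 hd0 p _).1
  have hnorm : ∀ p, ∫ t in Ioi (0 : ℝ), ‖F p t‖ =
      24576 * (‖cf p‖ / qf a b p ^ 4) + 24576 * (‖cf p‖ / qf c d p ^ 4) := by
    intro p
    have : ∫ t in Ioi (0 : ℝ), ‖F p t‖ =
        ∫ t in Ioi (0 : ℝ), (‖cf p‖ * (Real.exp (-(qf a b p / 8 * t)) * t ^ 3) +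
          ‖cf p‖ * (Real.exp (-(qf c d p / 8 * t)) * t ^ 3)) := by
      refine setIntegral_congr_fun measurableSet_Ioi fun t ht => ?_
      have ht' : (0 : ℝ) < t := ht
      simp only [hF]
      rw [← mul_add, ← mul_add, norm_mul, Real.norm_of_nonneg
        (by positivity : 0 ≤ Real.exp (-(qf a b p / 8 * t)) * t ^ 3 +
          Real.exp (-(qf c d p / 8 * t)) * t ^ 3)]
    rw [this, integral_add (integrable_term ha0 hb0 p _).1 (integrable_term hc0 hd0 p _).1,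
      (integrable_term ha0 hb0 p _).2, (integrable_term hc0 hd0 p _).2]
  have hsum : Summable fun p => ∫ t in Ioi (0 : ℝ), ‖F p t‖ := by
    simp only [hnorm]
    exact ((summable_dbl ha hb).mul_left _).add ((summable_dbl hc hd).mul_left _)
  have hpt : ∀ t ∈ Ioi (0 : ℝ), ∑' p, F p t =
      (η (Real.exp (-(a * t))) ^ 3 * η (Real.exp (-(b * t))) ^ 3 +
         η (Real.exp (-(c * t))) ^ 3 * η (Real.exp (-(d * t))) ^ 3) * t ^ 3 := by
    intro t ht
    have h1 := ((eta_prod hη ha0 hb0 ht).add (eta_prod hη hc0 hd0 ht)).mul_right (t ^ 3)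
    have h2 : (fun p : ℕ × ℕ => (cf p * Real.exp (-(qf a b p / 8 * t)) +
        cf p * Real.exp (-(qf c d p / 8 * t))) * t ^ 3) = fun p => F p t := by
      funext p; simp only [hF]; ring
    rw [h2] at h1
    exact h1.tsum_eq
  have hmain := hasSum_integral_of_summable_integral_norm hint hsum
  have hI : ∀ p, ∫ t in Ioi (0 : ℝ), F p t =
      24576 * (cf p / qf a b p ^ 4 + cf p / qf c d p ^ 4) := by
    intro p
    simp only [hF]
    rw [integral_add (integrable_term ha0 hb0 p _).1 (integrable_term hc0 hd0 p _).1,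
      (integrable_term ha0 hb0 p _).2, (integrable_term hc0 hd0 p _).2, mul_add]
  have hset : ∫ t in Ioi (0 : ℝ), ∑' p, F p t = ∫ t in Ioi (0 : ℝ),
      (η (Real.exp (-(a * t))) ^ 3 * η (Real.exp (-(b * t))) ^ 3 +
         η (Real.exp (-(c * t))) ^ 3 * η (Real.exp (-(d * t))) ^ 3) * t ^ 3 :=
    setIntegral_congr_fun measurableSet_Ioi hpt
  rw [← hset]
  simpa only [hI] using hmain

lemma summable_term {a b : ℝ} (ha : 1 ≤ a) (hb : 1 ≤ b) :
    Summable fun p : ℕ × ℕ => cf p / qf a b p ^ 4 := by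
  refine Summable.of_norm_bounded (summable_dbl ha hb) fun p => ?_
  have := qf_pos (lt_of_lt_of_le one_pos ha) (lt_of_lt_of_le one_pos hb) p
  rw [norm_div, norm_pow, Real.norm_of_nonneg this.le]

/-- `S(a,b) = ∑_{k,l ≥ 0} (-1)^(k+l) (2k+1)(2l+1) / (a (2k+1)^2 + b (2l+1)^2)^4`. -/
noncomputable def Sab (a b : ℝ) : ℝ := ∑' p : ℕ × ℕ, cf p / qf a b p ^ 4

/-- **Block (d)**: the right-hand side of S17045, read literally. -/
theorem rhs_eq {η : ℝ → ℝ}
    (hη : ∀ q : ℝ, η q = q ^ ((1 : ℝ) / 24) * ∏' n : ℕ, (1 - q ^ (n + 1))) :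
    (15 / (4 * Real.pi ^ 2)) ^ ((5 : ℝ) / 2) *
          ∫ t in Set.Ioi (0 : ℝ),
            (η (Real.exp (-3 * t)) ^ 3 * η (Real.exp (-5 * t)) ^ 3
              + η (Real.exp (-t)) ^ 3 * η (Real.exp (-15 * t)) ^ 3) * t ^ 3 =
      768 * 15 ^ ((5 : ℝ) / 2) / Real.pi ^ 5 * (Sab 3 5 + Sab 1 15) := by
  have h := (integral_prod hη (a := 3) (b := 5) (c := 1) (d := 15) (by norm_num) (by norm_num)
    le_rfl (by norm_num)).tsum_eq
  rw [tsum_mul_left, (summable_term (by norm_num) (by norm_num)).tsum_add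
    (summable_term le_rfl (by norm_num))] at h
  have hcongr : ∫ t in Set.Ioi (0 : ℝ),
            (η (Real.exp (-3 * t)) ^ 3 * η (Real.exp (-5 * t)) ^ 3
              + η (Real.exp (-t)) ^ 3 * η (Real.exp (-15 * t)) ^ 3) * t ^ 3 =
      ∫ t in Ioi (0 : ℝ),
        (η (Real.exp (-(3 * t))) ^ 3 * η (Real.exp (-(5 * t))) ^ 3 +
         η (Real.exp (-(1 * t))) ^ 3 * η (Real.exp (-(15 * t))) ^ 3) * t ^ 3 := by
    refine setIntegral_congr_fun measurableSet_Ioi fun t _ => ?_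
    simp only [neg_mul, one_mul]
  rw [hcongr, ← h]
  have hpi : 0 < Real.pi := Real.pi_pos
  have hpow : (15 / (4 * Real.pi ^ 2)) ^ ((5 : ℝ) / 2) =
      15 ^ ((5 : ℝ) / 2) / (32 * Real.pi ^ 5) := by
    rw [Real.div_rpow (by norm_num) (by positivity)]
    congr 1
    have : (4 * Real.pi ^ 2) = (2 * Real.pi) ^ (2 : ℝ) := by
      rw [show (2 : ℝ) = ((2 : ℕ) : ℝ) by norm_num, Real.rpow_natCast]
      push_cast; ring
    rw [this, ← Real.rpow_mul (by positivity), show (2 : ℝ) * (5 / 2) = ((5 : ℕ) : ℝ) by norm_num,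
      Real.rpow_natCast]
    ring
  rw [hpow]
  change _ * (24576 * (Sab 3 5 + Sab 1 15)) = _
  field_simp
  ring

end Pool.RV
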