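import Mathlib
import Pool.Agent.Work.MP_5955e5_nt.RhsSeries

/-! One-loop CM relations and the right-hand side of S17045. -/

set_option autoImplicit false

open Complex ComplexConjugate

namespace Pool.RV

/-- `g ↦ g^{-4} \bar g^{-2}` (value `0` at `0`). -/
noncomputable def ff (g : ℂ) : ℂ := (g ^ 4)⁻¹ * ((conj g) ^ 2)⁻¹

lemma ff_mul (c g : ℂ) : ff (c * g) = ff c * ff g := by
  unfold ff
  rw [map_mul, mul_pow, mul_pow, mul_inv, mul_inv]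
  ring

lemma ff_neg (g : ℂ) : ff (-g) = ff g := by
  unfold ff
  rw [map_neg, neg_pow, neg_pow (conj g)]
  norm_num

lemma norm_ff (g : ℂ) : ‖ff g‖ = ‖g‖ ^ (-(6 : ℝ)) := by
  unfold ff
  rw [norm_mul, norm_inv, norm_inv, norm_pow, norm_pow, RCLike.norm_conj, ← mul_inv, ← pow_add,
    show (4 + 2 : ℕ) = 6 by norm_num, Real.rpow_neg (norm_nonneg _),
    show (6 : ℝ) = ((6 : ℕ) : ℝ) by norm_num, Real.rpow_natCast]

lemma summable_norm_six (z : UpperHalfPlane) :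
    Summable fun v : ℤ × ℤ => ‖(v.1 : ℂ) * z + v.2‖ ^ (-(6 : ℝ)) := by
  have h := (EisensteinSeries.summable_one_div_norm_rpow (k := 6) (by norm_num)).mul_left
    ((EisensteinSeries.r z) ^ (-(6 : ℝ)))
  have h2 : Summable fun x : Fin 2 → ℤ => ‖(x 0 : ℂ) * z + x 1‖ ^ (-(6 : ℝ)) :=
    Summable.of_nonneg_of_le (fun x => Real.rpow_nonneg (norm_nonneg _) _)
      (fun x => EisensteinSeries.summand_bound z (by norm_num) x) h
  have h3 := (finTwoArrowEquiv ℤ).symm.summable_iff.2 h2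
  refine h3.congr fun v => ?_
  simp [finTwoArrowEquiv]

lemma summable_ff {t : ℂ} (ht : 0 < t.im) : Summable fun v : ℤ × ℤ => ff ((v.1 : ℂ) * t + v.2) := by
  refine Summable.of_norm ?_
  simp only [norm_ff]
  exact summable_norm_six ⟨t, ht⟩

/-- Splitting the first coordinate modulo `N`. -/
def splitEquiv (N : ℕ) [NeZero N] : Fin N × (ℤ × ℤ) ≃ ℤ × ℤ :=
  ((Equiv.prodAssoc (Fin N) ℤ ℤ).symm.trans
    (Equiv.prodCongr (Equiv.prodComm (Fin N) ℤ) (Equiv.refl ℤ))).trans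
    (Equiv.prodCongr (Int.divModEquiv N).symm (Equiv.refl ℤ))

lemma splitEquiv_apply (N : ℕ) [NeZero N] (i : Fin N) (v : ℤ × ℤ) :
    splitEquiv N (i, v) = (v.1 * N + ((i : ℕ) : ℤ), v.2) := rfl

lemma tsum_split (N : ℕ) [NeZero N] {F : ℤ × ℤ → ℂ} (hF : Summable F) :
    ∑' v, F v = ∑ i : Fin N, ∑' v : ℤ × ℤ, F (v.1 * N + ((i : ℕ) : ℤ), v.2) := by
  have h1 : Summable fun p => F (splitEquiv N p) := (splitEquiv N).summable_iff.2 hF
  rw [← (splitEquiv N).tsum_eq F, h1.tsum_prod, tsum_fintype]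
  rfl

lemma summable_split (N : ℕ) [NeZero N] {F : ℤ × ℤ → ℂ} (hF : Summable F) (i : Fin N) :
    Summable fun v : ℤ × ℤ => F (v.1 * N + ((i : ℕ) : ℤ), v.2) := by
  have h1 : Summable fun p => F (splitEquiv N p) := (splitEquiv N).summable_iff.2 hF
  exact h1.prod_factor i

lemma tsum_split2 (N : ℕ) [NeZero N] {F : ℤ × ℤ → ℂ} (hF : Summable F) :
    ∑' v, F v = ∑ i : Fin N, ∑' v : ℤ × ℤ, F (v.1, v.2 * N + ((i : ℕ) : ℤ)) := by
  have h1 : Summable fun p => F (Equiv.prodComm ℤ ℤ p) := (Equiv.prodComm ℤ ℤ).summable_iff.2 hF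
  rw [← (Equiv.prodComm ℤ ℤ).tsum_eq F, tsum_split N h1]
  refine Finset.sum_congr rfl fun i _ => ?_
  exact ((Equiv.prodComm ℤ ℤ).tsum_eq
    (fun v : ℤ × ℤ => F (v.1, v.2 * N + ((i : ℕ) : ℤ))))

lemma summable_split2 (N : ℕ) [NeZero N] {F : ℤ × ℤ → ℂ} (hF : Summable F) (i : Fin N) :
    Summable fun v : ℤ × ℤ => F (v.1, v.2 * N + ((i : ℕ) : ℤ)) := by
  have h1 : Summable fun p => F (Equiv.prodComm ℤ ℤ p) := (Equiv.prodComm ℤ ℤ).summable_iff.2 hF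
  exact (Equiv.prodComm ℤ ℤ).summable_iff.1 (summable_split N h1 i)

/-! ### The four classes modulo 2 -/

/-- `∑ ff ((2m+i) t + (2n+j))`. -/
noncomputable def cls (t : ℂ) (i j : ℤ) : ℂ :=
  ∑' v : ℤ × ℤ, ff (((v.1 * 2 + i : ℤ) : ℂ) * t + ((v.2 * 2 + j : ℤ) : ℂ))

/-- `K_{4,2}` of the lattice `ℤ t + ℤ`. -/
noncomputable def K42 (t : ℂ) : ℂ := ∑' v : ℤ × ℤ, ff ((v.1 : ℂ) * t + v.2)

lemma summable_ff' {t : ℂ} (ht : 0 < t.im) :
    Summable fun v : ℤ × ℤ => ff (((v.1 : ℤ) : ℂ) * t + ((v.2 : ℤ) : ℂ)) := summable_ff ht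

lemma row_split {t : ℂ} (ht : 0 < t.im) (a : ℤ × ℤ → ℂ) (ha : ∀ v, ‖a v‖ ≤ 1) :
    ∑' v : ℤ × ℤ, a v * ff (((v.1 : ℤ) : ℂ) * t + ((v.2 : ℤ) : ℂ)) =
      ∑ i : Fin 2, ∑ j : Fin 2, ∑' v : ℤ × ℤ,
        a (v.1 * 2 + ((i : ℕ) : ℤ), v.2 * 2 + ((j : ℕ) : ℤ)) *
        ff (((v.1 * 2 + ((i : ℕ) : ℤ) : ℤ) : ℂ) * t + ((v.2 * 2 + ((j : ℕ) : ℤ) : ℤ) : ℂ)) := by
  have h : Summable fun v : ℤ × ℤ => a v * ff (((v.1 : ℤ) : ℂ) * t + ((v.2 : ℤ) : ℂ)) := by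
    refine Summable.of_norm_bounded (summable_ff ht).norm fun v => ?_
    rw [norm_mul]
    exact mul_le_of_le_one_left (norm_nonneg _) (ha v)
  rw [tsum_split 2 h]
  refine Finset.sum_congr rfl fun i _ => ?_
  rw [tsum_split2 2 (summable_split 2 h i)]
  rfl

lemma K42_classes {t : ℂ} (ht : 0 < t.im) :
    K42 t = cls t 0 0 + cls t 0 1 + (cls t 1 0 + cls t 1 1) := by
  have h := row_split ht (fun _ => 1) (fun _ => by simp)
  simp only [one_mul, Fin.sum_univ_two] at h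
  exact h

lemma cls_zero (t : ℂ) : cls t 0 0 = K42 t / 64 := by
  unfold cls K42
  rw [← tsum_div_const]
  refine tsum_congr fun v => ?_
  have : (((v.1 * 2 + 0 : ℤ) : ℂ) * t + ((v.2 * 2 + 0 : ℤ) : ℂ)) = 2 * ((v.1 : ℂ) * t + v.2) := by
    push_cast; ring
  rw [this, ff_mul]
  have h2 : ff 2 = 1 / 64 := by
    unfold ff
    rw [show (conj (2 : ℂ)) = 2 from Complex.conj_ofNat 2]
    norm_num
  rw [h2]; ring

/-- Sum over the classes with `n` even. -/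
lemma sum_even {t : ℂ} (ht : 0 < t.im) :
    ∑' v : ℤ × ℤ, ff ((v.1 : ℂ) * t + 2 * v.2) = cls t 0 0 + cls t 1 0 := by
  have h : Summable fun v : ℤ × ℤ => ff ((v.1 : ℂ) * t + 2 * v.2) := by
    have := summable_split2 2 (summable_ff ht) 0
    refine this.congr fun v => ?_
    push_cast
    simp only [Fin.val_zero, Nat.cast_zero, add_zero]
    rw [mul_comm (2 : ℂ)]
  rw [tsum_split 2 h, Fin.sum_univ_two]
  unfold cls
  congr 1 <;> refine tsum_congr fun v => ?_ <;> push_cast <;> congr 1 <;>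
    simp only [Fin.val_zero, Fin.val_one, Nat.cast_zero, Nat.cast_one, add_zero] <;> ring

end Pool.RV
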