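import Pool.Agent.Work.MP_5955e5_nt.CMOne
import Pool.Agent.Work.MP_5955e5_nt.Defs

/-! One-loop CM relations between `O` and `L`: classes modulo 2 and the cube-root argument. -/

set_option autoImplicit false

open Complex ComplexConjugate

namespace Pool.RV

/-- `√-15` -/
noncomputable def sq : ℂ := (Real.sqrt 15 : ℂ) * I

lemma sq_sq : sq ^ 2 = -15 := by
  unfold sq
  rw [mul_pow, I_sq, ← Complex.ofReal_pow, Real.sq_sqrt (by norm_num)]
  norm_num

lemma conj_sq : conj sq = -sq := by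
  unfold sq
  rw [map_mul, conj_I, Complex.conj_ofReal]
  ring

lemma om_eq : om = (1 + sq) / 2 := rfl

lemma t0_eq : tau w0 = (-3 + sq) / 6 := by
  unfold tau w0 sq
  push_cast
  ring

lemma om_im : 0 < om.im := by
  have : om.im = Real.sqrt 15 / 2 := by
    unfold om
    simp
  rw [this]
  positivity

lemma t0_im : 0 < (tau w0).im := by
  have : (tau w0).im = Real.sqrt 15 / 6 := by
    unfold tau w0
    simp
  rw [this]
  positivity

lemma ff_val {g c : ℂ} (h : g ^ 4 * (conj g) ^ 2 * c = 1) : ff g = c := by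
  unfold ff
  rw [← mul_inv]
  exact (eq_inv_of_mul_eq_one_right h).symm

lemma conj_lin (a b : ℝ) : conj ((a : ℂ) + b * sq) = a - b * sq := by
  rw [map_add, map_mul, conj_sq, Complex.conj_ofReal, Complex.conj_ofReal]
  ring

lemma ff_a : ff ((3 + sq) / 6) = -(27 / 32) * (1 + sq) := by
  have hc : conj ((3 + sq) / 6) = (3 - sq) / 6 := by
    have := conj_lin (1 / 2) (1 / 6)
    push_cast at this
    rw [show (3 + sq) / 6 = 1 / 2 + 1 / 6 * sq by ring, this]
    ring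
  refine ff_val ?_
  rw [hc]
  linear_combination ((-415/6144) + (-3/2048)*sq + (37/9216)*sq^2 + (1/3072)*sq^3
    + (-7/55296)*sq^4 + (-1/55296)*sq^5) * sq_sq

lemma ff_b : ff ((3 - sq) / 6) = -(27 / 32) * (1 - sq) := by
  have hc : conj ((3 - sq) / 6) = (3 + sq) / 6 := by
    have := conj_lin (1 / 2) (-1 / 6)
    push_cast at this
    rw [show (3 - sq) / 6 = 1 / 2 + -1 / 6 * sq by ring, this]
    ring
  refine ff_val ?_
  rw [hc]
  linear_combination ((-415/6144) + (3/2048)*sq + (37/9216)*sq^2 + (-1/3072)*sq^3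
    + (-7/55296)*sq^4 + (1/55296)*sq^5) * sq_sq

lemma ff_c : ff ((3 - sq) / 2) = (sq - 1) / 864 := by
  have hc : conj ((3 - sq) / 2) = (3 + sq) / 2 := by
    have := conj_lin (3 / 2) (-1 / 2)
    push_cast at this
    rw [show (3 - sq) / 2 = 3 / 2 + -1 / 2 * sq by ring, this]
    ring
  refine ff_val ?_
  rw [hc]
  linear_combination ((-415/6144) + (3/2048)*sq + (37/9216)*sq^2 + (-1/3072)*sq^3
    + (-7/55296)*sq^4 + (1/55296)*sq^5) * sq_sq

lemma ff_d : ff ((3 + sq) / 2) = -(1 + sq) / 864 := by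
  have hc : conj ((3 + sq) / 2) = (3 - sq) / 2 := by
    have := conj_lin (3 / 2) (1 / 2)
    push_cast at this
    rw [show (3 + sq) / 2 = 3 / 2 + 1 / 2 * sq by ring, this]
    ring
  refine ff_val ?_
  rw [hc]
  linear_combination ((-415/6144) + (-3/2048)*sq + (37/9216)*sq^2 + (1/3072)*sq^3
    + (-7/55296)*sq^4 + (-1/55296)*sq^5) * sq_sq

lemma KO_eq : KO = K42 om := by
  unfold KO K42
  refine tsum_congr fun v => ?_
  unfold ff
  rw [one_div, mul_inv]

lemma KL_eq : KL = K42 (tau w0) := by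
  unfold KL K K42
  refine tsum_congr fun v => ?_
  unfold ff ch gm
  simp only [zero_mul, add_zero, Int.cast_zero, mul_zero, zero_div, Complex.exp_zero]
  rw [one_div, mul_inv]

/-- `(m, n) ↦ (m - n, n)` -/
def eqSub : ℤ × ℤ ≃ ℤ × ℤ where
  toFun v := (v.1 - v.2, v.2)
  invFun v := (v.1 + v.2, v.2)
  left_inv v := by simp
  right_inv v := by simp

/-- `(m, n) ↦ (m + n, n)` -/
def eqAdd : ℤ × ℤ ≃ ℤ × ℤ := eqSub.symm

/-- `(m, n) ↦ (m - n, m)` -/
def eqB : ℤ × ℤ ≃ ℤ × ℤ where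
  toFun v := (v.1 - v.2, v.1)
  invFun v := (v.2, v.2 - v.1)
  left_inv v := by simp
  right_inv v := by simp

/-- `(m, n) ↦ (n, n - m)` -/
def eqD : ℤ × ℤ ≃ ℤ × ℤ where
  toFun v := (v.2, v.2 - v.1)
  invFun v := (v.1 - v.2, v.1)
  left_inv v := by simp
  right_inv v := by simp

/-- `A00 + A11` -/
lemma relA1 : cls (tau w0) 0 0 + cls (tau w0) 1 1 = -(27 / 32) * (1 + sq) * KO := by
  rw [KO_eq, ← ff_a]
  unfold K42
  rw [← tsum_mul_left]
  have h1 : ∀ v : ℤ × ℤ, ff ((3 + sq) / 6) * ff ((v.1 : ℂ) * om + v.2)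
      = ff (((2 * v.1 + v.2 : ℤ) : ℂ) * tau w0 + v.2) := by
    intro v
    rw [← ff_mul]
    congr 1
    rw [om_eq, t0_eq]
    push_cast
    linear_combination ((v.1 : ℂ) / 12) * sq_sq
  have hs : Summable fun v : ℤ × ℤ => ff (((2 * v.1 + v.2 : ℤ) : ℂ) * tau w0 + v.2) :=
    ((summable_ff om_im).mul_left (ff ((3 + sq) / 6))).congr fun v => (h1 v)
  rw [tsum_congr h1, tsum_split2 2 hs, Fin.sum_univ_two]
  unfold cls
  congr 1
  · rw [← eqAdd.tsum_eq]
    refine tsum_congr fun v => ?_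
    simp only [eqAdd, eqSub, Equiv.coe_fn_symm_mk, Fin.val_zero, Nat.cast_zero, add_zero]
    congr 1
    push_cast
    ring
  · rw [← eqAdd.tsum_eq]
    refine tsum_congr fun v => ?_
    simp only [eqAdd, eqSub, Equiv.coe_fn_symm_mk, Fin.val_one, Nat.cast_one]
    congr 1
    push_cast
    ring

/-- `A00 + A10` -/
lemma relA2 : cls (tau w0) 0 0 + cls (tau w0) 1 0 = -(27 / 32) * (1 - sq) * KO := by
  rw [KO_eq, ← ff_b, ← sum_even t0_im]
  unfold K42
  rw [← tsum_mul_left, ← eqB.tsum_eq]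
  refine tsum_congr fun v => ?_
  rw [← ff_mul]
  congr 1
  simp only [eqB, Equiv.coe_fn_mk]
  rw [om_eq, t0_eq]
  push_cast
  linear_combination ((v.1 : ℂ) / 12) * sq_sq

/-- `B00 + B10` -/
lemma relB1 : cls om 0 0 + cls om 1 0 = (sq - 1) / 864 * KL := by
  rw [KL_eq, ← ff_c, ← sum_even om_im]
  unfold K42
  rw [← tsum_mul_left, ← eqSub.tsum_eq]
  refine tsum_congr fun v => ?_
  rw [← ff_mul]
  congr 1
  simp only [eqSub, Equiv.coe_fn_mk]
  rw [om_eq, t0_eq]
  push_cast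
  linear_combination ((v.1 : ℂ) / 12) * sq_sq

/-- `B00 + B11` -/
lemma relB2 : cls om 0 0 + cls om 1 1 = -(1 + sq) / 864 * KL := by
  rw [KL_eq, ← ff_d]
  unfold K42
  rw [← tsum_mul_left]
  have h1 : ∀ v : ℤ × ℤ, ff ((3 + sq) / 2) * ff ((v.1 : ℂ) * tau w0 + v.2)
      = ff ((v.2 : ℂ) * om + ((v.2 - 2 * v.1 : ℤ) : ℂ)) := by
    intro v
    rw [← ff_mul]
    congr 1
    rw [om_eq, t0_eq]
    push_cast
    linear_combination ((v.1 : ℂ) / 12) * sq_sq
  have hs : Summable fun v : ℤ × ℤ => ff ((v.2 : ℂ) * om + ((v.2 - 2 * v.1 : ℤ) : ℂ)) :=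
    ((summable_ff t0_im).mul_left (ff ((3 + sq) / 2))).congr fun v => (h1 v)
  rw [tsum_congr h1, tsum_split2 2 hs, Fin.sum_univ_two]
  unfold cls
  congr 1
  · rw [← eqD.tsum_eq]
    refine tsum_congr fun v => ?_
    simp only [eqD, Equiv.coe_fn_mk, Fin.val_zero, Nat.cast_zero, add_zero]
    congr 1
    push_cast
    ring
  · rw [← eqD.tsum_eq]
    refine tsum_congr fun v => ?_
    simp only [eqD, Equiv.coe_fn_mk, Fin.val_one, Nat.cast_one]
    congr 1
    push_cast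
    ring

end Pool.RV
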