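import Mathlib

/-!
# Cell RV: conversion of S17045 to S17335 (helper23)
-/

set_option autoImplicit false

open Complex MeasureTheory

namespace Pool.RV

/-- the statement of S17045 -/
def StA : Prop :=
    ∀ η : ℝ → ℝ, (∀ q : ℝ, η q = q ^ ((1 : ℝ) / 24) * ∏' n : ℕ, (1 - q ^ (n + 1))) →
      (∫ θ in Set.Icc (0 : Fin 4 → ℝ) 1,
          Real.log ‖1 + ∑ i : Fin 4, Complex.exp (2 * (Real.pi : ℂ) * Complex.I * (θ i : ℂ))‖)
        = (15 / (4 * Real.pi ^ 2)) ^ ((5 : ℝ) / 2) *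
          ∫ t in Set.Ioi (0 : ℝ),
            (η (Real.exp (-3 * t)) ^ 3 * η (Real.exp (-5 * t)) ^ 3
              + η (Real.exp (-t)) ^ 3 * η (Real.exp (-15 * t)) ^ 3) * t ^ 3

lemma ofReal_tprod' (f : ℕ → ℝ) : ((∏' n, f n : ℝ) : ℂ) = ∏' n, (f n : ℂ) :=
  Topology.IsClosedEmbedding.map_tprod (g := Complex.ofRealHom) f
    Complex.isometry_ofReal.isClosedEmbedding

lemma eta_conv {η : ℝ → ℝ} (hη : ∀ q : ℝ, η q = q ^ ((1 : ℝ) / 24) * ∏' n : ℕ, (1 - q ^ (n + 1)))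
    {ζ : ℂ → ℂ} (hζ : ∀ z : ℂ, ζ z = Complex.exp ((Real.pi : ℂ) * Complex.I * z / 12) *
          ∏' n : ℕ, (1 - Complex.exp (2 * (Real.pi : ℂ) * Complex.I * ((n : ℂ) + 1) * z)))
    (s : ℝ) : ζ (Complex.I * (s : ℂ)) = (η (Real.exp (-(2 * Real.pi * s))) : ℂ) := by
  rw [hζ, hη]
  have h1 : Complex.exp ((Real.pi : ℂ) * Complex.I * (Complex.I * (s : ℂ)) / 12)
      = ((Real.exp (-(2 * Real.pi * s)) ^ ((1 : ℝ) / 24) : ℝ) : ℂ) := by
    rw [← Real.exp_mul]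
    push_cast
    congr 1
    linear_combination (Real.pi * s / 12 : ℂ) * Complex.I_sq
  have h2 : ∀ n : ℕ, (1 - Complex.exp (2 * (Real.pi : ℂ) * Complex.I * ((n : ℂ) + 1)
      * (Complex.I * (s : ℂ)))) = ((1 - Real.exp (-(2 * Real.pi * s)) ^ (n + 1) : ℝ) : ℂ) := by
    intro n
    rw [← Real.exp_nat_mul]
    push_cast
    congr 2
    linear_combination (2 * Real.pi * s * ((n : ℂ) + 1)) * Complex.I_sq
  rw [h1, tprod_congr h2, ← ofReal_tprod', ← Complex.ofReal_mul]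

/-- the statement of S17335 follows -/
theorem conv (h : StA) : ∀ η f : ℂ → ℂ,
      (∀ z : ℂ, η z = Complex.exp ((Real.pi : ℂ) * Complex.I * z / 12) *
          ∏' n : ℕ, (1 - Complex.exp (2 * (Real.pi : ℂ) * Complex.I * ((n : ℂ) + 1) * z))) →
      (∀ z : ℂ, f z = (η (3 * z) * η (5 * z)) ^ 3 + (η z * η (15 * z)) ^ 3) →
      (((∫ t in Set.univ.pi (fun _ : Fin 4 => Set.Icc (0 : ℝ) 1),
          Real.log ‖(1 : ℂ) + ∑ j : Fin 4,
            Complex.exp (2 * (Real.pi : ℂ) * Complex.I * ((t j : ℝ) : ℂ))‖) : ℝ) : ℂ)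
        = ((6 * (Real.sqrt 15 / (2 * Real.pi)) ^ 5 : ℝ) : ℂ) *
          (((2 * Real.pi) ^ 4 / Real.Gamma 4 : ℝ) : ℂ) *
            ∫ y in Set.Ioi (0 : ℝ), f (Complex.I * (y : ℂ)) * (y : ℂ) ^ 3 := by
  intro ζ f hζ hf
  set η : ℝ → ℝ := fun q => q ^ ((1 : ℝ) / 24) * ∏' n : ℕ, (1 - q ^ (n + 1)) with hηdef
  have hη : ∀ q : ℝ, η q = q ^ ((1 : ℝ) / 24) * ∏' n : ℕ, (1 - q ^ (n + 1)) := fun q => rfl
  have hA := h η hη
  set F : ℝ → ℝ := fun t => (η (Real.exp (-3 * t)) ^ 3 * η (Real.exp (-5 * t)) ^ 3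
              + η (Real.exp (-t)) ^ 3 * η (Real.exp (-15 * t)) ^ 3) * t ^ 3 with hF
  have hpi := Real.pi_pos
  have hset : Set.univ.pi (fun _ : Fin 4 => Set.Icc (0 : ℝ) 1) = Set.Icc (0 : Fin 4 → ℝ) 1 := by
    rw [← Set.pi_univ_Icc]; rfl
  rw [hset, hA]
  have hint : ∀ y : ℝ, f (Complex.I * (y : ℂ)) * (y : ℂ) ^ 3
      = (((2 * Real.pi) ^ 3)⁻¹ * F (2 * Real.pi * y) : ℝ) := by
    intro y
    have e : ∀ a : ℝ, (a : ℂ) * (Complex.I * (y : ℂ)) = Complex.I * ((a * y : ℝ) : ℂ) := by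
      intro a; push_cast; ring
    have e3 := e 3
    have e5 := e 5
    have e15 := e 15
    push_cast at e3 e5 e15
    rw [hf, e3, e5, e15]
    have g3 := eta_conv hη hζ (3 * y)
    have g5 := eta_conv hη hζ (5 * y)
    have g15 := eta_conv hη hζ (15 * y)
    push_cast at g3 g5 g15
    rw [g3, g5, g15, eta_conv hη hζ y]
    simp only [hF]
    have a3 : -3 * (2 * Real.pi * y) = -(2 * Real.pi * (3 * y)) := by ring
    have a5 : -5 * (2 * Real.pi * y) = -(2 * Real.pi * (5 * y)) := by ring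
    have a15 : -15 * (2 * Real.pi * y) = -(2 * Real.pi * (15 * y)) := by ring
    rw [a3, a5, a15]
    have hpc : (Real.pi : ℂ) ≠ 0 := by exact_mod_cast hpi.ne'
    push_cast
    field_simp
  have hI : (∫ y in Set.Ioi (0 : ℝ), f (Complex.I * (y : ℂ)) * (y : ℂ) ^ 3)
      = (((2 * Real.pi) ^ 4)⁻¹ * ∫ t in Set.Ioi (0 : ℝ), F t : ℝ) := by
    simp_rw [hint]
    refine (integral_ofReal (f := fun y => ((2 * Real.pi) ^ 3)⁻¹ * F (2 * Real.pi * y))).trans ?_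
    congr 1
    rw [integral_const_mul]
    have := integral_comp_mul_left_Ioi F 0 (b := 2 * Real.pi) (by positivity)
    rw [mul_zero] at this
    rw [this, smul_eq_mul, ← mul_assoc]
    congr 1
    field_simp
  rw [hI]
  have hG : Real.Gamma 4 = 6 := by
    have := Real.Gamma_nat_eq_factorial 3
    rw [show (4 : ℝ) = ((3 : ℕ) : ℝ) + 1 by norm_num, this]
    norm_num [Nat.factorial]
  rw [hG]
  have hs : Real.sqrt 15 ^ 2 = 15 := Real.sq_sqrt (by norm_num)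
  have h52 : (15 / (4 * Real.pi ^ 2)) ^ ((5 : ℝ) / 2) = (Real.sqrt 15 / (2 * Real.pi)) ^ 5 := by
    have hb : (15 / (4 * Real.pi ^ 2)) = (Real.sqrt 15 / (2 * Real.pi)) ^ (2 : ℝ) := by
      rw [Real.rpow_two, div_pow, hs]; ring
    rw [hb, ← Real.rpow_mul (by positivity)]
    rw [← Real.rpow_natCast]
    norm_num
  rw [h52, ← Complex.ofReal_mul, ← Complex.ofReal_mul]
  congr 1
  field_simp

end Pool.RV
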