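import Pool.Agent.Work.MP_5955e5_nt.B.Asm
import Pool.Agent.Work.MP_5955e5_nt.BlockD

/-!
# Cell RV: final assembly from the block outputs (captain helper23)
-/

set_option autoImplicit false

open Complex MeasureTheory Filter Topology

namespace Pool.RV

theorem final_of
    -- block (a)
    (ha : (∫ θ in Set.Icc (0 : Fin 4 → ℝ) 1,
        Real.log ‖1 + ∑ i : Fin 4, Complex.exp (2 * (Real.pi : ℂ) * Complex.I * (θ i : ℂ))‖)
      = 7 * zeta3 / (2 * Real.pi ^ 2) + 96 * ∫ u in Set.Ioi w0, u * eqs u * lxq u)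
    -- block (e)
    (he1 : ∀ w : ℝ, 0 < w → ee w = eqs w) (he2 : ∀ w : ℝ, 0 < w → lx w = lxq w)
    (he3 : lxq w0 = 0)
    -- block (b6)
    (hb6 : ∃ D : ℂ, Tendsto (fun w : ℝ => Psi w - D * (w : ℂ) ^ 3) atTop
      (𝓝 ((7 * Real.pi ^ 3 / 36 * zeta3 : ℝ) : ℂ)))
    -- block (c)
    (hc : Tplus w0 = 477 / 16 * KO - 205 / 48 * KL) :
    ∀ η : ℝ → ℝ,
      (∀ q : ℝ, η q = q ^ ((1 : ℝ) / 24) * ∏' n : ℕ, (1 - q ^ (n + 1))) →
      (∫ θ in Set.Icc (0 : Fin 4 → ℝ) 1,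
          Real.log ‖1 + ∑ i : Fin 4, Complex.exp (2 * (Real.pi : ℂ) * Complex.I * (θ i : ℂ))‖)
        = (15 / (4 * Real.pi ^ 2)) ^ ((5 : ℝ) / 2) *
          ∫ t in Set.Ioi (0 : ℝ),
            (η (Real.exp (-3 * t)) ^ 3 * η (Real.exp (-5 * t)) ^ 3
              + η (Real.exp (-t)) ^ 3 * η (Real.exp (-15 * t)) ^ 3) * t ^ 3 := by
  intro η hη
  rw [block_d1 η hη, ha]
  have hpi : Real.pi ≠ 0 := Real.pi_ne_zero
  have hw0 : 0 < w0 := w0_pos
  have hlx : lx w0 = 0 := by rw [he2 w0 hw0, he3]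
  have hfun : ∀ u ∈ Set.Ioi w0, u * ee u * lx u = u * eqs u * lxq u := by
    intro u hu
    have hu' : w0 < u := hu
    rw [he1 u (hw0.trans hu'), he2 u (hw0.trans hu')]
  have hint : IntegrableOn (fun u => u * ee u * lx u) (Set.Ioi w0) :=
    (integrableOn_eqs_lxq hw0).congr_fun (fun u hu => (hfun u hu).symm) measurableSet_Ioi
  have hb := block_b_of hb6 hint hlx
  have hJJ : (∫ u in Set.Ioi w0, u * ee u * lx u) = ∫ u in Set.Ioi w0, u * eqs u * lxq u :=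
    setIntegral_congr_fun measurableSet_Ioi hfun
  rw [hJJ] at hb
  set J := ∫ u in Set.Ioi w0, u * eqs u * lxq u with hJ
  rw [hc, block_c1a, block_c1b] at hb
  have hKL : K 4 2 (0, 0) w0 = KL := rfl
  rw [hKL] at hb
  have key : ((w0 : ℂ) ^ 3) * (135 / 8 * KO - 5 / 8 * KL)
      = ((16 * Real.pi ^ 5 / 3 * J + 7 * Real.pi ^ 3 / 36 * zeta3 : ℝ) : ℂ) := by
    push_cast
    push_cast at hb
    linear_combination hb
  rw [block_d2] at key
  have key2 : w0 ^ 3 * (138240 * (SabS 3 5 + SabS 1 15))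
      = 16 * Real.pi ^ 5 / 3 * J + 7 * Real.pi ^ 3 / 36 * zeta3 := by
    exact_mod_cast key
  have hJ' : 7 * zeta3 / (2 * Real.pi ^ 2) + 96 * J
      = 18 / Real.pi ^ 5 * (16 * Real.pi ^ 5 / 3 * J + 7 * Real.pi ^ 3 / 36 * zeta3) := by
    field_simp
    ring
  rw [hJ', ← key2]
  have hs : Real.sqrt 15 ^ 2 = 15 := Real.sq_sqrt (by norm_num)
  have h52 : (15 : ℝ) ^ ((5 : ℝ) / 2) = 225 * Real.sqrt 15 := by
    rw [show (5 : ℝ) / 2 = 2 + 1 / 2 by norm_num, Real.rpow_add (by norm_num), ← Real.sqrt_eq_rpow]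
    norm_num
  have hw3 : w0 ^ 3 = 15 * Real.sqrt 15 / 216 := by
    rw [w0, div_pow, pow_succ, hs]; norm_num
  rw [h52, hw3]
  field_simp
  ring

end Pool.RV
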