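import Mathlib

/-!
# Ramanujan's elementary identity for Lambert series (helper85)

With `u_n = q^n/(1-q^n)` the relation `u_n u_m = u_{n+m}(1+u_n+u_m)` gives, for every real `θ`
with `cos θ ≠ 1`, the square of `A = ∑ n u_n (1 - cos nθ)` as a weight four Lambert series, and
`Q = P² - 12 θP`.
-/

namespace RV85

open scoped BigOperators Topology
open Filter Finset

noncomputable section

/-- `u_n = q^n/(1-q^n)` -/
def uu (q : ℂ) (n : ℕ) : ℂ := q ^ n / (1 - q ^ n)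

@[simp] lemma uu_zero (q : ℂ) : uu q 0 = 0 := by simp [uu]

lemma one_sub_pow_ne {q : ℂ} (hq : ‖q‖ < 1) {n : ℕ} (hn : n ≠ 0) : (1 - q ^ n) ≠ 0 := by
  intro h
  have h1 : ‖q ^ n‖ = 1 := by
    have : q ^ n = 1 := by linear_combination -h
    rw [this, norm_one]
  rw [norm_pow] at h1
  have := pow_lt_one₀ (norm_nonneg q) hq hn
  linarith

lemma uu_mul {q : ℂ} (hq : ‖q‖ < 1) {n m : ℕ} (hn : n ≠ 0) (hm : m ≠ 0) :
    uu q n * uu q m = uu q (n + m) * (1 + uu q n + uu q m) := by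
  have h1 := one_sub_pow_ne hq hn
  have h2 := one_sub_pow_ne hq hm
  have h3 := one_sub_pow_ne hq (n := n + m) (by omega)
  unfold uu
  rw [pow_add] at h3 ⊢
  field_simp
  ring

lemma norm_uu_le {q : ℂ} (hq : ‖q‖ < 1) (n : ℕ) :
    ‖uu q n‖ ≤ (1 - ‖q‖)⁻¹ * ‖q‖ ^ n := by
  have hq0 : 0 < 1 - ‖q‖ := by linarith
  rcases Nat.eq_zero_or_pos n with rfl | hn
  · simp [hq0.le]
  · unfold uu
    rw [norm_div, norm_pow, div_eq_inv_mul]
    have h1 : 1 - ‖q‖ ≤ ‖1 - q ^ n‖ := by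
      have h2 : ‖(1:ℂ)‖ - ‖q ^ n‖ ≤ ‖1 - q ^ n‖ := norm_sub_norm_le _ _
      rw [norm_one, norm_pow] at h2
      have h3 : ‖q‖ ^ n ≤ ‖q‖ := pow_le_of_le_one (norm_nonneg _) hq.le (by omega)
      linarith
    exact mul_le_mul_of_nonneg_right (inv_anti₀ hq0 h1) (by positivity)

/-! ### summability -/

lemma summable_pow_geom {r : ℝ} (hr0 : 0 ≤ r) (hr : r < 1) (a : ℕ) :
    Summable fun n : ℕ => (n : ℝ) ^ a * r ^ n :=
  summable_pow_mul_geometric_of_norm_lt_one a (by rwa [Real.norm_of_nonneg hr0])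

lemma summable_two {r : ℝ} (hr0 : 0 ≤ r) (hr : r < 1) (a b : ℕ) :
    Summable fun p : ℕ × ℕ => ((p.1 : ℝ) ^ a * r ^ p.1) * ((p.2 : ℝ) ^ b * r ^ p.2) :=
  (summable_pow_geom hr0 hr a).mul_of_nonneg (summable_pow_geom hr0 hr b)
    (fun n => by positivity) (fun n => by positivity)

lemma summable_uu {q : ℂ} (hq : ‖q‖ < 1) (a : ℕ) {φ : ℕ → ℂ} (hφ : ∀ n, ‖φ n‖ ≤ 1) :
    Summable fun n : ℕ => (n : ℂ) ^ a * φ n * uu q n := by
  refine Summable.of_norm_bounded (g := fun n : ℕ => (1 - ‖q‖)⁻¹ * ((n : ℝ) ^ a * ‖q‖ ^ n))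
    ((summable_pow_geom (norm_nonneg q) hq a).mul_left _) fun n => ?_
  rw [norm_mul, norm_mul, norm_pow, Complex.norm_natCast]
  have h1 := norm_uu_le hq n
  have h2 := hφ n
  calc (n:ℝ) ^ a * ‖φ n‖ * ‖uu q n‖ ≤ (n:ℝ) ^ a * 1 * ((1 - ‖q‖)⁻¹ * ‖q‖ ^ n) := by
        gcongr
    _ = (1 - ‖q‖)⁻¹ * ((n : ℝ) ^ a * ‖q‖ ^ n) := by ring

lemma summable_norm_uu {q : ℂ} (hq : ‖q‖ < 1) (a : ℕ) {φ : ℕ → ℂ} (hφ : ∀ n, ‖φ n‖ ≤ 1) :
    Summable fun n : ℕ => ‖(n : ℂ) ^ a * φ n * uu q n‖ := (summable_uu hq a hφ).norm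

/-! ### rearrangements of double sums -/

lemma tsum_antidiag (F : ℕ × ℕ → ℂ) (hF : Summable F) :
    ∑' p, F p = ∑' k, ∑ p ∈ antidiagonal k, F p := by
  rw [← (HasAntidiagonal.sigmaAntidiagonalEquivProd (A := ℕ)).tsum_eq F]
  have hs : Summable (fun c => F (HasAntidiagonal.sigmaAntidiagonalEquivProd (A := ℕ) c)) :=
    (HasAntidiagonal.sigmaAntidiagonalEquivProd (A := ℕ)).summable_iff.mpr hF
  rw [Summable.tsum_sigma' (fun k => (hasSum_fintype _).summable) hs]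
  refine tsum_congr fun k => ?_
  rw [tsum_fintype]
  exact Finset.sum_coe_sort (antidiagonal k) F

lemma tsum_tri (H : ℕ × ℕ → ℂ) (hH : Summable H) :
    ∑' p, H p = ∑' p : ℕ × ℕ, H (p.1 + p.2, p.1) + ∑' p : ℕ × ℕ, H (p.1, p.1 + p.2)
      - ∑' n, H (n, n) := by
  classical
  have e1 : Function.Injective (fun p : ℕ × ℕ => (p.1 + p.2, p.1)) := by
    rintro ⟨a, b⟩ ⟨c, d⟩ h
    simp only [Prod.mk.injEq] at h ⊢
    omega
  have e2 : Function.Injective (fun p : ℕ × ℕ => (p.1, p.1 + p.2)) := by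
    rintro ⟨a, b⟩ ⟨c, d⟩ h
    simp only [Prod.mk.injEq] at h ⊢
    omega
  have e3 : Function.Injective (fun n : ℕ => ((n, n) : ℕ × ℕ)) := by
    intro a b h
    simpa using h
  set H1 : ℕ × ℕ → ℂ := fun p => if p.2 ≤ p.1 then H p else 0 with hH1
  set H2 : ℕ × ℕ → ℂ := fun p => if p.1 ≤ p.2 then H p else 0 with hH2
  set H3 : ℕ × ℕ → ℂ := fun p => if p.1 = p.2 then H p else 0 with hH3
  have s1 : Summable H1 := Summable.of_norm_bounded hH.norm fun p => by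
    simp only [hH1]; split_ifs <;> simp
  have s2 : Summable H2 := Summable.of_norm_bounded hH.norm fun p => by
    simp only [hH2]; split_ifs <;> simp
  have s3 : Summable H3 := Summable.of_norm_bounded hH.norm fun p => by
    simp only [hH3]; split_ifs <;> simp
  have t1 : ∑' p : ℕ × ℕ, H (p.1 + p.2, p.1) = ∑' p, H1 p := by
    rw [← e1.tsum_eq (f := H1)]
    · refine tsum_congr fun p => ?_
      simp [hH1]
    · rintro ⟨a, b⟩ h
      simp only [hH1, Function.mem_support, ne_eq, ite_eq_right_iff, Classical.not_imp] at h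
      exact ⟨(b, a - b), by simp; omega⟩
  have t2 : ∑' p : ℕ × ℕ, H (p.1, p.1 + p.2) = ∑' p, H2 p := by
    rw [← e2.tsum_eq (f := H2)]
    · refine tsum_congr fun p => ?_
      simp [hH2]
    · rintro ⟨a, b⟩ h
      simp only [hH2, Function.mem_support, ne_eq, ite_eq_right_iff, Classical.not_imp] at h
      exact ⟨(a, b - a), by simp; omega⟩
  have t3 : ∑' n : ℕ, H (n, n) = ∑' p, H3 p := by
    rw [← e3.tsum_eq (f := H3)]
    · refine tsum_congr fun p => ?_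
      simp [hH3]
    · rintro ⟨a, b⟩ h
      simp only [hH3, Function.mem_support, ne_eq, ite_eq_right_iff, Classical.not_imp] at h
      exact ⟨a, by simp [h.1]⟩
  rw [t1, t2, t3, ← s1.tsum_add s2, ← (s1.add s2).tsum_sub s3]
  refine tsum_congr fun p => ?_
  simp only [hH1, hH2, hH3]
  rcases lt_trichotomy p.1 p.2 with h | h | h
  · simp [h.le, h.ne, not_le.mpr h]
  · simp [h]
  · simp [h.le, h.ne', not_le.mpr h]

/-! ### the main rearrangement -/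

/-- `∑ n^a φ(n) u_n` -/
def SS (q : ℂ) (a : ℕ) (φ : ℕ → ℂ) : ℂ := ∑' n : ℕ, (n : ℂ) ^ a * φ n * uu q n

/-- `Y(φ) = ∑_{n,m} n m φ(n+m) u_{n+m} u_n` -/
def YY (q : ℂ) (φ : ℕ → ℂ) : ℂ :=
  ∑' p : ℕ × ℕ, (p.1 : ℂ) * p.2 * φ (p.1 + p.2) * uu q (p.1 + p.2) * uu q p.1

lemma sum_antidiag_mul (k : ℕ) :
    ∑ p ∈ antidiagonal k, (p.1 : ℂ) * p.2 = ((k : ℂ) ^ 3 - k) / 6 := by
  rw [Finset.Nat.sum_antidiagonal_eq_sum_range_succ (fun a b => (a : ℂ) * b)]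
  have : ∀ j : ℕ, ∑ i ∈ range (j + 1), (i : ℂ) * ((k : ℂ) - i) =
      (k : ℂ) * (j * (j + 1) / 2) - j * (j + 1) * (2 * j + 1) / 6 := by
    intro j
    induction j with
    | zero => simp
    | succ j ih => rw [sum_range_succ, ih]; push_cast; ring
  rw [Finset.sum_congr rfl (g := fun i : ℕ => (i : ℂ) * ((k : ℂ) - i)), this k]
  · ring
  · intro i hi
    rw [Nat.cast_sub (by simpa using Nat.lt_succ_iff.mp (mem_range.mp hi))]


lemma tsum_ind (f : ℕ → ℂ) :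
    ∑' p : ℕ × ℕ, (if p.2 = 0 then f p.1 else 0) = ∑' m, f m := by
  have e : Function.Injective (fun n : ℕ => ((n, 0) : ℕ × ℕ)) := by
    intro a b h; simpa using h
  rw [← e.tsum_eq (f := fun p : ℕ × ℕ => if p.2 = 0 then f p.1 else 0)]
  · simp
  · rintro ⟨a, b⟩ h
    simp only [Function.mem_support, ne_eq, ite_eq_right_iff, Classical.not_imp] at h
    exact ⟨a, by simp [h.1]⟩


lemma summable_ind {f : ℕ → ℂ} (hf : Summable f) :
    Summable fun p : ℕ × ℕ => (if p.2 = 0 then f p.1 else 0) := by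
  have e : Function.Injective (fun n : ℕ => ((n, 0) : ℕ × ℕ)) := by
    intro a b h; simpa using h
  rw [← e.summable_iff]
  · simpa [Function.comp_def] using hf
  · rintro ⟨a, b⟩ h
    have : b ≠ 0 := by
      rintro rfl
      exact h ⟨a, rfl⟩
    simp [this]


/-- the constant function `1` -/
def on : ℕ → ℂ := fun _ => 1

@[simp] lemma on_apply (n : ℕ) : on n = 1 := rfl

lemma norm_on (n : ℕ) : ‖on n‖ ≤ 1 := by simp

lemma prod_sum {f g : ℕ → ℂ} (hf : Summable fun n => ‖f n‖) (hg : Summable fun n => ‖g n‖) :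
    (Summable fun p : ℕ × ℕ => f p.1 * g p.2) ∧
      ∑' p : ℕ × ℕ, f p.1 * g p.2 = (∑' n, f n) * ∑' n, g n :=
  ⟨summable_mul_of_summable_norm hf hg, (tsum_mul_tsum_of_summable_norm hf hg).symm⟩

section main

variable {q : ℂ} (hq : ‖q‖ < 1) {φ : ℕ → ℂ} (hφ : ∀ n, ‖φ n‖ ≤ 1)

include hq hφ

lemma summable_dom (F : ℕ × ℕ → ℂ) (C : ℝ) (a b c d : ℕ)
    (h : ∀ p, ‖F p‖ ≤ C * ((p.1 : ℝ) ^ a * (p.2 : ℝ) ^ b + (p.1 : ℝ) ^ c * (p.2 : ℝ) ^ d) *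
      ‖q‖ ^ (p.1 + p.2)) : Summable F := by
  have s1 := summable_two (norm_nonneg q) hq a b
  have s2 := summable_two (norm_nonneg q) hq c d
  refine Summable.of_norm_bounded ((s1.add s2).mul_left C) fun p => (h p).trans (le_of_eq ?_)
  rw [pow_add]; ring

lemma summable_F1 : Summable fun p : ℕ × ℕ =>
    (p.1 : ℂ) * p.2 * φ (p.1 + p.2) * uu q (p.1 + p.2) := by
  refine summable_dom hq hφ _ ((1 - ‖q‖)⁻¹) 1 1 0 0 fun p => ?_
  have h0 : 0 ≤ (1 - ‖q‖)⁻¹ := inv_nonneg.mpr (by linarith)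
  rw [norm_mul, norm_mul, norm_mul, Complex.norm_natCast, Complex.norm_natCast]
  calc (p.1 : ℝ) * p.2 * ‖φ (p.1 + p.2)‖ * ‖uu q (p.1 + p.2)‖
      ≤ (p.1 : ℝ) * p.2 * 1 * ((1 - ‖q‖)⁻¹ * ‖q‖ ^ (p.1 + p.2)) := by
        gcongr
        · exact hφ _
        · exact norm_uu_le hq _
    _ ≤ _ := by
        have : 0 ≤ (1 - ‖q‖)⁻¹ * ‖q‖ ^ (p.1 + p.2) := by positivity
        nlinarith

lemma summable_Y : Summable fun p : ℕ × ℕ =>
    (p.1 : ℂ) * p.2 * φ (p.1 + p.2) * uu q (p.1 + p.2) * uu q p.1 := by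
  refine summable_dom hq hφ _ ((1 - ‖q‖)⁻¹ * (1 - ‖q‖)⁻¹) 1 1 0 0 fun p => ?_
  have h0 : 0 ≤ (1 - ‖q‖)⁻¹ := inv_nonneg.mpr (by linarith)
  rw [norm_mul, norm_mul, norm_mul, norm_mul, Complex.norm_natCast, Complex.norm_natCast]
  calc (p.1 : ℝ) * p.2 * ‖φ (p.1 + p.2)‖ * ‖uu q (p.1 + p.2)‖ * ‖uu q p.1‖
      ≤ (p.1 : ℝ) * p.2 * 1 * ((1 - ‖q‖)⁻¹ * ‖q‖ ^ (p.1 + p.2)) *
          ((1 - ‖q‖)⁻¹ * ‖q‖ ^ p.1) := by
        gcongr
        · exact hφ _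
        · exact norm_uu_le hq _
        · exact norm_uu_le hq _
    _ ≤ (p.1 : ℝ) * p.2 * 1 * ((1 - ‖q‖)⁻¹ * ‖q‖ ^ (p.1 + p.2)) *
          ((1 - ‖q‖)⁻¹ * 1) := by
        gcongr
        exact pow_le_one₀ (norm_nonneg _) hq.le
    _ ≤ _ := by
        have : 0 ≤ (1 - ‖q‖)⁻¹ * (1 - ‖q‖)⁻¹ * ‖q‖ ^ (p.1 + p.2) := by positivity
        nlinarith

lemma summable_B : Summable fun p : ℕ × ℕ =>
    (p.1 : ℂ) * (p.1 + p.2) * φ p.2 * uu q p.2 * uu q (p.1 + p.2) := by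
  refine summable_dom hq hφ _ ((1 - ‖q‖)⁻¹ * (1 - ‖q‖)⁻¹) 2 0 1 1 fun p => ?_
  have h0 : 0 ≤ (1 - ‖q‖)⁻¹ := inv_nonneg.mpr (by linarith)
  rw [norm_mul, norm_mul, norm_mul, norm_mul, Complex.norm_natCast, ← Nat.cast_add,
    Complex.norm_natCast]
  calc (p.1 : ℝ) * (p.1 + p.2 : ℕ) * ‖φ p.2‖ * ‖uu q p.2‖ * ‖uu q (p.1 + p.2)‖
      ≤ (p.1 : ℝ) * (p.1 + p.2 : ℕ) * 1 * ((1 - ‖q‖)⁻¹ * ‖q‖ ^ p.2) *
          ((1 - ‖q‖)⁻¹ * ‖q‖ ^ (p.1 + p.2)) := by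
        gcongr
        · exact hφ _
        · exact norm_uu_le hq _
        · exact norm_uu_le hq _
    _ ≤ (p.1 : ℝ) * (p.1 + p.2 : ℕ) * 1 * ((1 - ‖q‖)⁻¹ * 1) *
          ((1 - ‖q‖)⁻¹ * ‖q‖ ^ (p.1 + p.2)) := by
        gcongr
        exact pow_le_one₀ (norm_nonneg _) hq.le
    _ = _ := by push_cast; ring

lemma summable_C : Summable fun p : ℕ × ℕ =>
    (p.1 : ℂ) * (p.1 + p.2) * φ p.2 * uu q (p.1 + p.2) := by
  refine summable_dom hq hφ _ ((1 - ‖q‖)⁻¹) 2 0 1 1 fun p => ?_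
  have h0 : 0 ≤ (1 - ‖q‖)⁻¹ := inv_nonneg.mpr (by linarith)
  rw [norm_mul, norm_mul, norm_mul, Complex.norm_natCast, ← Nat.cast_add,
    Complex.norm_natCast]
  calc (p.1 : ℝ) * (p.1 + p.2 : ℕ) * ‖φ p.2‖ * ‖uu q (p.1 + p.2)‖
      ≤ (p.1 : ℝ) * (p.1 + p.2 : ℕ) * 1 * ((1 - ‖q‖)⁻¹ * ‖q‖ ^ (p.1 + p.2)) := by
        gcongr
        · exact hφ _
        · exact norm_uu_le hq _
    _ = _ := by push_cast; ring

lemma F1_eq : ∑' p : ℕ × ℕ, (p.1 : ℂ) * p.2 * φ (p.1 + p.2) * uu q (p.1 + p.2) =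
    (SS q 3 φ - SS q 1 φ) / 6 := by
  rw [tsum_antidiag _ (summable_F1 hq hφ)]
  unfold SS
  rw [← (summable_uu hq 3 hφ).tsum_sub (summable_uu hq 1 hφ), ← tsum_div_const]
  refine tsum_congr fun k => ?_
  have : ∀ p ∈ antidiagonal k, (p.1 : ℂ) * p.2 * φ (p.1 + p.2) * uu q (p.1 + p.2) =
      ((p.1 : ℂ) * p.2) * (φ k * uu q k) := by
    intro p hp
    rw [mem_antidiagonal.mp hp]; ring
  rw [Finset.sum_congr rfl this, ← Finset.sum_mul, sum_antidiag_mul]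
  ring

lemma S2_eq : ∑' p : ℕ × ℕ, (p.1 : ℂ) * p.2 * φ (p.1 + p.2) * (uu q p.1 * uu q p.2) =
    (SS q 3 φ - SS q 1 φ) / 6 + 2 * YY q φ := by
  have hY := summable_Y hq hφ
  have hY' : Summable fun p : ℕ × ℕ =>
      (p.1 : ℂ) * p.2 * φ (p.1 + p.2) * uu q (p.1 + p.2) * uu q p.2 := by
    rw [← (Equiv.prodComm ℕ ℕ).summable_iff]
    refine hY.congr fun p => ?_
    simp only [Function.comp, Equiv.prodComm_apply, Prod.fst_swap, Prod.snd_swap]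
    rw [add_comm p.2 p.1]; ring
  have e : ∑' p : ℕ × ℕ, (p.1 : ℂ) * p.2 * φ (p.1 + p.2) * uu q (p.1 + p.2) * uu q p.2 =
      YY q φ := by
    rw [← (Equiv.prodComm ℕ ℕ).tsum_eq]
    refine tsum_congr fun p => ?_
    simp only [Equiv.prodComm_apply, Prod.fst_swap, Prod.snd_swap]
    rw [add_comm p.2 p.1]; ring
  rw [two_mul]
  nth_rw 2 [← e]
  rw [← F1_eq hq hφ, YY, ← hY.tsum_add hY', ← (summable_F1 hq hφ).tsum_add (hY.add hY')]
  refine tsum_congr fun p => ?_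
  rcases Nat.eq_zero_or_pos p.1 with h1 | h1
  · simp [h1]
  rcases Nat.eq_zero_or_pos p.2 with h2 | h2
  · simp [h2]
  rw [uu_mul hq h1.ne' h2.ne']
  ring

/-- the second rearrangement -/
lemma B_eq : ∑' p : ℕ × ℕ, (p.1 : ℂ) * (p.1 + p.2) * φ p.2 * uu q p.2 * uu q (p.1 + p.2) =
    SS q 0 φ * SS q 2 on - SS q 1 φ * SS q 1 on + YY q φ := by
  obtain ⟨sH1, tH1⟩ := prod_sum (summable_norm_uu hq 0 hφ) (summable_norm_uu hq 2 norm_on)
  obtain ⟨sH2, tH2⟩ := prod_sum (summable_norm_uu hq 1 hφ) (summable_norm_uu hq 1 norm_on)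
  have sH := sH1.sub sH2
  have tri := tsum_tri _ sH
  rw [sH1.tsum_sub sH2, tH1, tH2] at tri
  have e1 : ∑' p : ℕ × ℕ, ((((p.1 + p.2 : ℕ) : ℂ) ^ 0 * φ (p.1 + p.2) * uu q (p.1 + p.2)) *
      ((p.1 : ℂ) ^ 2 * on p.1 * uu q p.1) -
      (((p.1 + p.2 : ℕ) : ℂ) ^ 1 * φ (p.1 + p.2) * uu q (p.1 + p.2)) *
      ((p.1 : ℂ) ^ 1 * on p.1 * uu q p.1)) = - YY q φ := by
    rw [YY, ← tsum_neg]
    refine tsum_congr fun p => ?_
    rw [on_apply]; push_cast; ring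
  have e2 : ∑' p : ℕ × ℕ, (((p.1 : ℂ) ^ 0 * φ p.1 * uu q p.1) *
      (((p.1 + p.2 : ℕ) : ℂ) ^ 2 * on (p.1 + p.2) * uu q (p.1 + p.2)) -
      ((p.1 : ℂ) ^ 1 * φ p.1 * uu q p.1) *
      (((p.1 + p.2 : ℕ) : ℂ) ^ 1 * on (p.1 + p.2) * uu q (p.1 + p.2))) =
      ∑' p : ℕ × ℕ, (p.1 : ℂ) * (p.1 + p.2) * φ p.2 * uu q p.2 * uu q (p.1 + p.2) := by
    rw [← (Equiv.prodComm ℕ ℕ).tsum_eq]
    refine tsum_congr fun p => ?_
    simp only [Equiv.prodComm_apply, Prod.fst_swap, Prod.snd_swap, on_apply]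
    rw [add_comm p.2 p.1]; push_cast; ring
  have e3 : ∑' n : ℕ, (((n : ℂ) ^ 0 * φ n * uu q n) * ((n : ℂ) ^ 2 * on n * uu q n) -
      ((n : ℂ) ^ 1 * φ n * uu q n) * ((n : ℂ) ^ 1 * on n * uu q n)) = 0 := by
    refine (tsum_congr (g := fun _ : ℕ => (0 : ℂ)) fun p => ?_).trans tsum_zero
    rw [on_apply]; ring
  rw [e1, e2, e3] at tri
  unfold SS
  linear_combination -tri

/-- `Z(φ) = ∑_{m,k} m (m+k) φ(k) u_{m+k}` -/
def ZZ (q : ℂ) (φ : ℕ → ℂ) : ℂ :=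
  ∑' p : ℕ × ℕ, (p.1 : ℂ) * (p.1 + p.2) * φ p.2 * uu q (p.1 + p.2)

/-- `∑ m² u_m²` -/
def U2 (q : ℂ) : ℂ := ∑' m : ℕ, (m : ℂ) ^ 2 * (uu q m) ^ 2

omit hφ in
lemma summable_U2 : Summable fun m : ℕ => (m : ℂ) ^ 2 * (uu q m) ^ 2 := by
  have h0 : 0 ≤ (1 - ‖q‖)⁻¹ := inv_nonneg.mpr (by linarith)
  refine Summable.of_norm_bounded
    (g := fun n : ℕ => (1 - ‖q‖)⁻¹ * (1 - ‖q‖)⁻¹ * ((n : ℝ) ^ 2 * ‖q‖ ^ n))
    ((summable_pow_geom (norm_nonneg q) hq 2).mul_left _) fun n => ?_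
  rw [norm_mul, norm_pow, norm_pow, Complex.norm_natCast]
  have h1 := norm_uu_le hq n
  have h2 : (1 - ‖q‖)⁻¹ * ‖q‖ ^ n ≤ (1 - ‖q‖)⁻¹ * 1 := by
    gcongr
    exact pow_le_one₀ (norm_nonneg _) hq.le
  calc (n:ℝ) ^ 2 * ‖uu q n‖ ^ 2 = (n:ℝ) ^ 2 * (‖uu q n‖ * ‖uu q n‖) := by ring
    _ ≤ (n:ℝ) ^ 2 * (((1 - ‖q‖)⁻¹ * ‖q‖ ^ n) * ((1 - ‖q‖)⁻¹ * 1)) := by
        gcongr
        exact h1.trans h2
    _ = _ := by ring

lemma G_eq : ∑' p : ℕ × ℕ, (p.1 : ℂ) * (p.1 + p.2) * φ p.2 * (uu q p.1 * uu q (p.1 + p.2)) =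
    2 * SS q 1 on * SS q 1 φ - YY q φ - ZZ q φ + φ 0 * (U2 q + SS q 2 on) := by
  obtain ⟨sH1, tH1⟩ := prod_sum (summable_norm_uu hq 2 norm_on) (summable_norm_uu hq 0 hφ)
  obtain ⟨sH2, tH2⟩ := prod_sum (summable_norm_uu hq 1 norm_on) (summable_norm_uu hq 1 hφ)
  have sB := summable_B hq hφ
  have sC := summable_C hq hφ
  have sI0 := ((summable_U2 hq).add (summable_uu hq 2 norm_on)).mul_left (φ 0)
  have sI := summable_ind (f := fun m : ℕ => φ 0 * ((m : ℂ) ^ 2 * (uu q m) ^ 2 +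
      (m : ℂ) ^ 2 * on m * uu q m)) sI0
  have tI := tsum_ind (fun m : ℕ => φ 0 * ((m : ℂ) ^ 2 * (uu q m) ^ 2 +
      (m : ℂ) ^ 2 * on m * uu q m))
  rw [tsum_mul_left, (summable_U2 hq).tsum_add (summable_uu hq 2 norm_on)] at tI
  have key : ∑' p : ℕ × ℕ, (p.1 : ℂ) * (p.1 + p.2) * φ p.2 * (uu q p.1 * uu q (p.1 + p.2)) =
      SS q 2 on * SS q 0 φ + SS q 1 on * SS q 1 φ
      - (SS q 0 φ * SS q 2 on - SS q 1 φ * SS q 1 on + YY q φ) - ZZ q φ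
      + φ 0 * (U2 q + SS q 2 on) := by
    rw [← B_eq hq hφ]
    unfold SS U2 ZZ
    rw [← tI, ← tH1, ← tH2, ← sH1.tsum_add sH2, ← (sH1.add sH2).tsum_sub sB,
      ← ((sH1.add sH2).sub sB).tsum_sub sC, ← (((sH1.add sH2).sub sB).sub sC).tsum_add sI]
    refine tsum_congr fun p => ?_
    rw [on_apply]
    rcases Nat.eq_zero_or_pos p.1 with h1 | h1
    · simp [h1]
    rcases Nat.eq_zero_or_pos p.2 with h2 | h2
    · simp [h2]; ring
    rw [if_neg h2.ne']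
    have := uu_mul hq h1.ne' h2.ne'
    linear_combination (-(p.1 : ℂ) * (p.1 + p.2) * φ p.2) * this
  rw [key]; ring

/-- **The main rearrangement.** For `Φ(m+k,m) = Φ(m,m+k) = φ(k)`. -/
theorem main_identity {Φ : ℕ × ℕ → ℂ} (hΦ1 : ∀ m k, Φ (m + k, m) = φ k)
    (hΦ2 : ∀ m k, Φ (m, m + k) = φ k) (hΦ : ∀ p, ‖Φ p‖ ≤ 1) :
    ∑' p : ℕ × ℕ, (p.1 : ℂ) * p.2 * (φ (p.1 + p.2) + Φ p) * (uu q p.1 * uu q p.2) =
      (SS q 3 φ - SS q 1 φ) / 6 + 4 * SS q 1 on * SS q 1 φ - 2 * ZZ q φ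
        + φ 0 * (U2 q + 2 * SS q 2 on) := by
  obtain ⟨sP, -⟩ := prod_sum (summable_norm_uu hq 1 norm_on) (summable_norm_uu hq 1 norm_on)
  have s1 : Summable fun p : ℕ × ℕ =>
      (p.1 : ℂ) * p.2 * φ (p.1 + p.2) * (uu q p.1 * uu q p.2) := by
    refine Summable.of_norm_bounded sP.norm fun p => ?_
    rw [on_apply, on_apply, norm_mul, norm_mul, norm_mul, norm_mul, norm_mul, norm_mul, norm_mul,
      norm_mul, norm_mul, norm_one, pow_one, pow_one]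
    have := hφ (p.1 + p.2)
    calc ‖(p.1 : ℂ)‖ * ‖(p.2 : ℂ)‖ * ‖φ (p.1 + p.2)‖ * (‖uu q p.1‖ * ‖uu q p.2‖)
        ≤ ‖(p.1 : ℂ)‖ * ‖(p.2 : ℂ)‖ * 1 * (‖uu q p.1‖ * ‖uu q p.2‖) := by gcongr
      _ = _ := by ring
  have s2 : Summable fun p : ℕ × ℕ =>
      (p.1 : ℂ) * p.2 * Φ p * (uu q p.1 * uu q p.2) := by
    refine Summable.of_norm_bounded sP.norm fun p => ?_
    rw [on_apply, on_apply, norm_mul, norm_mul, norm_mul, norm_mul, norm_mul, norm_mul, norm_mul,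
      norm_mul, norm_mul, norm_one, pow_one, pow_one]
    have := hΦ p
    calc ‖(p.1 : ℂ)‖ * ‖(p.2 : ℂ)‖ * ‖Φ p‖ * (‖uu q p.1‖ * ‖uu q p.2‖)
        ≤ ‖(p.1 : ℂ)‖ * ‖(p.2 : ℂ)‖ * 1 * (‖uu q p.1‖ * ‖uu q p.2‖) := by gcongr
      _ = _ := by ring
  have tri := tsum_tri _ s2
  have e1 : ∑' p : ℕ × ℕ, (((p.1 + p.2 : ℕ) : ℂ)) * p.1 * Φ (p.1 + p.2, p.1) *
      (uu q (p.1 + p.2) * uu q p.1) =
      ∑' p : ℕ × ℕ, (p.1 : ℂ) * (p.1 + p.2) * φ p.2 * (uu q p.1 * uu q (p.1 + p.2)) := by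
    refine tsum_congr fun p => ?_
    rw [hΦ1]; push_cast; ring
  have e2 : ∑' p : ℕ × ℕ, (p.1 : ℂ) * ((p.1 + p.2 : ℕ) : ℂ) * Φ (p.1, p.1 + p.2) *
      (uu q p.1 * uu q (p.1 + p.2)) =
      ∑' p : ℕ × ℕ, (p.1 : ℂ) * (p.1 + p.2) * φ p.2 * (uu q p.1 * uu q (p.1 + p.2)) := by
    refine tsum_congr fun p => ?_
    rw [hΦ2]; push_cast; ring
  have e3 : ∑' n : ℕ, (n : ℂ) * n * Φ (n, n) * (uu q n * uu q n) = φ 0 * U2 q := by
    rw [U2, ← tsum_mul_left]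
    refine tsum_congr fun n => ?_
    have := hΦ1 n 0
    rw [Nat.add_zero] at this
    rw [this]; ring
  rw [e1, e2, e3, G_eq hq hφ] at tri
  have S2 := S2_eq hq hφ
  have split : ∑' p : ℕ × ℕ, (p.1 : ℂ) * p.2 * (φ (p.1 + p.2) + Φ p) * (uu q p.1 * uu q p.2) =
      ∑' p : ℕ × ℕ, (p.1 : ℂ) * p.2 * φ (p.1 + p.2) * (uu q p.1 * uu q p.2) +
      ∑' p : ℕ × ℕ, (p.1 : ℂ) * p.2 * Φ p * (uu q p.1 * uu q p.2) := by
    rw [← s1.tsum_add s2]
    refine tsum_congr fun p => ?_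
    ring
  rw [split, S2, tri]
  ring

lemma ZZ_eq : ZZ q φ = ∑' k : ℕ, (k : ℂ) * (∑ p ∈ antidiagonal k, (p.1 : ℂ) * φ p.2) * uu q k := by
  rw [ZZ, tsum_antidiag _ (summable_C hq hφ)]
  refine tsum_congr fun k => ?_
  rw [Finset.mul_sum, Finset.sum_mul]
  refine Finset.sum_congr rfl fun p hp => ?_
  have h := mem_antidiagonal.mp hp
  have h' : ((p.1 : ℂ) + p.2) = k := by rw [← h]; push_cast; ring
  rw [h, h']; ring

end main

section ram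

variable {q : ℂ} (hq : ‖q‖ < 1)

include hq

lemma sum_antidiag_fst (k : ℕ) : ∑ p ∈ antidiagonal k, (p.1 : ℂ) * on p.2 =
    ((k : ℂ) ^ 2 + k) / 2 := by
  rw [Finset.Nat.sum_antidiagonal_eq_sum_range_succ (fun a b => (a : ℂ) * on b)]
  simp only [on_apply, mul_one]
  have : ∀ j : ℕ, ∑ i ∈ range (j + 1), (i : ℂ) = ((j : ℂ) ^ 2 + j) / 2 := by
    intro j
    induction j with
    | zero => simp
    | succ j ih => rw [sum_range_succ, ih]; push_cast; ring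
  exact this k

/-- Ramanujan's `Q = P² - 12 θP` in Lambert form -/
theorem ram_R : SS q 1 on ^ 2 + U2 q / 2 + SS q 2 on / 2 - SS q 1 on / 12 =
    5 / 12 * SS q 3 on := by
  have h := main_identity hq norm_on (Φ := fun _ => 1) (fun _ _ => rfl) (fun _ _ => rfl)
    (fun _ => by simp)
  rw [ZZ_eq hq norm_on] at h
  have e1 : ∑' k : ℕ, (k : ℂ) * (∑ p ∈ antidiagonal k, (p.1 : ℂ) * on p.2) * uu q k =
      (SS q 3 on + SS q 2 on) / 2 := by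
    unfold SS
    rw [← (summable_uu hq 3 norm_on).tsum_add (summable_uu hq 2 norm_on), ← tsum_div_const]
    refine tsum_congr fun k => ?_
    rw [sum_antidiag_fst hq, on_apply]; ring
  obtain ⟨sP, tP⟩ := prod_sum (summable_norm_uu hq 1 norm_on) (summable_norm_uu hq 1 norm_on)
  have e2 : ∑' p : ℕ × ℕ, (p.1 : ℂ) * p.2 * (on (p.1 + p.2) + 1) * (uu q p.1 * uu q p.2) =
      2 * (SS q 1 on * SS q 1 on) := by
    unfold SS
    rw [← tP, ← tsum_mul_left]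
    refine tsum_congr fun p => ?_
    simp only [on_apply]; ring
  rw [e1, e2, on_apply] at h
  linear_combination (-1 / 2 : ℂ) * h

/-- Ramanujan's identity at the angle `θ` -/
theorem ram_theta (θ : ℝ) (hθ : Real.cos θ ≠ 1) (β : ℂ)
    (hβ : 2 * (1 - (Real.cos θ : ℂ)) * β = 1) :
    (SS q 1 on - SS q 1 (fun n => (Real.cos (n * θ) : ℂ))) ^ 2 +
      (β - 1 / 12) * (SS q 1 on - SS q 1 (fun n => (Real.cos (n * θ) : ℂ))) =
    1 / 12 * (5 * SS q 3 on + SS q 3 (fun n => (Real.cos (n * θ) : ℂ))) := by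
  set φ : ℕ → ℂ := fun n => (Real.cos (n * θ) : ℂ) with hφd
  have hφ : ∀ n, ‖φ n‖ ≤ 1 := fun n => by
    simp only [hφd]
    rw [Complex.norm_real, Real.norm_eq_abs]
    exact Real.abs_cos_le_one _
  set Φ : ℕ × ℕ → ℂ := fun p => (Real.cos (p.1 * θ - p.2 * θ) : ℂ) with hΦd
  have hΦ : ∀ p, ‖Φ p‖ ≤ 1 := fun p => by
    simp only [hΦd]
    rw [Complex.norm_real, Real.norm_eq_abs]
    exact Real.abs_cos_le_one _
  have h := main_identity hq hφ (Φ := Φ) (fun m k => by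
      simp only [hΦd, hφd]; congr 2; push_cast; ring) (fun m k => by
      simp only [hΦd, hφd]
      rw [← Real.cos_neg]; congr 2; push_cast; ring) hΦ
  have hR := ram_R hq
  have hrec : ∀ n : ℕ, φ (n + 2) = 2 * (Real.cos θ : ℂ) * φ (n + 1) - φ n := by
    intro n
    simp only [hφd]
    have : Real.cos ((n + 2 : ℕ) * θ) =
        2 * Real.cos θ * Real.cos ((n + 1 : ℕ) * θ) - Real.cos (n * θ) := by
      have e1 : ((n + 2 : ℕ) : ℝ) * θ = ((n + 1 : ℕ) : ℝ) * θ + θ := by push_cast; ring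
      have e2 : (n : ℝ) * θ = ((n + 1 : ℕ) : ℝ) * θ - θ := by push_cast; ring
      rw [e1, e2, Real.cos_add, Real.cos_sub]; ring
    exact_mod_cast this
  have φ0 : φ 0 = 1 := by simp [hφd]
  have φ1 : φ 1 = (Real.cos θ : ℂ) := by simp [hφd]
  -- sums over initial ranges
  have ps : ∀ n : ℕ, ∑ k ∈ range (n + 1), φ k = 1 / 2 + β * (φ n - φ (n + 1)) := by
    intro n
    induction n with
    | zero =>
      simp only [zero_add, sum_range_one, φ0, φ1]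
      linear_combination (-1 / 2 : ℂ) * hβ
    | succ n ih =>
      rw [sum_range_succ, ih, hrec n]
      linear_combination (-φ (n + 1)) * hβ
  have ps2 : ∀ n : ℕ, ∑ p ∈ antidiagonal n, (p.1 : ℂ) * φ p.2 = n / 2 + β * (1 - φ n) := by
    intro n
    induction n with
    | zero => simp [φ0]
    | succ n ih =>
      rw [Finset.Nat.sum_antidiagonal_succ]
      have : ∑ p ∈ antidiagonal n, ((p.1 + 1 : ℕ) : ℂ) * φ p.2 =
          ∑ p ∈ antidiagonal n, (p.1 : ℂ) * φ p.2 + ∑ k ∈ range (n + 1), φ k := by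
        rw [← Finset.Nat.sum_antidiagonal_eq_sum_range_succ (fun a _ => φ a)]
        have sw : ∑ p ∈ antidiagonal n, φ p.1 = ∑ p ∈ antidiagonal n, φ p.2 := by
          rw [← Finset.Nat.sum_antidiagonal_swap]; rfl
        rw [sw, ← Finset.sum_add_distrib]
        refine Finset.sum_congr rfl fun p _ => ?_
        push_cast; ring
      simp only [Nat.cast_zero, zero_mul, zero_add]
      rw [this, ih, ps n]
      push_cast; ring
  have e1 : ZZ q φ = SS q 2 on / 2 + β * (SS q 1 on - SS q 1 φ) := by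
    rw [ZZ_eq hq hφ]
    unfold SS
    rw [← (summable_uu hq 1 norm_on).tsum_sub (summable_uu hq 1 hφ), ← tsum_mul_left,
      ← tsum_div_const, ← ((summable_uu hq 2 norm_on).div_const 2).tsum_add
      (((summable_uu hq 1 norm_on).sub (summable_uu hq 1 hφ)).mul_left β)]
    refine tsum_congr fun k => ?_
    rw [ps2 k, on_apply]; ring
  obtain ⟨sP, tP⟩ := prod_sum (summable_norm_uu hq 1 hφ) (summable_norm_uu hq 1 hφ)
  have e2 : ∑' p : ℕ × ℕ, (p.1 : ℂ) * p.2 * (φ (p.1 + p.2) + Φ p) * (uu q p.1 * uu q p.2) =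
      2 * (SS q 1 φ * SS q 1 φ) := by
    unfold SS
    rw [← tP, ← tsum_mul_left]
    refine tsum_congr fun p => ?_
    have : φ (p.1 + p.2) + Φ p = 2 * (φ p.1 * φ p.2) := by
      simp only [hφd, hΦd]
      have : Real.cos ((p.1 + p.2 : ℕ) * θ) + Real.cos (p.1 * θ - p.2 * θ) =
          2 * (Real.cos (p.1 * θ) * Real.cos (p.2 * θ)) := by
        have e1 : ((p.1 + p.2 : ℕ) : ℝ) * θ = p.1 * θ + p.2 * θ := by push_cast; ring
        rw [e1, Real.cos_add, Real.cos_sub]; ring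
      exact_mod_cast this
    rw [this]; ring
  rw [e1, e2, φ0] at h
  linear_combination (1 / 2 : ℂ) * h + hR

end ram

end

end RV85
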