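import Pool.Agent.Work.MP_5955e5_nt.Ram1

/-!
# Level 6 identities for the weight two and four Lambert series (helper85)
-/

set_option autoImplicit false

namespace RV85

open scoped BigOperators Topology
open Filter Finset

noncomputable section

/-- indicator of the multiples of `d` -/
def dv (d : ℕ) : ℕ → ℂ := fun n => if d ∣ n then 1 else 0

lemma norm_dv (d n : ℕ) : ‖dv d n‖ ≤ 1 := by
  unfold dv; split_ifs <;> simp

lemma norm_pow_lt {q : ℂ} (hq : ‖q‖ < 1) {d : ℕ} (hd : d ≠ 0) : ‖q ^ d‖ < 1 := by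
  rw [norm_pow]; exact pow_lt_one₀ (norm_nonneg q) hq hd

lemma SS_dv (q : ℂ) {d : ℕ} (hd : d ≠ 0) (a : ℕ) :
    SS q a (dv d) = (d : ℂ) ^ a * SS (q ^ d) a on := by
  unfold SS
  have e : Function.Injective (fun m : ℕ => d * m) := fun m n h =>
    Nat.eq_of_mul_eq_mul_left (Nat.pos_of_ne_zero hd) h
  rw [← tsum_mul_left, ← e.tsum_eq (f := fun n : ℕ => (n : ℂ) ^ a * dv d n * uu q n)]
  · refine tsum_congr fun m => ?_
    have : uu q (d * m) = uu (q ^ d) m := by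
      unfold uu; rw [pow_mul]
    rw [this]
    simp only [dv, dvd_mul_right, if_true, on_apply]
    push_cast; ring
  · intro n h
    simp only [Function.mem_support, ne_eq] at h
    by_contra h'
    apply h
    have : ¬ d ∣ n := by
      rintro ⟨c, rfl⟩
      exact h' ⟨c, rfl⟩
    simp [dv, this]

lemma SS_comb {q : ℂ} (hq : ‖q‖ < 1) (a : ℕ) (φ : ℕ → ℂ) (α β γ δ : ℂ)
    (h : ∀ n, φ n = α + β * dv 2 n + γ * dv 3 n + δ * dv 6 n) :
    SS q a φ = α * SS q a on + β * (2 ^ a * SS (q ^ 2) a on) + γ * (3 ^ a * SS (q ^ 3) a on)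
      + δ * (6 ^ a * SS (q ^ 6) a on) := by
  have e2 := SS_dv q (d := 2) (by norm_num) a
  have e3 := SS_dv q (d := 3) (by norm_num) a
  have e6 := SS_dv q (d := 6) (by norm_num) a
  push_cast at e2 e3 e6
  rw [← e2, ← e3, ← e6]
  have s1 := (summable_uu hq a norm_on).mul_left α
  have s2 := (summable_uu hq a (norm_dv 2)).mul_left β
  have s3 := (summable_uu hq a (norm_dv 3)).mul_left γ
  have s6 := (summable_uu hq a (norm_dv 6)).mul_left δ
  unfold SS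
  rw [← tsum_mul_left, ← tsum_mul_left, ← tsum_mul_left, ← tsum_mul_left, ← s1.tsum_add s2,
    ← (s1.add s2).tsum_add s3, ← ((s1.add s2).add s3).tsum_add s6]
  refine tsum_congr fun n => ?_
  rw [h n, on_apply]; ring

/-! ### values of the cosine -/

lemma cos_pi_case (n : ℕ) : (Real.cos (n * Real.pi) : ℂ) = -1 + 2 * dv 2 n := by
  have : Real.cos (n * Real.pi) = (-1) ^ n := Real.cos_nat_mul_pi n
  rw [this]
  unfold dv
  rcases Nat.even_or_odd n with h | h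
  · rw [if_pos h.two_dvd, h.neg_one_pow]; push_cast; ring
  · rw [if_neg (by rw [Nat.two_dvd_ne_zero]; exact Nat.odd_iff.mp h), h.neg_one_pow]
    push_cast; ring

lemma cos_pi_third (n : ℕ) : (Real.cos (n * (Real.pi / 3)) : ℂ) =
    1 / 2 - dv 2 n - 3 / 2 * dv 3 n + 3 * dv 6 n := by
  obtain ⟨k, r, hr, rfl⟩ : ∃ k r, r < 6 ∧ n = 6 * k + r :=
    ⟨n / 6, n % 6, Nat.mod_lt _ (by norm_num), (Nat.div_add_mod n 6).symm⟩
  have e : Real.cos ((6 * k + r : ℕ) * (Real.pi / 3)) = Real.cos (r * (Real.pi / 3)) := by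
    have : ((6 * k + r : ℕ) : ℝ) * (Real.pi / 3) = r * (Real.pi / 3) + k * (2 * Real.pi) := by
      push_cast; ring
    rw [this, Real.cos_add_nat_mul_two_pi]
  rw [e]
  have c1 : Real.cos (Real.pi / 3) = 1 / 2 := Real.cos_pi_div_three
  have c2 : Real.cos (2 * (Real.pi / 3)) = -1 / 2 := by
    rw [Real.cos_two_mul, c1]; norm_num
  have c3 : Real.cos (3 * (Real.pi / 3)) = -1 := by
    rw [mul_div_cancel₀ _ (by norm_num : (3 : ℝ) ≠ 0), Real.cos_pi]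
  have c4 : Real.cos (4 * (Real.pi / 3)) = -1 / 2 := by
    have : 4 * (Real.pi / 3) = 2 * (2 * (Real.pi / 3)) := by ring
    rw [this, Real.cos_two_mul, c2]; norm_num
  have c5 : Real.cos (5 * (Real.pi / 3)) = 1 / 2 := by
    have : 5 * (Real.pi / 3) = 2 * Real.pi - Real.pi / 3 := by ring
    rw [this, Real.cos_two_pi_sub, c1]
  unfold dv
  interval_cases r
  · have h2 : 2 ∣ 6 * k + 0 := by omega
    have h3 : 3 ∣ 6 * k + 0 := by omega
    have h6 : 6 ∣ 6 * k + 0 := by omega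
    rw [if_pos h2, if_pos h3, if_pos h6]; push_cast; norm_num
  · have h2 : ¬ 2 ∣ 6 * k + 1 := by omega
    have h3 : ¬ 3 ∣ 6 * k + 1 := by omega
    have h6 : ¬ 6 ∣ 6 * k + 1 := by omega
    rw [if_neg h2, if_neg h3, if_neg h6]
    rw [show ((1 : ℕ) : ℝ) * (Real.pi / 3) = Real.pi / 3 by push_cast; ring, c1]
    push_cast; norm_num
  · have h2 : 2 ∣ 6 * k + 2 := by omega
    have h3 : ¬ 3 ∣ 6 * k + 2 := by omega
    have h6 : ¬ 6 ∣ 6 * k + 2 := by omega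
    rw [if_pos h2, if_neg h3, if_neg h6]
    rw [show ((2 : ℕ) : ℝ) * (Real.pi / 3) = 2 * (Real.pi / 3) by push_cast; ring, c2]
    push_cast; norm_num
  · have h2 : ¬ 2 ∣ 6 * k + 3 := by omega
    have h3 : 3 ∣ 6 * k + 3 := by omega
    have h6 : ¬ 6 ∣ 6 * k + 3 := by omega
    rw [if_neg h2, if_pos h3, if_neg h6]
    rw [show ((3 : ℕ) : ℝ) * (Real.pi / 3) = 3 * (Real.pi / 3) by push_cast; ring, c3]
    push_cast; norm_num
  · have h2 : 2 ∣ 6 * k + 4 := by omega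
    have h3 : ¬ 3 ∣ 6 * k + 4 := by omega
    have h6 : ¬ 6 ∣ 6 * k + 4 := by omega
    rw [if_pos h2, if_neg h3, if_neg h6]
    rw [show ((4 : ℕ) : ℝ) * (Real.pi / 3) = 4 * (Real.pi / 3) by push_cast; ring, c4]
    push_cast; norm_num
  · have h2 : ¬ 2 ∣ 6 * k + 5 := by omega
    have h3 : ¬ 3 ∣ 6 * k + 5 := by omega
    have h6 : ¬ 6 ∣ 6 * k + 5 := by omega
    rw [if_neg h2, if_neg h3, if_neg h6]
    rw [show ((5 : ℕ) : ℝ) * (Real.pi / 3) = 5 * (Real.pi / 3) by push_cast; ring, c5]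
    push_cast; norm_num

lemma cos_two_pi_third (n : ℕ) : (Real.cos (n * (2 * (Real.pi / 3))) : ℂ) =
    -1 / 2 + 3 / 2 * dv 3 n := by
  have h := cos_pi_third (2 * n)
  have e : ((2 * n : ℕ) : ℝ) * (Real.pi / 3) = n * (2 * (Real.pi / 3)) := by push_cast; ring
  rw [e] at h
  rw [h]
  have e2 : dv 2 (2 * n) = 1 := by simp [dv]
  have e3 : dv 3 (2 * n) = dv 3 n := by
    unfold dv
    congr 1
    exact propext ⟨fun h => by omega, fun h => by omega⟩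
  have e6 : dv 6 (2 * n) = dv 3 n := by
    unfold dv
    congr 1
    exact propext ⟨fun h => by omega, fun h => by omega⟩
  rw [e2, e3, e6]; ring

/-! ### `P`, `Q` and the identities -/

/-- `E₂(q)` -/
def PP (q : ℂ) : ℂ := 1 - 24 * SS q 1 on

/-- `E₄(q)` -/
def QQ (q : ℂ) : ℂ := 1 + 240 * SS q 3 on

section ids

variable {q : ℂ} (hq : ‖q‖ < 1)

include hq

theorem level2 : (2 * PP (q ^ 2) - PP q) ^ 2 = (QQ q + 4 * QQ (q ^ 2)) / 5 := by
  have h := ram_theta hq Real.pi (by rw [Real.cos_pi]; norm_num) (1 / 4)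
    (by rw [Real.cos_pi]; push_cast; norm_num)
  have e1 := SS_comb hq 1 (fun n => (Real.cos (n * Real.pi) : ℂ)) (-1) 2 0 0
    (fun n => by simp only [cos_pi_case]; ring)
  have e3 := SS_comb hq 3 (fun n => (Real.cos (n * Real.pi) : ℂ)) (-1) 2 0 0
    (fun n => by simp only [cos_pi_case]; ring)
  rw [e1, e3] at h
  unfold PP QQ
  linear_combination 144 * h

theorem level3 : (3 * PP (q ^ 3) - PP q) ^ 2 = 2 / 5 * (QQ q + 9 * QQ (q ^ 3)) := by
  have hc : Real.cos (2 * (Real.pi / 3)) = -1 / 2 := by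
    rw [Real.cos_two_mul, Real.cos_pi_div_three]; norm_num
  have h := ram_theta hq (2 * (Real.pi / 3)) (by rw [hc]; norm_num) (1 / 3)
    (by rw [hc]; push_cast; norm_num)
  have e1 := SS_comb hq 1 (fun n => (Real.cos (n * (2 * (Real.pi / 3))) : ℂ)) (-1/2) 0 (3/2) 0
    (fun n => by simp only [cos_two_pi_third]; ring)
  have e3 := SS_comb hq 3 (fun n => (Real.cos (n * (2 * (Real.pi / 3))) : ℂ)) (-1/2) 0 (3/2) 0
    (fun n => by simp only [cos_two_pi_third]; ring)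
  rw [e1, e3] at h
  unfold PP QQ
  linear_combination 256 * h

theorem level6 : (36 * PP (q ^ 6) - 9 * PP (q ^ 3) - 4 * PP (q ^ 2) - PP q) ^ 2 =
    (22 * QQ q - 32 * QQ (q ^ 2) - 162 * QQ (q ^ 3) + 2592 * QQ (q ^ 6)) / 5 := by
  have h := ram_theta hq (Real.pi / 3) (by rw [Real.cos_pi_div_three]; norm_num) 1
    (by rw [Real.cos_pi_div_three]; push_cast; norm_num)
  have e1 := SS_comb hq 1 (fun n => (Real.cos (n * (Real.pi / 3)) : ℂ)) (1/2) (-1) (-3/2) 3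
    (fun n => by simp only [cos_pi_third]; ring)
  have e3 := SS_comb hq 3 (fun n => (Real.cos (n * (Real.pi / 3)) : ℂ)) (1/2) (-1) (-3/2) 3
    (fun n => by simp only [cos_pi_third]; ring)
  rw [e1, e3] at h
  unfold PP QQ
  linear_combination 2304 * h

/-- the weight two form `u = G X` in Lambert form -/
def uL (q : ℂ) : ℂ := SS q 1 on - SS (q ^ 2) 1 on - 3 * SS (q ^ 3) 1 on + 3 * SS (q ^ 6) 1 on

/-- `g = θX/X` in Lambert form -/
def gL (q : ℂ) : ℂ :=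
  1 + 6 * SS q 1 on - 12 * SS (q ^ 2) 1 on + 18 * SS (q ^ 3) 1 on - 36 * SS (q ^ 6) 1 on

/-- `f = G` in Lambert form -/
def fL (q : ℂ) : ℂ :=
  1 - 4 * SS q 1 on + 16 * SS (q ^ 2) 1 on + 12 * SS (q ^ 3) 1 on - 48 * SS (q ^ 6) 1 on

/-- the weight four Eisenstein series `e` in Lambert form -/
def eL (q : ℂ) : ℂ := SS q 3 on - SS (q ^ 2) 3 on - 9 * SS (q ^ 3) 3 on + 9 * SS (q ^ 6) 3 on

/-- the five basic identities at level 6 -/
lemma five : (2 * PP (q ^ 2) - PP q) ^ 2 = (QQ q + 4 * QQ (q ^ 2)) / 5 ∧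
    (2 * PP (q ^ 6) - PP (q ^ 3)) ^ 2 = (QQ (q ^ 3) + 4 * QQ (q ^ 6)) / 5 ∧
    (3 * PP (q ^ 3) - PP q) ^ 2 = 2 / 5 * (QQ q + 9 * QQ (q ^ 3)) ∧
    (3 * PP (q ^ 6) - PP (q ^ 2)) ^ 2 = 2 / 5 * (QQ (q ^ 2) + 9 * QQ (q ^ 6)) ∧
    (36 * PP (q ^ 6) - 9 * PP (q ^ 3) - 4 * PP (q ^ 2) - PP q) ^ 2 =
      (22 * QQ q - 32 * QQ (q ^ 2) - 162 * QQ (q ^ 3) + 2592 * QQ (q ^ 6)) / 5 := by
  have h2 := level2 (norm_pow_lt hq (d := 3) (by norm_num))
  have h3 := level3 (norm_pow_lt hq (d := 2) (by norm_num))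
  rw [← pow_mul] at h2 h3
  exact ⟨level2 hq, h2, level3 hq, h3, level6 hq⟩

omit hq in
lemma uL_eq (q : ℂ) : uL q = (PP (q ^ 2) - PP q - 3 * PP (q ^ 6) + 3 * PP (q ^ 3)) / 24 := by
  unfold uL PP; ring

omit hq in
lemma gL_eq (q : ℂ) : gL q = (2 * PP (q ^ 2) - PP q + 6 * PP (q ^ 6) - 3 * PP (q ^ 3)) / 4 := by
  unfold gL PP; ring

omit hq in
lemma fL_eq (q : ℂ) : fL q = (PP q - 4 * PP (q ^ 2) - 3 * PP (q ^ 3) + 12 * PP (q ^ 6)) / 6 := by
  unfold fL PP; ring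

omit hq in
lemma eL_eq (q : ℂ) : eL q = (QQ q - QQ (q ^ 2) - 9 * QQ (q ^ 3) + 9 * QQ (q ^ 6)) / 240 := by
  unfold eL QQ; ring

/-- the weight four identity `u g = e` -/
theorem uL_mul_gL : uL q * gL q = eL q := by
  obtain ⟨h1, h2, h3, h4, h5⟩ := five hq
  rw [uL_eq, gL_eq, eL_eq]
  linear_combination (5 / 576 : ℂ) * h1 - (9 / 64 : ℂ) * h2 + (1 / 768 : ℂ) * h3
    - (1 / 48 : ℂ) * h4 + (1 / 2304 : ℂ) * h5

/-- `g² = (f + 4u)(f + 16u)` -/
theorem gL_sq : gL q ^ 2 = (fL q + 4 * uL q) * (fL q + 16 * uL q) := by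
  obtain ⟨h1, h2, h3, h4, h5⟩ := five hq
  rw [uL_eq, gL_eq, fL_eq]
  linear_combination (1 / 8 : ℂ) * h1 + (9 / 8 : ℂ) * h2 - (1 / 16 : ℂ) * h3 - (1 / 4 : ℂ) * h4

/-- the `θ`-derivative of `u`, in terms of `θP_d = d (P_d² - Q_d)/12` -/
theorem uL_ode : (2 * (PP (q ^ 2) ^ 2 - QQ (q ^ 2)) - (PP q ^ 2 - QQ q)
      - 18 * (PP (q ^ 6) ^ 2 - QQ (q ^ 6)) + 9 * (PP (q ^ 3) ^ 2 - QQ (q ^ 3))) / 288 =
    uL q * (1 + 2 * SS q 1 on - 8 * SS (q ^ 2) 1 on + 6 * SS (q ^ 3) 1 on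
      - 24 * SS (q ^ 6) 1 on) := by
  obtain ⟨h1, h2, h3, h4, h5⟩ := five hq
  have e : 1 + 2 * SS q 1 on - 8 * SS (q ^ 2) 1 on + 6 * SS (q ^ 3) 1 on
      - 24 * SS (q ^ 6) 1 on =
      (4 * PP (q ^ 2) + 12 * PP (q ^ 6) - PP q - 3 * PP (q ^ 3)) / 12 := by unfold PP; ring
  rw [uL_eq, e]
  linear_combination (-1 / 192 : ℂ) * h1 + (7 / 64 : ℂ) * h2 - (1 / 768 : ℂ) * h3
    + (1 / 48 : ℂ) * h4 - (1 / 2304 : ℂ) * h5

end ids

end

end RV85
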