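import Pool.Agent.Work.MP_5955e5_nt.Ram2

/-!
# Derivatives: the eta products of level 6 and their Lambert series (helper85)
-/

set_option autoImplicit false

namespace RV85

open scoped BigOperators Topology
open Filter Finset

noncomputable section

/-! ### derivative of `SS q 1 on` -/

lemma hasDerivAt_uu {x : ℂ} (hx : ‖x‖ < 1) (n : ℕ) :
    HasDerivAt (fun y => uu y n) ((n : ℂ) * x ^ (n - 1) / (1 - x ^ n) ^ 2) x := by
  rcases Nat.eq_zero_or_pos n with rfl | hn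
  · have : (fun y : ℂ => uu y 0) = fun _ => 0 := by ext y; simp
    rw [this]
    simpa using hasDerivAt_const x (0 : ℂ)
  · have h1 := one_sub_pow_ne hx hn.ne'
    have h := (hasDerivAt_pow n x).div ((hasDerivAt_const x (1 : ℂ)).sub (hasDerivAt_pow n x)) h1
    refine h.congr_deriv ?_
    congr 1
    simp only [Pi.sub_apply]
    ring

/-- the derivative of `SS q 1 on` -/
def dS (q : ℂ) : ℂ := ∑' n : ℕ, (n : ℂ) * ((n : ℂ) * q ^ (n - 1) / (1 - q ^ n) ^ 2)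

lemma one_sub_norm_le {x : ℂ} {r : ℝ} (hx : ‖x‖ ≤ r) (hr : r < 1) {n : ℕ} (hn : n ≠ 0) :
    1 - r ≤ ‖1 - x ^ n‖ := by
  have h2 : ‖(1:ℂ)‖ - ‖x ^ n‖ ≤ ‖1 - x ^ n‖ := norm_sub_norm_le _ _
  rw [norm_one, norm_pow] at h2
  have h3 : ‖x‖ ^ n ≤ ‖x‖ := pow_le_of_le_one (norm_nonneg _) (hx.trans hr.le) hn
  linarith

lemma summable_shift {r : ℝ} (hr0 : 0 < r) (hr : r < 1) (a : ℕ) :
    Summable fun n : ℕ => (n : ℝ) ^ a * r ^ (n - 1) := by
  have h := (summable_pow_geom hr0.le hr a).mul_left r⁻¹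
  rw [← summable_nat_add_iff 1] at h ⊢
  refine h.congr fun n => ?_
  rw [Nat.add_sub_cancel, pow_succ]
  field_simp

lemma hasDerivAt_SS1 {q : ℂ} (hq : ‖q‖ < 1) : HasDerivAt (fun x => SS x 1 on) (dS q) q := by
  obtain ⟨r, hr1, hr2⟩ := exists_between (max_lt hq one_pos)
  have hqr : ‖q‖ < r := (le_max_left _ _).trans_lt hr1
  have hr0 : 0 < r := (le_max_right ‖q‖ 0).trans_lt hr1
  have hb : 0 < 1 - r := by linarith
  have := hasDerivAt_tsum_of_isPreconnected (𝕜 := ℂ) (F := ℂ) (t := Metric.ball (0 : ℂ) r)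
    (g := fun (n : ℕ) (x : ℂ) => (n : ℂ) ^ 1 * on n * uu x n)
    (g' := fun (n : ℕ) (x : ℂ) => (n : ℂ) * ((n : ℂ) * x ^ (n - 1) / (1 - x ^ n) ^ 2))
    (u := fun n : ℕ => ((n : ℝ) ^ 2 * r ^ (n - 1)) * ((1 - r) ^ 2)⁻¹) (y₀ := 0) (y := q)
    ((summable_shift hr0 hr2 2).mul_right _) Metric.isOpen_ball
    (convex_ball 0 r).isPreconnected ?_ ?_ (Metric.mem_ball_self hr0) ?_
    (by simpa using hqr)
  · exact this
  · intro n y hy
    have hy' : ‖y‖ < 1 := by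
      have : ‖y‖ < r := by simpa using hy
      linarith
    have := (hasDerivAt_uu hy' n).const_mul ((n : ℂ) ^ 1 * on n)
    refine this.congr_deriv ?_
    rw [on_apply]; ring
  · intro n y hy
    have hy' : ‖y‖ < r := by simpa using hy
    rcases Nat.eq_zero_or_pos n with rfl | hn
    · simp
    · rw [norm_mul, norm_div, norm_mul, norm_pow, norm_pow, Complex.norm_natCast]
      have h1 := one_sub_norm_le hy'.le hr2 hn.ne'
      have h2 : (1 - r) ^ 2 ≤ ‖1 - y ^ n‖ ^ 2 := by gcongr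
      calc (n : ℝ) * ((n : ℝ) * ‖y‖ ^ (n - 1) / ‖1 - y ^ n‖ ^ 2)
          ≤ (n : ℝ) * ((n : ℝ) * r ^ (n - 1) / (1 - r) ^ 2) := by gcongr
        _ = _ := by ring
  · exact summable_uu (by simp) 1 norm_on

lemma q_mul_dS {q : ℂ} (hq : ‖q‖ < 1) : q * dS q = SS q 2 on + U2 q := by
  unfold dS SS U2
  rw [← (summable_uu hq 2 norm_on).tsum_add (summable_U2 hq), ← tsum_mul_left]
  refine tsum_congr fun n => ?_
  rcases Nat.eq_zero_or_pos n with rfl | hn
  · simp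
  · have h1 := one_sub_pow_ne hq hn.ne'
    have h2 : q * q ^ (n - 1) = q ^ n := by
      rw [← pow_succ', Nat.sub_add_cancel hn]
    rw [on_apply]
    unfold uu
    rw [show q * ((n : ℂ) * ((n : ℂ) * q ^ (n - 1) / (1 - q ^ n) ^ 2)) =
      (n : ℂ) ^ 2 * (q * q ^ (n - 1)) / (1 - q ^ n) ^ 2 by ring, h2]
    field_simp
    ring

/-- Ramanujan: `θP = (P² - Q)/12` -/
lemma hasDerivAt_PP {q : ℂ} (hq : ‖q‖ < 1) : HasDerivAt PP (-24 * dS q) q := by
  have := ((hasDerivAt_SS1 hq).const_mul (24 : ℂ)).const_sub 1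
  refine this.congr_deriv ?_
  ring

lemma q_mul_PP' {q : ℂ} (hq : ‖q‖ < 1) : q * (-24 * dS q) = (PP q ^ 2 - QQ q) / 12 := by
  have h := q_mul_dS hq
  have hR := ram_R hq
  unfold PP QQ
  linear_combination (-24 : ℂ) * h - 48 * hR

end

end RV85
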