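import Pool.Agent.Work.MP_5955e5_nt.Ram3
import Pool.Agent.Work.MP_5955e5_nt.A.Cx

/-!
# Logarithmic derivatives of the level 6 products (helper85)
-/

set_option autoImplicit false

namespace RV85

open scoped BigOperators Topology
open Filter Finset
open Pool.Agent.RV.A (PC XC GC PC_ne_zero PC_diff XC_eq)

noncomputable section

/-! ### the Euler product -/

lemma SS1_shift {q : ℂ} (hq : ‖q‖ < 1) :
    SS q 1 on = ∑' n : ℕ, ((n : ℂ) + 1) * q ^ (n + 1) / (1 - q ^ (n + 1)) := by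
  unfold SS
  rw [(summable_uu hq 1 norm_on).tsum_eq_zero_add]
  simp only [on_apply, uu_zero, mul_zero, zero_add, pow_one, mul_one]
  refine tsum_congr fun n => ?_
  unfold uu; push_cast; ring

lemma logDeriv_fac {q : ℂ} (n : ℕ) :
    logDeriv (fun x : ℂ => 1 - x ^ (n + 1)) q = -(((n : ℂ) + 1) * q ^ n / (1 - q ^ (n + 1))) := by
  rw [logDeriv_apply]
  have h : HasDerivAt (fun x : ℂ => 1 - x ^ (n + 1)) (-(((n : ℂ) + 1) * q ^ n)) q := by
    have := (hasDerivAt_pow (n + 1) q).const_sub 1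
    refine this.congr_deriv ?_
    push_cast
    simp
  rw [h.deriv, neg_div]

lemma summable_logDeriv_fac {q : ℂ} (hq : ‖q‖ < 1) :
    Summable fun n : ℕ => logDeriv (fun x : ℂ => 1 - x ^ (n + 1)) q := by
  have hb : 0 < 1 - ‖q‖ := by linarith
  have h1 : Summable fun n : ℕ => ((n : ℝ) + 1) * ‖q‖ ^ n := by
    have a := summable_pow_geom (norm_nonneg q) hq 1
    have b := summable_geometric_of_lt_one (norm_nonneg q) hq
    refine (a.add b).congr fun n => ?_
    rw [pow_one]; ring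
  refine Summable.of_norm_bounded (h1.mul_right (1 - ‖q‖)⁻¹) fun n => ?_
  rw [logDeriv_fac, norm_neg, norm_div, norm_mul, norm_pow]
  have h2 := one_sub_norm_le (le_refl ‖q‖) hq (n := n + 1) (by omega)
  have h3 : ‖((n : ℂ) + 1)‖ = (n : ℝ) + 1 := by
    have : ((n : ℂ) + 1) = ((n + 1 : ℕ) : ℂ) := by push_cast; ring
    rw [this, Complex.norm_natCast]; push_cast; ring
  rw [h3, div_eq_mul_inv]
  gcongr

lemma q_logDeriv_PC {q : ℂ} (hq : ‖q‖ < 1) : q * logDeriv PC q = -SS q 1 on := by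
  have h := logDeriv_tprod_eq_tsum (s := Metric.ball (0 : ℂ) 1) Metric.isOpen_ball
    (x := q) (by simpa using hq) (f := fun (n : ℕ) (x : ℂ) => 1 - x ^ (n + 1))
    (fun n => one_sub_pow_ne hq (by omega)) (fun n => by fun_prop)
    (summable_logDeriv_fac hq) ModularForm.multipliableLocallyUniformlyOn_one_sub_pow
    (PC_ne_zero hq)
  have h' : logDeriv PC q = ∑' n : ℕ, logDeriv (fun x : ℂ => 1 - x ^ (n + 1)) q := h
  rw [h', ← tsum_mul_left, SS1_shift hq, ← tsum_neg]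
  refine tsum_congr fun n => ?_
  rw [logDeriv_fac]
  rw [pow_succ]; ring

/-- `HT f h q`: `q f'(q) = h f(q)` with `f` differentiable at `q ≠ 0` -/
def HT (f : ℂ → ℂ) (h q : ℂ) : Prop := HasDerivAt f (f q * h / q) q

lemma HT_PC {q : ℂ} (hq : ‖q‖ < 1) (h0 : q ≠ 0) : HT PC (-SS q 1 on) q := by
  have hd : DifferentiableAt ℂ PC q :=
    PC_diff.differentiableAt (Metric.isOpen_ball.mem_nhds (by simpa using hq))
  have h := q_logDeriv_PC hq
  rw [logDeriv_apply] at h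
  have hne := PC_ne_zero hq
  unfold HT
  refine hd.hasDerivAt.congr_deriv ?_
  rw [← h]
  field_simp

lemma HT_pow_arg {f : ℂ → ℂ} {h q : ℂ} {d : ℕ} (hd : d ≠ 0) (h0 : q ≠ 0)
    (H : HT f h (q ^ d)) : HT (fun x => f (x ^ d)) (d * h) q := by
  unfold HT at *
  have : HasDerivAt (fun x => f (x ^ d)) (f (q ^ d) * h / q ^ d * (d * q ^ (d - 1))) q :=
    HasDerivAt.comp q H (hasDerivAt_pow d q)
  refine this.congr_deriv ?_
  have e : q ^ d = q * q ^ (d - 1) := by
    rw [← pow_succ', Nat.sub_add_cancel (Nat.pos_of_ne_zero hd)]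
  show _ = f (q ^ d) * (d * h) / q
  rw [div_mul_eq_mul_div, div_eq_div_iff (pow_ne_zero _ h0) h0]
  linear_combination (-(f (q ^ d) * h * d)) * e

lemma HT.mul {f g : ℂ → ℂ} {h k q : ℂ} (H : HT f h q) (K : HT g k q) :
    HT (fun x => f x * g x) (h + k) q := by
  unfold HT at *
  refine (HasDerivAt.fun_mul H K).congr_deriv ?_
  ring

lemma HT.pow {f : ℂ → ℂ} {h q : ℂ} (H : HT f h q) (n : ℕ) :
    HT (fun x => f x ^ n) (n * h) q := by
  unfold HT at *
  refine (HasDerivAt.fun_pow H n).congr_deriv ?_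
  rcases Nat.eq_zero_or_pos n with rfl | hn
  · simp
  · have : f q ^ n = f q ^ (n - 1) * f q := by
      rw [← pow_succ, Nat.sub_add_cancel hn]
    show _ = f q ^ n * (n * h) / q
    rw [this]; ring

lemma HT.div {f g : ℂ → ℂ} {h k q : ℂ} (H : HT f h q) (K : HT g k q) (hg : g q ≠ 0) :
    HT (fun x => f x / g x) (h - k) q := by
  unfold HT at *
  refine (HasDerivAt.fun_div H K hg).congr_deriv ?_
  field_simp

lemma HT_id {q : ℂ} (h0 : q ≠ 0) : HT (fun x => x) 1 q := by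
  unfold HT
  refine (hasDerivAt_id q).congr_deriv ?_
  field_simp

/-- `u = q ∏ ...` as a product -/
def UC (q : ℂ) : ℂ := q * ((PC (q ^ 2) * PC (q ^ 6)) ^ 4 / (PC q * PC (q ^ 3)) ^ 2)

lemma HT_UC {q : ℂ} (hq : ‖q‖ < 1) (h0 : q ≠ 0) :
    HT UC (1 + 2 * SS q 1 on - 8 * SS (q ^ 2) 1 on + 6 * SS (q ^ 3) 1 on
      - 24 * SS (q ^ 6) 1 on) q := by
  have n2 := norm_pow_lt hq (d := 2) (by norm_num)
  have n3 := norm_pow_lt hq (d := 3) (by norm_num)
  have n6 := norm_pow_lt hq (d := 6) (by norm_num)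
  have p1 := HT_PC hq h0
  have p2 := HT_pow_arg (d := 2) (by norm_num) h0 (HT_PC n2 (pow_ne_zero 2 h0))
  have p3 := HT_pow_arg (d := 3) (by norm_num) h0 (HT_PC n3 (pow_ne_zero 3 h0))
  have p6 := HT_pow_arg (d := 6) (by norm_num) h0 (HT_PC n6 (pow_ne_zero 6 h0))
  have hne : (PC q * PC (q ^ 3)) ^ 2 ≠ 0 :=
    pow_ne_zero _ (mul_ne_zero (PC_ne_zero hq) (PC_ne_zero n3))
  have := (HT_id h0).mul (((p2.mul p6).pow 4).div ((p1.mul p3).pow 2) hne)
  unfold HT at *
  refine this.congr_deriv ?_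
  unfold UC
  push_cast
  ring

lemma HT_XC' {q : ℂ} (hq : ‖q‖ < 1) (h0 : q ≠ 0) :
    HT (fun q => q * (PC (q ^ 2) * PC (q ^ 6) / (PC q * PC (q ^ 3))) ^ 6) (gL q) q := by
  have n2 := norm_pow_lt hq (d := 2) (by norm_num)
  have n3 := norm_pow_lt hq (d := 3) (by norm_num)
  have n6 := norm_pow_lt hq (d := 6) (by norm_num)
  have p1 := HT_PC hq h0
  have p2 := HT_pow_arg (d := 2) (by norm_num) h0 (HT_PC n2 (pow_ne_zero 2 h0))
  have p3 := HT_pow_arg (d := 3) (by norm_num) h0 (HT_PC n3 (pow_ne_zero 3 h0))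
  have p6 := HT_pow_arg (d := 6) (by norm_num) h0 (HT_PC n6 (pow_ne_zero 6 h0))
  have hne : (PC q * PC (q ^ 3)) ≠ 0 := mul_ne_zero (PC_ne_zero hq) (PC_ne_zero n3)
  have := (HT_id h0).mul (((p2.mul p6).div (p1.mul p3) hne).pow 6)
  unfold HT at *
  refine this.congr_deriv ?_
  unfold gL
  push_cast
  ring

end

end RV85
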