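import Pool.Agent.Work.MP_5955e5_nt.Ram4

/-!
# The weight two form as a product; the weight four Lambert series `e = G θX` (helper85)
-/

set_option autoImplicit false

namespace RV85

open scoped BigOperators Topology
open Filter Finset
open Pool.Agent.RV.A (PC XC GC PC_ne_zero PC_diff XC_eq)

noncomputable section

lemma q_mul_dS' {q : ℂ} (hq : ‖q‖ < 1) : q * dS q = (QQ q - PP q ^ 2) / 288 := by
  have h := q_mul_PP' hq
  linear_combination (-1 / 24 : ℂ) * h

/-- the derivative of `uL` -/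
def duL (q : ℂ) : ℂ :=
  dS q - 2 * q * dS (q ^ 2) - 9 * q ^ 2 * dS (q ^ 3) + 18 * q ^ 5 * dS (q ^ 6)

lemma hasDerivAt_uL {q : ℂ} (hq : ‖q‖ < 1) : HasDerivAt uL (duL q) q := by
  have n2 := norm_pow_lt hq (d := 2) (by norm_num)
  have n3 := norm_pow_lt hq (d := 3) (by norm_num)
  have n6 := norm_pow_lt hq (d := 6) (by norm_num)
  have d1 := hasDerivAt_SS1 hq
  have d2 : HasDerivAt (fun x => SS (x ^ 2) 1 on) _ q :=
    HasDerivAt.comp q (hasDerivAt_SS1 n2) (hasDerivAt_pow 2 q)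
  have d3 : HasDerivAt (fun x => SS (x ^ 3) 1 on) _ q :=
    HasDerivAt.comp q (hasDerivAt_SS1 n3) (hasDerivAt_pow 3 q)
  have d6 : HasDerivAt (fun x => SS (x ^ 6) 1 on) _ q :=
    HasDerivAt.comp q (hasDerivAt_SS1 n6) (hasDerivAt_pow 6 q)
  have := ((d1.sub d2).sub (d3.const_mul 3)).add (d6.const_mul 3)
  refine this.congr_deriv ?_
  unfold duL
  push_cast
  ring

lemma q_mul_duL {q : ℂ} (hq : ‖q‖ < 1) : q * duL q =
    uL q * (1 + 2 * SS q 1 on - 8 * SS (q ^ 2) 1 on + 6 * SS (q ^ 3) 1 on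
      - 24 * SS (q ^ 6) 1 on) := by
  have n2 := q_mul_dS' (norm_pow_lt hq (d := 2) (by norm_num))
  have n3 := q_mul_dS' (norm_pow_lt hq (d := 3) (by norm_num))
  have n6 := q_mul_dS' (norm_pow_lt hq (d := 6) (by norm_num))
  have n1 := q_mul_dS' hq
  have h := uL_ode hq
  unfold duL
  linear_combination h + n1 - 2 * n2 - 9 * n3 + 18 * n6

lemma HT_uL {q : ℂ} (hq : ‖q‖ < 1) (h0 : q ≠ 0) :
    HT uL (1 + 2 * SS q 1 on - 8 * SS (q ^ 2) 1 on + 6 * SS (q ^ 3) 1 on
      - 24 * SS (q ^ 6) 1 on) q := by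
  unfold HT
  refine (hasDerivAt_uL hq).congr_deriv ?_
  rw [← q_mul_duL hq]
  field_simp

lemma dS_zero : dS 0 = 1 := by
  unfold dS
  rw [tsum_eq_single 1]
  · simp
  · intro n hn
    rcases Nat.eq_zero_or_pos n with rfl | h
    · simp
    · have : n - 1 ≠ 0 := by omega
      simp [this]

lemma SS_zero (a : ℕ) : SS 0 (a + 1) on = 0 := by
  unfold SS
  convert tsum_zero with n
  rcases Nat.eq_zero_or_pos n with rfl | h
  · simp
  · simp [uu, h.ne']

lemma uL_zero : uL 0 = 0 := by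
  unfold uL
  simp [SS_zero 0]

lemma PC_zero : PC 0 = 1 := by
  unfold PC
  simp

lemma UC_ne_zero {q : ℂ} (hq : ‖q‖ < 1) (h0 : q ≠ 0) : UC q ≠ 0 := by
  have n2 := PC_ne_zero (norm_pow_lt hq (d := 2) (by norm_num))
  have n3 := PC_ne_zero (norm_pow_lt hq (d := 3) (by norm_num))
  have n6 := PC_ne_zero (norm_pow_lt hq (d := 6) (by norm_num))
  have n1 := PC_ne_zero hq
  unfold UC
  exact mul_ne_zero h0 (div_ne_zero (pow_ne_zero _ (mul_ne_zero n2 n6))
    (pow_ne_zero _ (mul_ne_zero n1 n3)))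

lemma tendsto_ratio : Tendsto (fun x => uL x / UC x) (𝓝[≠] (0 : ℂ)) (𝓝 1) := by
  have z0 : ‖(0 : ℂ)‖ < 1 := by simp
  have hu : Tendsto (fun x => uL x / x) (𝓝[≠] (0 : ℂ)) (𝓝 1) := by
    have h := (hasDerivAt_uL z0).tendsto_slope
    have e : duL 0 = 1 := by
      unfold duL
      simp [dS_zero]
    rw [e] at h
    refine h.congr' ?_
    filter_upwards with x
    rw [slope_def_field, uL_zero, sub_zero, sub_zero]
  have cPC : ∀ d : ℕ, d ≠ 0 → Tendsto (fun x : ℂ => PC (x ^ d)) (𝓝[≠] (0 : ℂ)) (𝓝 1) := by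
    intro d hd
    have hc : ContinuousAt PC 0 :=
      (PC_diff.differentiableAt (Metric.isOpen_ball.mem_nhds (by simp))).continuousAt
    have h1 : Tendsto (fun x : ℂ => x ^ d) (𝓝 (0 : ℂ)) (𝓝 0) := by
      have := (continuous_pow d (M := ℂ)).tendsto 0
      rwa [zero_pow hd] at this
    have h2 := hc.tendsto.comp h1
    rw [PC_zero] at h2
    exact h2.mono_left nhdsWithin_le_nhds
  have c1 : Tendsto (fun x : ℂ => PC x) (𝓝[≠] (0 : ℂ)) (𝓝 1) := by
    simpa using cPC 1 one_ne_zero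
  have hw : Tendsto (fun x : ℂ => (PC (x ^ 2) * PC (x ^ 6)) ^ 4 / (PC x * PC (x ^ 3)) ^ 2)
      (𝓝[≠] (0 : ℂ)) (𝓝 1) := by
    have := (((cPC 2 two_ne_zero).mul (cPC 6 (by norm_num))).pow 4).div
      ((c1.mul (cPC 3 three_ne_zero)).pow 2) (by norm_num)
    have e : ((1 : ℂ) * 1) ^ 4 / (1 * 1) ^ 2 = 1 := by norm_num
    rw [e] at this
    exact this
  have := hu.div hw one_ne_zero
  rw [div_one] at this
  refine this.congr' ?_
  filter_upwards [self_mem_nhdsWithin] with x hx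
  have hx' : x ≠ 0 := hx
  simp only [Pi.div_apply]
  unfold UC
  rw [div_div]

/-- **`u = q ∏ …` in Lambert form.** -/
theorem uL_eq_UC {q : ℂ} (hq : ‖q‖ < 1) : uL q = UC q := by
  rcases eq_or_ne q 0 with rfl | h0
  · rw [uL_zero]; simp [UC]
  have hn : 0 < ‖q‖ := norm_pos_iff.mpr h0
  set s : Set ℝ := Set.Ioo 0 (1 / ‖q‖) with hs
  set F : ℝ → ℂ := fun t => uL ((t : ℂ) * q) / UC ((t : ℂ) * q) with hF
  have hmem : ∀ t ∈ s, ‖(t : ℂ) * q‖ < 1 ∧ (t : ℂ) * q ≠ 0 := by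
    intro t ht
    obtain ⟨h1, h2⟩ := ht
    constructor
    · rw [norm_mul, Complex.norm_real, Real.norm_of_nonneg h1.le]
      rwa [lt_div_iff₀ hn] at h2
    · exact mul_ne_zero (by exact_mod_cast h1.ne') h0
  have hder : ∀ t ∈ s, HasDerivAt F 0 t := by
    intro t ht
    obtain ⟨h1, h2⟩ := hmem t ht
    have a := (HT_uL h1 h2).div (HT_UC h1 h2) (UC_ne_zero h1 h2)
    rw [sub_self] at a
    unfold HT at a
    rw [mul_zero, zero_div] at a
    have b : HasDerivAt (fun z : ℂ => z * q) q (t : ℂ) := by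
      simpa using (hasDerivAt_id (t : ℂ)).mul_const q
    have c := HasDerivAt.comp (t : ℂ) a b
    rw [zero_mul] at c
    exact c.comp_ofReal
  have hopen : IsOpen s := isOpen_Ioo
  obtain ⟨a, ha⟩ := hopen.exists_is_const_of_deriv_eq_zero (convex_Ioo _ _).isPreconnected
    (f := F) (fun t ht => (hder t ht).differentiableAt.differentiableWithinAt)
    (fun t ht => (hder t ht).deriv)
  have lim : Tendsto F (𝓝[>] (0 : ℝ)) (𝓝 1) := by
    refine tendsto_ratio.comp ?_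
    rw [tendsto_nhdsWithin_iff]
    constructor
    · have : Tendsto (fun t : ℝ => (t : ℂ) * q) (𝓝 0) (𝓝 ((0 : ℝ) * q)) :=
        (Complex.continuous_ofReal.mul continuous_const).tendsto 0
      rw [Complex.ofReal_zero, zero_mul] at this
      exact this.mono_left nhdsWithin_le_nhds
    · filter_upwards [self_mem_nhdsWithin] with t ht
      exact mul_ne_zero (by exact_mod_cast (ne_of_gt ht)) h0
  have lim2 : Tendsto F (𝓝[>] (0 : ℝ)) (𝓝 a) := by
    refine tendsto_const_nhds.congr' ?_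
    filter_upwards [Ioo_mem_nhdsGT (by positivity : (0 : ℝ) < 1 / ‖q‖)] with t ht
    exact (ha t ht).symm
  have hae : a = 1 := tendsto_nhds_unique lim2 lim
  have h1s : (1 : ℝ) ∈ s := ⟨one_pos, by rw [lt_div_iff₀ hn, one_mul]; exact hq⟩
  have := ha 1 h1s
  rw [hae] at this
  simp only [hF, Complex.ofReal_one, one_mul] at this
  exact (div_eq_one_iff_eq (UC_ne_zero hq h0)).mp this

/-- the product `G X` -/
lemma GC_mul_XC {q : ℂ} (hq : ‖q‖ < 1) : GC q * XC q = uL q := by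
  have n2 := PC_ne_zero (norm_pow_lt hq (d := 2) (by norm_num))
  have n3 := PC_ne_zero (norm_pow_lt hq (d := 3) (by norm_num))
  have n6 := PC_ne_zero (norm_pow_lt hq (d := 6) (by norm_num))
  have n1 := PC_ne_zero hq
  rw [uL_eq_UC hq, XC_eq hq]
  unfold GC UC
  field_simp

/-- the derivative of `X` -/
theorem HT_XC {q : ℂ} (hq : ‖q‖ < 1) (h0 : q ≠ 0) : HasDerivAt XC (XC q * gL q / q) q := by
  have h := HT_XC' hq h0
  unfold HT at h
  have e : XC q * gL q / q =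
      (fun q => q * (PC (q ^ 2) * PC (q ^ 6) / (PC q * PC (q ^ 3))) ^ 6) q * gL q / q := by
    rw [XC_eq hq]
  rw [e]
  refine h.congr_of_eventuallyEq ?_
  have : ∀ᶠ x in 𝓝 q, ‖x‖ < 1 := by
    have := Metric.isOpen_ball.mem_nhds (x := q) (s := Metric.ball (0 : ℂ) 1) (by simpa using hq)
    filter_upwards [this] with x hx
    simpa using hx
  filter_upwards [this] with x hx
  exact XC_eq hx

/-- **(a3)**: `G · q X' = e`. -/
theorem GC_mul_theta_XC {q : ℂ} (hq : ‖q‖ < 1) (h0 : q ≠ 0) :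
    GC q * (q * deriv XC q) = eL q := by
  rw [(HT_XC hq h0).deriv, ← uL_mul_gL hq, ← GC_mul_XC hq]
  field_simp

end

end RV85
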