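import Pool.Agent.Work.MP_5955e5_nt.Ram5
import Pool.Agent.Work.MP_5955e5_nt.QDefs

/-!
# The double series of `e` (helper85)
-/

set_option autoImplicit false

namespace RV85

open scoped BigOperators Topology
open Filter Finset
open Pool.Agent.RV.A (PC XC GC PC_ne_zero PC_diff XC_eq)

noncomputable section

lemma geom_dvd {z : ℂ} (hz : ‖z‖ < 1) {d : ℕ} (hd : d ≠ 0) :
    ∑' a : ℕ, (if d ∣ a + 1 then z ^ (a + 1) else 0) = z ^ d / (1 - z ^ d) := by
  have e : Function.Injective (fun m : ℕ => d * (m + 1) - 1) := by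
    intro m n h
    have h1 : d * (m + 1) = d * (n + 1) := by
      have a1 : 0 < d * (m + 1) := by positivity
      have a2 : 0 < d * (n + 1) := by positivity
      simp only at h
      omega
    have := Nat.eq_of_mul_eq_mul_left (Nat.pos_of_ne_zero hd) h1
    omega
  have hs : ∀ m : ℕ, d * (m + 1) - 1 + 1 = d * (m + 1) := fun m =>
    Nat.sub_add_cancel (by have : 0 < d * (m + 1) := by positivity
                           omega)
  rw [← e.tsum_eq (f := fun a : ℕ => if d ∣ a + 1 then z ^ (a + 1) else 0)]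
  · have h1 : ∀ m : ℕ, (if d ∣ d * (m + 1) - 1 + 1 then z ^ (d * (m + 1) - 1 + 1) else 0) =
        z ^ d * (z ^ d) ^ m := by
      intro m
      rw [hs m, if_pos (Dvd.intro _ rfl), ← pow_succ', ← pow_mul]
    simp_rw [h1]
    rw [tsum_mul_left, tsum_geometric_of_norm_lt_one (norm_pow_lt hz hd)]
    rfl
  · intro a h
    simp only [Function.mem_support, ne_eq, ite_eq_right_iff, Classical.not_imp] at h
    obtain ⟨⟨c, hc⟩, -⟩ := h
    refine ⟨c - 1, ?_⟩
    have hc0 : c ≠ 0 := by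
      rintro rfl
      simp at hc
    have : c - 1 + 1 = c := Nat.sub_add_cancel (Nat.pos_of_ne_zero hc0)
    simp only [this, ← hc]
    omega

/-- the terms of the double series -/
def DD (q : ℂ) (x : ℕ × ℕ) : ℂ := ((x.2 : ℂ) + 1) ^ 3 * q ^ ((x.1 + 1) * (x.2 + 1))

lemma norm_cast_succ (n : ℕ) : ‖((n : ℂ) + 1)‖ = (n : ℝ) + 1 := by
  have : ((n : ℂ) + 1) = ((n + 1 : ℕ) : ℂ) := by push_cast; ring
  rw [this, Complex.norm_natCast]; push_cast; ring

lemma norm_DD_le {q : ℂ} (hq : ‖q‖ < 1) (x : ℕ × ℕ) :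
    ‖DD q x‖ ≤ ‖q‖ ^ x.1 * (((x.2 : ℝ) + 1) ^ 3 * ‖q‖ ^ x.2) := by
  unfold DD
  rw [norm_mul, norm_pow, norm_pow, norm_cast_succ]
  have h : ‖q‖ ^ ((x.1 + 1) * (x.2 + 1)) ≤ ‖q‖ ^ (x.1 + x.2) :=
    pow_le_pow_of_le_one (norm_nonneg _) hq.le (by nlinarith [Nat.zero_le (x.1 * x.2)])
  rw [pow_add] at h
  calc ((x.2 : ℝ) + 1) ^ 3 * ‖q‖ ^ ((x.1 + 1) * (x.2 + 1))
      ≤ ((x.2 : ℝ) + 1) ^ 3 * (‖q‖ ^ x.1 * ‖q‖ ^ x.2) := by gcongr
    _ = _ := by ring

lemma summable_bound {r : ℝ} (hr0 : 0 ≤ r) (hr : r < 1) :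
    Summable fun x : ℕ × ℕ => r ^ x.1 * (((x.2 : ℝ) + 1) ^ 3 * r ^ x.2) := by
  have h1 := summable_geometric_of_lt_one hr0 hr
  have h2 : Summable fun n : ℕ => ((n : ℝ) + 1) ^ 3 * r ^ n := by
    have a3 := summable_pow_geom hr0 hr 3
    have a2 := (summable_pow_geom hr0 hr 2).mul_left 3
    have a1 := (summable_pow_geom hr0 hr 1).mul_left 3
    have a0 := summable_pow_geom hr0 hr 0
    refine (((a3.add a2).add a1).add a0).congr fun n => ?_
    ring
  exact h1.mul_of_nonneg h2 (fun n => by positivity) (fun n => by positivity)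

lemma summable_DD {q : ℂ} (hq : ‖q‖ < 1) {c : ℕ → ℂ} {C : ℝ} (hc : ∀ n, ‖c n‖ ≤ C) :
    Summable fun x : ℕ × ℕ => c x.1 * DD q x := by
  refine Summable.of_norm_bounded ((summable_bound (norm_nonneg q) hq).mul_left C) fun x => ?_
  rw [norm_mul]
  exact mul_le_mul (hc _) (norm_DD_le hq x) (norm_nonneg _) ((norm_nonneg _).trans (hc 0))

/-- indicator of `d ∣ a + 1` -/
def iv (d : ℕ) (a : ℕ) : ℂ := if d ∣ a + 1 then 1 else 0

lemma norm_iv (d n : ℕ) : ‖iv d n‖ ≤ 1 := by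
  unfold iv; split_ifs <;> simp

lemma tsum_iv {q : ℂ} (hq : ‖q‖ < 1) {d : ℕ} (hd : d ≠ 0) :
    ∑' x : ℕ × ℕ, iv d x.1 * DD q x = SS (q ^ d) 3 on := by
  have hs := summable_DD hq (norm_iv d)
  have hs' : Summable fun x : ℕ × ℕ => iv d x.2 * DD q (x.2, x.1) := by
    have := (Equiv.prodComm ℕ ℕ).summable_iff.mpr hs
    exact this
  rw [← (Equiv.prodComm ℕ ℕ).tsum_eq]
  have e : ∑' x : ℕ × ℕ, iv d ((Equiv.prodComm ℕ ℕ) x).1 * DD q ((Equiv.prodComm ℕ ℕ) x) =
      ∑' x : ℕ × ℕ, iv d x.2 * DD q (x.2, x.1) := rfl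
  rw [e, hs'.tsum_prod]
  have hqd := norm_pow_lt hq hd
  unfold SS
  rw [(summable_uu hqd 3 norm_on).tsum_eq_zero_add]
  simp only [uu_zero, mul_zero, zero_add]
  refine tsum_congr fun b => ?_
  have hz := norm_pow_lt hq (d := b + 1) (by omega)
  have hg := geom_dvd hz hd
  have e2 : ∀ a : ℕ, iv d a * DD q (a, b) =
      ((b : ℂ) + 1) ^ 3 * (if d ∣ a + 1 then (q ^ (b + 1)) ^ (a + 1) else 0) := by
    intro a
    unfold iv DD
    split_ifs
    · rw [← pow_mul, mul_comm (a + 1) (b + 1)]; ring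
    · ring
  simp_rw [e2]
  rw [tsum_mul_left, hg, on_apply]
  unfold uu
  rw [← pow_mul, ← pow_mul, mul_comm (b + 1) d]
  push_cast; ring

/-- the coefficients -/
def cc (a : ℕ) : ℂ := if (a + 1) % 2 = 1 then (if (a + 1) % 3 = 0 then -8 else 1) else 0

lemma cc_eq (a : ℕ) : cc a = iv 1 a - iv 2 a - 9 * iv 3 a + 9 * iv 6 a := by
  unfold cc iv
  have h1 : 1 ∣ a + 1 := one_dvd _
  rw [if_pos h1]
  rcases Nat.mod_two_eq_zero_or_one (a + 1) with h2 | h2
  · have d2 : 2 ∣ a + 1 := by omega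
    rw [if_neg (by omega), if_pos d2]
    by_cases h3 : 3 ∣ a + 1
    · rw [if_pos h3, if_pos (by omega)]; ring
    · rw [if_neg h3, if_neg (by omega)]; ring
  · have d2 : ¬ 2 ∣ a + 1 := by omega
    rw [if_pos h2, if_neg d2]
    by_cases h3 : 3 ∣ a + 1
    · rw [if_pos (by omega), if_pos h3, if_neg (by omega)]; norm_num
    · rw [if_neg (by omega), if_neg h3, if_neg (by omega)]; norm_num

/-- the double series of `e` -/
theorem eL_series {q : ℂ} (hq : ‖q‖ < 1) : eL q = ∑' x : ℕ × ℕ, cc x.1 * DD q x := by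
  have s1 := summable_DD hq (norm_iv 1)
  have s2 := summable_DD hq (norm_iv 2)
  have s3 := (summable_DD hq (norm_iv 3)).mul_left 9
  have s6 := (summable_DD hq (norm_iv 6)).mul_left 9
  have t1 := tsum_iv hq (d := 1) one_ne_zero
  rw [pow_one] at t1
  unfold eL
  rw [← t1, ← tsum_iv hq two_ne_zero, ← tsum_iv hq three_ne_zero,
    ← tsum_iv hq (d := 6) (by norm_num), ← tsum_mul_left, ← tsum_mul_left, ← s1.tsum_sub s2,
    ← (s1.sub s2).tsum_sub s3, ← ((s1.sub s2).sub s3).tsum_add s6]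
  refine tsum_congr fun x => ?_
  rw [cc_eq]; ring

/-- the value on the line `τ = -1/2 + iw` is the captain's `eqs` -/
theorem eL_eqs {w : ℝ} (hw : 0 < w) :
    eL (-(Real.exp (-2 * Real.pi * w) : ℂ)) = (Pool.RV.eqs w : ℂ) := by
  have hn : ‖(-(Real.exp (-2 * Real.pi * w) : ℂ))‖ < 1 := by
    rw [norm_neg, Complex.norm_real, Real.norm_of_nonneg (Real.exp_pos _).le, Real.exp_lt_one_iff]
    have := Real.pi_pos
    nlinarith [mul_pos this hw]
  rw [eL_series hn]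
  unfold Pool.RV.eqs
  rw [Complex.ofReal_tsum]
  refine tsum_congr fun x => ?_
  unfold cc DD
  push_cast
  have h : ∀ (p : Prop) [Decidable p] (a b : ℝ), ((if p then a else b : ℝ) : ℂ) =
      if p then (a : ℂ) else (b : ℂ) := by
    intro p _ a b; split_ifs <;> rfl
  simp only [h]
  push_cast
  ring

end

end RV85
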